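import Pool.Agent.Lib.MP_195885_an.PairNo

/-!
# Assembly, part 2: the factor map, the measure and the final statement
-/

open MeasureTheory Filter Topology Set

namespace MP195885

/-- The factor map from the skew product to the phase space. -/
noncomputable def iota (hF : SpecFlow) (ω : Z × K) : X := ⟨(ω.1, flow ω), hF.1 ω⟩

theorem flow_Tt (ω : Z × K) (p n : ℕ) : flow (Tt ω) p n = flow ω (p + 1) n := by
  unfold flow; rw [Function.iterate_succ_apply]

theorem iota_Tt (hF : SpecFlow) (ω : Z × K) : iota hF (Tt ω) = TX (iota hF ω) := by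
  apply Subtype.ext
  refine Prod.ext rfl ?_
  funext p n
  exact flow_Tt ω p n

theorem measurable_iota (hF : SpecFlow) : Measurable (iota hF) := by
  have h1 : Measurable fun ω : Z × K => ((ω.1, flow ω) : Z × (ℕ → ℕ → K)) := by
    refine measurable_fst.prodMk ?_
    exact measurable_pi_iff.mpr fun p => measurable_pi_iff.mpr fun n => hF.2.2 p n
  have b1 : BorelSpace (ℕ → K) := Pi.borelSpace
  have b2 : BorelSpace (ℕ → ℕ → K) := Pi.borelSpace
  have b3 : BorelSpace {x : Z × (ℕ → ℕ → K) // IsFlow (fun n => pos n x.1) x.2} :=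
    inferInstance
  intro s hs
  have hs' : @MeasurableSet {x : Z × (ℕ → ℕ → K) // IsFlow (fun n => pos n x.1) x.2}
      Subtype.instMeasurableSpace s := by
    rw [b3.measurable_eq]; exact hs
  obtain ⟨t, ht, rfl⟩ := hs'
  exact h1 ht

/-- The invariant measure on the phase space. -/
noncomputable def mX (hF : SpecFlow) : Measure X := Measure.map (iota hF) mΩ

theorem measurePreserving_iota (hF : SpecFlow) : MeasurePreserving (iota hF) mΩ (mX hF) :=
  ⟨measurable_iota hF, rfl⟩

theorem ergodic_TX (hF : SpecFlow) (hT : SpecTop) (hMP : SpecMP) (hE : SpecErg) :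
    Ergodic TX (mX hF) := by
  have hcont : Continuous TX := hT.2.1
  have hmeas : Measurable TX := hcont.measurable
  have hmp : MeasurePreserving TX (mX hF) (mX hF) := by
    refine ⟨hmeas, ?_⟩
    unfold mX
    rw [Measure.map_map hmeas (measurable_iota hF)]
    have h1 : TX ∘ iota hF = iota hF ∘ Tt := by
      funext ω; exact (iota_Tt hF ω).symm
    rw [h1, ← Measure.map_map (measurable_iota hF) hMP.measurable, hMP.map_eq]
  refine ⟨hmp, ⟨fun s hs hs' => ?_⟩⟩
  have h1 : MeasurableSet (iota hF ⁻¹' s) := measurable_iota hF hs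
  have h2 : Tt ⁻¹' (iota hF ⁻¹' s) = iota hF ⁻¹' s := by
    ext ω
    show iota hF (Tt ω) ∈ s ↔ iota hF ω ∈ s
    rw [iota_Tt]
    show iota hF ω ∈ TX ⁻¹' s ↔ _
    rw [hs']
  rw [eventuallyConst_set]
  rcases hE _ h1 h2 with h3 | h3
  · right
    refine measure_eq_zero_iff_ae_notMem.mp ?_
    unfold mX
    rw [Measure.map_apply (measurable_iota hF) hs]; exact h3
  · left
    refine mem_ae_iff.mpr ?_
    show (mX hF) sᶜ = 0
    unfold mX
    rw [Measure.map_apply (measurable_iota hF) hs.compl]; exact h3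

theorem persistent (hF : SpecFlow) (hP : SpecPersist) (hD : SpecPairDC2) (hUD : SpecUD) :
    PersistentUniformDC2 TX (mX hF) := by
  intro A' hA
  have hB : mΩ (iota hF ⁻¹' A') = 0 :=
    (measurePreserving_iota hF).quasiMeasurePreserving.preimage_null hA
  obtain ⟨z, ℓ, k, E, h1, h2, h3, h4, h5, h6⟩ := hP _ hB
  obtain ⟨s, hs, hs'⟩ := hD
  set F : (ℕ → ZMod 2) → X := fun b => iota hF (z, k + hb ℓ b) with hFdef
  have hpair : ∀ b b', b ≠ b' → UpperAsymptotic TX (F b) (F b') ∧
      1 / 144 ≤ upperDensity (farSet TX s (F b) (F b')) := by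
    intro b b' hbb
    exact hs' z ℓ h1 h2 h3 h4 k b b' hbb _ _ rfl rfl
  have hinj : Function.Injective F := by
    intro b b' hF'
    by_contra hbb
    have h7 := (hpair b b' hbb).2
    rw [← hF'] at h7
    have h8 : upperDensity (farSet TX s (F b) (F b)) ≤ 0 := by
      refine hUD.2 _ 0 0 (Eventually.of_forall fun N => ?_)
      have : farSet TX s (F b) (F b) = ∅ := by
        ext n
        simp only [farSet, dist_self, Set.mem_ofPred_eq, Set.mem_empty_iff_false, iff_false,
          not_le]
        exact hs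
      rw [this]
      simp
    linarith
  have hmem : ∀ x ∈ F '' E, ∀ y ∈ F '' E, x ≠ y → UpperAsymptotic TX x y ∧
      1 / 144 ≤ upperDensity (farSet TX s x y) := by
    rintro x ⟨b, hb, rfl⟩ y ⟨b', hb', rfl⟩ hxy
    exact hpair b b' fun h => hxy (by rw [h])
  refine ⟨F '' E, ?_, ?_, ?_, s, hs, 1 / 144, by norm_num, ?_⟩
  · rintro x ⟨b, hb, rfl⟩
    exact h6 b hb
  · intro hc
    have h7 := hc.preimage hinj
    rw [Set.preimage_image_eq E hinj] at h7
    exact h5 h7
  · intro x hx y hy hxy
    obtain ⟨h7, h8⟩ := hmem x hx y hy hxy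
    exact ⟨h7, s, hs, lt_of_lt_of_le (by norm_num) h8⟩
  · intro x hx y hy hxy
    exact (hmem x hx y hy hxy).2

theorem specFinal (hF : SpecFlow) (hT : SpecTop) (hMP : SpecMP) (hE : SpecErg)
    (hP : SpecPersist) (hD : SpecPairDC2) (hUD : SpecUD) (hN : SpecPairNo) : SpecFinal := by
  have hper := persistent hF hP hD hUD
  refine ⟨X, instMetricX, hT.1, inferInstance, inferInstance, TX, mX hF, hT.2.1, ?_,
    ergodic_TX hF hT hMP hE, hper, ?_, hN, ?_⟩
  · exact Measure.isProbabilityMeasure_map (measurable_iota hF).aemeasurable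
  · intro A' hA
    obtain ⟨E, h1, h2, h3⟩ := hper A' hA
    exact ⟨E, h1, h2, h3.1⟩
  · rintro ⟨E, h1, h2⟩
    apply h1
    have h3 : E.Subsingleton := by
      intro x hx y hy
      by_contra hxy
      exact hN x y (h2 x hx y hy hxy)
    exact h3.countable

end MP195885
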