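import Pool.Agent.Lib.MP_195885_an.Spec

/-!
# Module Bal: the hit digits are balanced
-/

set_option autoImplicit false

open MeasureTheory Filter Topology Set

namespace MP195885

namespace Bal

theorem zmod_ne_zero (x : ZMod 2) : x ≠ 0 ↔ x = 1 := by
  revert x
  decide

theorem xor_div (n i β : ℕ) (hi : i < n) : (β ^^^ 2 ^ i) / 2 ^ n = β / 2 ^ n := by
  have h1 : 2 ^ i / 2 ^ n = 0 := Nat.div_eq_of_lt (Nat.pow_lt_pow_right (by norm_num) hi)
  have h2 := Nat.shiftRight_xor_distrib (a := β) (b := 2 ^ i) (i := n)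
  rw [Nat.shiftRight_eq_div_pow, Nat.shiftRight_eq_div_pow, Nat.shiftRight_eq_div_pow, h1,
    Nat.xor_zero] at h2
  exact h2

theorem mem_Ico (n β : ℕ) : β ∈ Finset.Ico (M n) (2 * M n) ↔
    L n ≤ β / 2 ^ n ∧ β / 2 ^ n < 2 * L n := by
  have h0 : 0 < 2 ^ n := by positivity
  rw [Finset.mem_Ico, Nat.le_div_iff_mul_le h0, Nat.div_lt_iff_lt_mul h0]
  unfold M
  constructor
  · rintro ⟨h1, h2⟩
    exact ⟨by linarith, by linarith⟩
  · rintro ⟨h1, h2⟩
    exact ⟨by linarith, by linarith⟩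

theorem dot_xor (n : ℕ) (w : Fin n → ZMod 2) (i : Fin n) (hi : w i = 1) (β : ℕ) :
    dot n (β ^^^ 2 ^ (i : ℕ)) w = dot n β w + 1 := by
  unfold dot
  have h1 : ∀ j : Fin n, (if (β ^^^ 2 ^ (i : ℕ)).testBit j then w j else 0) =
      (if β.testBit j then w j else 0) + if j = i then 1 else 0 := by
    intro j
    rw [Nat.testBit_xor, Nat.testBit_two_pow]
    by_cases hj : j = i
    · subst hj
      rw [hi]
      simp only [decide_true, Bool.bne_true, if_true]
      cases β.testBit j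
      · simp
      · simp
        decide
    · have : ¬ (i : ℕ) = (j : ℕ) := fun h => hj (Fin.ext h.symm)
      simp only [this, decide_false, Bool.bne_false, if_neg hj, add_zero]
  simp only [h1]
  rw [Finset.sum_add_distrib]
  simp

theorem card_eq (n : ℕ) (w : Fin n → ZMod 2) (hw : w ≠ 0) :
    ((Finset.Ico (M n) (2 * M n)).filter fun β => dot n β w ≠ 0).card =
      ((Finset.Ico (M n) (2 * M n)).filter fun β => ¬ dot n β w ≠ 0).card := by
  obtain ⟨i, hi⟩ : ∃ i, w i ≠ 0 := by
    by_contra h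
    push Not at h
    exact hw (funext h)
  rw [zmod_ne_zero] at hi
  refine Finset.card_bij' (fun β _ => β ^^^ 2 ^ (i : ℕ)) (fun β _ => β ^^^ 2 ^ (i : ℕ)) ?_ ?_ ?_ ?_
  · intro β hβ
    rw [Finset.mem_filter, mem_Ico] at hβ ⊢
    rw [xor_div n i β i.2, dot_xor n w i hi]
    refine ⟨hβ.1, ?_⟩
    have := (zmod_ne_zero _).1 hβ.2
    rw [this]
    decide
  · intro β hβ
    rw [Finset.mem_filter, mem_Ico] at hβ ⊢
    rw [xor_div n i β i.2, dot_xor n w i hi]
    refine ⟨hβ.1, ?_⟩
    have := not_not.1 hβ.2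
    rw [this]
    decide
  · intro β _
    exact Nat.xor_xor_cancel_right _ _
  · intro β _
    exact Nat.xor_xor_cancel_right _ _

end Bal

theorem specBal : SpecBal := by
  intro n w hw
  have h1 := Bal.card_eq n w hw
  have h2 := Finset.card_filter_add_card_filter_not (s := Finset.Ico (M n) (2 * M n))
    (fun β => dot n β w ≠ 0)
  rw [Nat.card_Ico] at h2
  omega

end MP195885
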