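import Pool.Agent.Lib.MP_195885_an.Spec

/-!
# Basic lemmas on clocks and flows used by the modules Chain and Minus
-/

open MeasureTheory Filter Topology Set

namespace MP195885
namespace ChainM

theorem cpos_lt (r : ℕ → ℕ) (n p : ℕ) : cpos r n p < h n := Nat.mod_lt _ (h_pos n)

theorem cpos_mod {r : ℕ → ℕ} (hr : IsClock r) (n p : ℕ) :
    cpos r (n + 1) p % h n = cpos r n p := by
  unfold cpos
  rw [Nat.mod_mod_of_dvd _ (h_dvd n), ← hr.mod n, Nat.mod_add_mod]

theorem cpos_succ {r : ℕ → ℕ} (hr : IsClock r) (n p : ℕ) :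
    cpos r (n + 1) p = cdig r n p * h n + cpos r n p := by
  rw [← cpos_mod hr n p]
  unfold cdig
  exact (Nat.div_add_mod' _ _).symm

theorem cdig_lt (r : ℕ → ℕ) (n p : ℕ) : cdig r n p < q n := by
  unfold cdig
  rw [Nat.div_lt_iff_lt_mul (h_pos n), mul_comm, ← h_succ]
  exact cpos_lt r (n + 1) p

theorem cpos_add {r : ℕ → ℕ} {n p i : ℕ} (hi : cpos r n p + i < h n) :
    cpos r n (p + i) = cpos r n p + i := by
  unfold cpos at *
  rw [← add_assoc, ← Nat.mod_add_mod, Nat.mod_eq_of_lt hi]

theorem flow_add {r : ℕ → ℕ} {g : ℕ → ℕ → K} (hg : IsFlow r g) {n p : ℕ} :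
    ∀ i : ℕ, cpos r n p + i < h n → g (p + i) n = g p n
  | 0, _ => rfl
  | i + 1, hi => by
    have h1 := cpos_add (r := r) (n := n) (p := p) (i := i) (by omega)
    have h2 := hg.step (p + i) n (by rw [h1]; omega)
    rw [← add_assoc, h2]
    exact flow_add hg i (by omega)

theorem con_zero (n a : ℕ) : con n a 0 = 0 := by
  unfold con
  split_ifs with h1 h2
  · unfold single
    have : tr n (κ n) 0 = 0 := by
      funext i; unfold tr; split_ifs <;> rfl
    rw [this]; simp
  · simp [dot]
  · rfl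

theorem cut_zero (n : ℕ) : cut n 0 = 0 := by
  unfold cut
  ext k
  · rfl
  · simp

theorem f_zero (n a : ℕ) : f n a 0 = 0 := by
  unfold f
  have : (0 : K).2 n = 0 := rfl
  rw [this, con_zero, cut_zero, add_zero]

theorem down_zero {r : ℕ → ℕ} {g : ℕ → ℕ → K} (hg : IsFlow r g) {n p : ℕ}
    (h0 : g p n = 0) : ∀ m, m ≤ n → g p m = 0 := by
  induction n with
  | zero => intro m hm; rw [Nat.le_zero.mp hm]; exact h0
  | succ n ih =>
    intro m hm
    rcases Nat.lt_or_ge m (n + 1) with h1 | h1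
    · apply ih _ m (by omega)
      rw [hg.down, h0, f_zero]
    · rw [le_antisymm hm h1]; exact h0

theorem con_even (n a : ℕ) (ha : a % 2 = 0) (w : Fin n → ZMod 2) : con n a w = 0 := by
  have h1 : ¬ Special n a := fun hs => by have := hs.2.1; omega
  have h2 : ¬ Hit n a := fun hs => by have := hs.1; omega
  unfold con
  rw [if_neg h1, if_neg h2]

/-- If a full block has digit `d` at level `n` starting at a time `p` with `cpos r (n+1) p = d h`. -/
theorem digit_of {r : ℕ → ℕ} (hr : IsClock r) {n p d i : ℕ} (hi : i < h n)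
    (hp : cpos r (n + 1) p = d * h n + i) : cdig r n p = d ∧ cpos r n p = i := by
  have h2 := cpos_mod hr n p
  constructor
  · unfold cdig
    rw [hp, mul_comm, Nat.mul_add_div (h_pos n), Nat.div_eq_of_lt hi, add_zero]
  · rw [← h2, hp, mul_comm, Nat.mul_add_mod, Nat.mod_eq_of_lt hi]

theorem h_le_succ (n : ℕ) : h n ≤ h (n + 1) := by
  rw [h_succ]; exact Nat.le_mul_of_pos_right _ (q_pos n)

theorem L_pos (n : ℕ) : 1 ≤ L n := by unfold L; omega

theorem M_pos (n : ℕ) : 1 ≤ M n := by
  unfold M; exact Nat.mul_pos (by positivity) (L_pos n)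

theorem h_lt_succ (n : ℕ) : 5 * h n ≤ h (n + 1) := by
  rw [h_succ, mul_comm]
  apply Nat.mul_le_mul_left
  unfold q
  have := M_pos n
  omega

theorem lt_h (n : ℕ) : n < h n := by
  induction n with
  | zero => rw [h_zero]; norm_num
  | succ n ih =>
    have := h_lt_succ n
    omega

theorem h_mono : Monotone h := monotone_nat_of_le_succ h_le_succ

end ChainM
end MP195885
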