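import Pool.Agent.Lib.MP_195885_an.Minus

/-!
# Module Chain
-/

open MeasureTheory Filter Topology Set

namespace MP195885

namespace ChainM

theorem cut_single (n : ℕ) (w : Fin n → ZMod 2) : cut n (single n w) = 0 := by
  unfold cut single
  ext k i
  · rfl
  · show (if k < n then (Pi.single n w : (k : ℕ) → Fin k → ZMod 2) k else 0) i = 0
    split_ifs with hk
    · rw [Pi.single_eq_of_ne (by omega)]; rfl
    · rfl

theorem single_self (n : ℕ) (w : Fin n → ZMod 2) : (single n w).2 n = w := by
  unfold single
  simp

theorem single_ne_zero (n : ℕ) (w : Fin n → ZMod 2) (hw : w ≠ 0) : single n w ≠ 0 := by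
  intro h0
  apply hw
  rw [← single_self n w, h0]; rfl

theorem f_single (n a : ℕ) (w : Fin n → ZMod 2) : f n a (single n w) = con n a w := by
  unfold f
  rw [cut_single, single_self, zero_add]

theorem con_plain (n a : ℕ) (w : Fin n → ZMod 2) (h1 : ¬ Special n a) (h2 : ¬ Hit n a) :
    con n a w = 0 := by
  unfold con
  rw [if_neg h1, if_neg h2]

theorem con_hit (n a : ℕ) (w : Fin n → ZMod 2) (h2 : Hit n a) :
    con n a w = (dot n (a / 2) w, 0) := by
  have h1 : ¬ Special n a := by
    intro hs
    have h3 := hs.2.2
    have h4 := h2.2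
    have h5 : 2 ^ n ≤ M n := by
      unfold M; exact Nat.le_mul_of_pos_right _ (L_pos n)
    omega
  unfold con
  rw [if_neg h1, if_pos h2]

theorem L_large (C : ℕ) : ∀ n, C * C ≤ n → C + 1 ≤ L n := by
  intro n hn
  unfold L
  have := Nat.le_sqrt.mpr hn
  omega

end ChainM

open ChainM MinusM

open Classical in
theorem specChain (hBal : SpecBal) (hLB : SpecLB) : SpecChain := by
  intro r hr ℓ hℓ hκ hsp b hb g hg hg0
  have hcont : ∀ i, g 0 (ℓ i + 1) = single (ℓ i) (fun j => b j) := fun i =>
    hg0 i (ℓ i + 1) (Nat.lt_succ_self _) (hℓ (Nat.lt_succ_self i))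
  have hle : ∀ i, i ≤ ℓ i := hℓ.id_le
  -- position of the origin inside its block
  have hpos0 : ∀ i, cpos r (ℓ (i + 1) + 1) 0 < 2 ^ (ℓ (i + 1) + 1) * h (ℓ (i + 1)) := by
    intro i
    have h1 := hsp i
    set l := ℓ (i + 1)
    rw [cpos_succ hr l 0]
    have h2 := cpos_lt r l 0
    have h3 := h1.2.1
    have h4 := h1.2.2
    have h5 : cdig r l 0 + 1 ≤ 2 ^ (l + 1) := by rw [pow_succ]; omega
    have h6 : (cdig r l 0 + 1) * h l ≤ 2 ^ (l + 1) * h l := Nat.mul_le_mul_right _ h5
    have h7 : (cdig r l 0 + 1) * h l = cdig r l 0 * h l + h l := by ring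
    omega
  constructor
  · intro J ε hε
    rw [Filter.frequently_atTop]
    intro a
    obtain ⟨C, hC⟩ := exists_nat_gt (1 / ε)
    -- choose i large
    obtain ⟨i, hi⟩ : ∃ i, J ≤ ℓ (i + 1) ∧ a ≤ ℓ (i + 1) ∧ (C + 1) * (C + 1) ≤ ℓ (i + 1) := by
      refine ⟨J + a + (C + 1) * (C + 1), ?_, ?_, ?_⟩ <;>
      · have := hle (J + a + (C + 1) * (C + 1) + 1)
        omega
    obtain ⟨hJ, ha, hC2⟩ := hi
    have hp0 := hpos0 i
    have hcon := hcont (i + 1)
    set l := ℓ (i + 1) with hl
    set c0 := cpos r (l + 1) 0 with hc0
    have hL := L_large (C + 1) l hC2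
    have hh := h_pos l
    set N := 2 * M l * h l - c0 with hN
    have hML : 2 * M l = 2 ^ (l + 1) * L l := by unfold M; rw [pow_succ]; ring
    have hNbig : 2 ^ (l + 1) * (C + 1) * h l + c0 ≤ 2 * M l * h l := by
      rw [hML]
      have e1 : 2 ^ (l + 1) * (C + 2) ≤ 2 ^ (l + 1) * L l := Nat.mul_le_mul_left _ (by omega)
      have e2 : 2 ^ (l + 1) * (C + 2) * h l ≤ 2 ^ (l + 1) * L l * h l := Nat.mul_le_mul_right _ e1
      have e3 : 2 ^ (l + 1) * (C + 2) * h l = 2 ^ (l + 1) * (C + 1) * h l + 2 ^ (l + 1) * h l := by
        ring
      omega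
    have hNlow : 2 ^ (l + 1) * (C + 1) * h l ≤ N := by omega
    have hlt : 2 * M l * h l < h (l + 1) := by
      rw [h_succ, mul_comm (h l)]
      apply Nat.mul_lt_mul_of_pos_right _ hh
      unfold q
      have := M_pos l
      omega
    refine ⟨N, ?_, ?_⟩
    · have e1 : l < h l := lt_h l
      have e2 : 1 * h l ≤ 2 ^ (l + 1) * (C + 1) * h l :=
        Nat.mul_le_mul_right _ (Nat.mul_pos (by positivity) (by omega))
      have : a ≤ N := by omega
      exact this
    · have hnz : nz g J N ≤ 2 ^ (l + 1) * h l := by
        unfold nz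
        calc _ ≤ (Finset.range (2 ^ (l + 1) * h l)).card := by
              apply Finset.card_le_card
              intro p hp
              rw [Finset.mem_filter, Finset.mem_range] at hp
              rw [Finset.mem_range]
              by_contra hcon2
              push Not at hcon2
              apply hp.2
              -- digit of time p
              have e1 : c0 + p < 2 * M l * h l := by omega
              have e2 := cpos_add (r := r) (n := l + 1) (p := 0) (i := p) (by omega)
              have e3 := flow_add hg (n := l + 1) (p := 0) p (by omega)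
              rw [zero_add] at e2 e3
              have e4 := cpos_succ hr l p
              have e5 := cpos_lt r l p
              have e6 : 2 ^ (l + 1) ≤ cdig r l p := by
                unfold cdig
                rw [Nat.le_div_iff_mul_le hh, e2]
                omega
              have e7 : cdig r l p < 2 * M l := by
                unfold cdig
                rw [Nat.div_lt_iff_lt_mul hh, e2]
                omega
              have e8 : ¬ Special l (cdig r l p) := by
                intro hs
                have := hs.2.2
                rw [pow_succ] at e6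
                omega
              have e9 : ¬ Hit l (cdig r l p) := by
                intro hs
                have := hs.2
                omega
              have e10 : g p l = 0 := by
                rw [hg.down p l, e3]
                have : g 0 (l + 1) = single l (fun j => b j) := by
                  rw [hl]; exact hcont (i + 1)
                rw [this, f_single, con_plain _ _ _ e8 e9]
              exact down_zero hg e10 J hJ
          _ = _ := Finset.card_range _
      have hC3 : 1 < ε * C := by
        rw [div_lt_iff₀ hε] at hC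
        linarith
      have hN2 : ((2 ^ (l + 1) * h l : ℕ) : ℝ) * (C + 1) ≤ N := by
        have : 2 ^ (l + 1) * h l * (C + 1) ≤ N := by
          calc _ = 2 ^ (l + 1) * (C + 1) * h l := by ring
            _ ≤ N := hNlow
        exact_mod_cast this
      have hn3 : (nz g J N : ℝ) ≤ ((2 ^ (l + 1) * h l : ℕ) : ℝ) := by exact_mod_cast hnz
      have hx : (0 : ℝ) ≤ ((2 ^ (l + 1) * h l : ℕ) : ℝ) := by positivity
      calc (nz g J N : ℝ) ≤ ((2 ^ (l + 1) * h l : ℕ) : ℝ) := hn3
        _ ≤ ε * (((2 ^ (l + 1) * h l : ℕ) : ℝ) * (C + 1)) := by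
            have : 1 ≤ ε * (C + 1) := by linarith
            calc ((2 ^ (l + 1) * h l : ℕ) : ℝ) = ((2 ^ (l + 1) * h l : ℕ) : ℝ) * 1 := by ring
              _ ≤ ((2 ^ (l + 1) * h l : ℕ) : ℝ) * (ε * (C + 1)) :=
                  mul_le_mul_of_nonneg_left this hx
              _ = _ := by ring
        _ ≤ ε * N := mul_le_mul_of_nonneg_left hN2 hε.le
  · rw [Filter.frequently_atTop]
    intro a
    obtain ⟨j0, hj0⟩ : ∃ j, b j ≠ 0 := by
      by_contra hcon
      push Not at hcon
      exact hb (funext hcon)
    obtain ⟨i, hi1, hi2⟩ : ∃ i, j0 < ℓ (i + 1) ∧ a + 4 ≤ ℓ (i + 1) := by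
      refine ⟨j0 + a + 4, ?_, ?_⟩ <;>
      · have := hle (j0 + a + 4 + 1)
        omega
    have hp0 := hpos0 i
    have hcon := hcont (i + 1)
    set l := ℓ (i + 1) with hl
    set c0 := cpos r (l + 1) 0 with hc0
    have hh := h_pos l
    have hM := M_pos l
    have hw : (fun j : Fin l => b j) ≠ 0 := by
      intro h0
      exact hj0 (congrFun h0 ⟨j0, hi1⟩)
    have hbal := hBal l (fun j : Fin l => b j) hw
    set S := (Finset.Ico (M l) (2 * M l)).filter fun β => dot l β (fun j : Fin l => b j) ≠ 0
      with hS
    have h2M : 2 ^ (l + 1) ≤ 2 * M l := by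
      unfold M
      have := L_pos l
      have h3 : 2 ^ l * 1 ≤ 2 ^ l * L l := Nat.mul_le_mul_left _ this
      rw [pow_succ]; omega
    have hc1 : c0 < 2 * M l * h l := lt_of_lt_of_le hp0 (Nat.mul_le_mul_right _ h2M)
    have hlen : h (l + 1) = 4 * M l * h l + h l := by
      rw [h_succ]; unfold q; ring
    set N := h (l + 1) - c0 with hN
    -- the blocks
    have key : (S.image fun β => 2 * β + 1).card * h l ≤
        12 * nz (fun p n => if p < c0 then 0 else g (p - c0) n) 0 (h (l + 1)) := by
      apply blocks_le (P := 0) hh
      · intro x hx i' hi'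
        rw [Finset.mem_image] at hx
        obtain ⟨β, hβ, rfl⟩ := hx
        rw [hS, Finset.mem_filter, Finset.mem_Ico] at hβ
        rw [hlen]
        have : (2 * β + 1) * h l + h l ≤ 4 * M l * h l := by
          have : (2 * β + 2) * h l ≤ 4 * M l * h l := Nat.mul_le_mul_right _ (by omega)
          calc _ = (2 * β + 2) * h l := by ring
            _ ≤ _ := this
        omega
      · intro x hx
        rw [Finset.mem_image] at hx
        obtain ⟨β, hβ, rfl⟩ := hx
        rw [hS, Finset.mem_filter, Finset.mem_Ico] at hβ
        have e0 : 2 * M l * h l ≤ (2 * β + 1) * h l := Nat.mul_le_mul_right _ (by omega)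
        have e1 : (2 * β + 1) * h l < h (l + 1) := by
          rw [hlen]
          have : (2 * β + 1) * h l ≤ 4 * M l * h l := Nat.mul_le_mul_right _ (by omega)
          omega
        set p := (2 * β + 1) * h l - c0 with hp
        have e2 := cpos_add (r := r) (n := l + 1) (p := 0) (i := p) (by omega)
        have e3 := flow_add hg (n := l + 1) (p := 0) p (by omega)
        rw [zero_add] at e2 e3
        have e4 : cpos r (l + 1) p = (2 * β + 1) * h l := by omega
        obtain ⟨e5, e6⟩ := digit_of hr (n := l) (p := p) (d := 2 * β + 1) (i := 0) hh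
          (by rw [e4]; ring)
        have e7 : (2 * β + 1) / 2 = β := by omega
        have e8 : Hit l (2 * β + 1) := ⟨by omega, by rw [e7]; exact hβ.1.1⟩
        have e9 : g p l = (dot l β (fun j : Fin l => b j), 0) := by
          rw [hg.down p l, e3, e5]
          have : g 0 (l + 1) = single l (fun j => b j) := by
            rw [hl]; exact hcont (i + 1)
          rw [this, f_single, con_hit _ _ _ e8, e7]
        have e10 : g p l ≠ 0 := by
          rw [e9]
          intro h0
          exact hβ.2 (congrArg Prod.fst h0)
        have e11 := hLB r g hr hg l p e6 e10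
        refine le_trans e11 (Nat.mul_le_mul_left _ (Finset.card_le_card ?_))
        intro x hx
        rw [Finset.mem_filter] at hx ⊢
        refine ⟨hx.1, ?_⟩
        have e12 : (2 * β + 1) * h l + 0 + x - c0 = p + x := by omega
        have e13 : ¬ ((2 * β + 1) * h l + 0 + x < c0) := by omega
        rw [if_neg e13, e12]
        exact hx.2
    have hcardS : (S.image fun β => 2 * β + 1).card = S.card :=
      Finset.card_image_of_injective _ (fun x y hxy => by
        have : 2 * x + 1 = 2 * y + 1 := hxy
        omega)
    -- shifting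
    have hshift : nz (fun p n => if p < c0 then 0 else g (p - c0) n) 0 (h (l + 1)) ≤
        nz g 0 N := by
      unfold nz
      have hsub : ((Finset.range (h (l + 1))).filter fun p =>
          (if p < c0 then (0 : K) else g (p - c0) 0) ≠ 0) ⊆
          ((Finset.range N).filter fun p => g p 0 ≠ 0).image (· + c0) := by
        intro x hx
        rw [Finset.mem_filter, Finset.mem_range] at hx
        rw [Finset.mem_image]
        have hxc : ¬ x < c0 := by
          intro hxc
          exact hx.2 (if_pos hxc)
        rw [if_neg hxc] at hx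
        refine ⟨x - c0, ?_, by omega⟩
        rw [Finset.mem_filter, Finset.mem_range]
        exact ⟨by omega, hx.2⟩
      exact le_trans (Finset.card_le_card hsub) Finset.card_image_le
    rw [hcardS] at key
    have h1 : M l * h l ≤ 24 * nz g 0 N := by
      have e1 : S.card * h l ≤ 12 * nz g 0 N := le_trans key (Nat.mul_le_mul_left _ hshift)
      calc M l * h l = 2 * S.card * h l := by rw [hbal]
        _ = 2 * (S.card * h l) := by ring
        _ ≤ 2 * (12 * nz g 0 N) := Nat.mul_le_mul_left _ e1
        _ = _ := by ring
    refine ⟨N, ?_, ?_⟩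
    · have e1 : l < h l := lt_h l
      have e2 : 2 * M l * h l ≤ 4 * M l * h l := Nat.mul_le_mul_right _ (by omega)
      have : a ≤ N := by omega
      exact this
    · have e2 : h l ≤ 2 * (M l * h l) := by nlinarith
      have e3 : 4 * M l * h l = 4 * (M l * h l) := by ring
      omega

end MP195885
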