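import Pool.Agent.Lib.MP_195885_an.Spec

/-!
# MODULE Count
-/

open MeasureTheory Filter Topology Set

namespace MP195885

namespace CountM

theorem h_dvd_of_le {a b : ℕ} (hab : a ≤ b) : h a ∣ h b := by
  induction b, hab using Nat.le_induction with
  | base => exact dvd_rfl
  | succ m _ ih => exact ih.trans (h_dvd m)

theorem dg_mod {j n x : ℕ} (hj : j < n) : dg j (x % h n) = dg j x := by
  unfold dg
  rw [Nat.mod_mod_of_dvd _ (h_dvd_of_le (Nat.succ_le_of_lt hj))]

theorem dg_top {n x : ℕ} (hx : x < h (n + 1)) : dg n x = x / h n := by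
  unfold dg
  rw [Nat.mod_eq_of_lt hx]

theorem div_lt {n x : ℕ} (hx : x < h (n + 1)) : x / h n < q n := by
  rw [h_succ] at hx
  exact Nat.div_lt_of_lt_mul hx


/-- Number of elements of `s` with the property `P`. -/
noncomputable def cnt {α : Type} (s : Finset α) (P : α → Prop) : ℕ :=
  (@Finset.filter α P (Classical.decPred P) s).card

theorem cnt_eq {α : Type} (s : Finset α) (P : α → Prop) [DecidablePred P] :
    (s.filter P).card = cnt s P := by
  unfold cnt; congr

theorem cnt_congr {α : Type} {s : Finset α} {P Q : α → Prop} (H : ∀ x ∈ s, P x ↔ Q x) :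
    cnt s P = cnt s Q := by
  classical
  rw [← cnt_eq, ← cnt_eq, Finset.filter_congr H]

theorem cnt_mono {α : Type} {s : Finset α} {P Q : α → Prop} (H : ∀ x ∈ s, P x → Q x) :
    cnt s P ≤ cnt s Q := by
  classical
  rw [← cnt_eq, ← cnt_eq]
  refine Finset.card_le_card fun x hx => ?_
  rw [Finset.mem_filter] at hx ⊢
  exact ⟨hx.1, H x hx.1 hx.2⟩

theorem cnt_le {α : Type} (s : Finset α) (P : α → Prop) : cnt s P ≤ s.card := by
  classical
  rw [← cnt_eq]
  exact Finset.card_filter_le _ _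

theorem cnt_inj {α β : Type} {s : Finset α} {t : Finset β} {P : α → Prop} {Q : β → Prop}
    (g : α → β) (h1 : ∀ x ∈ s, P x → g x ∈ t ∧ Q (g x)) (h2 : Function.Injective g) :
    cnt s P ≤ cnt t Q := by
  classical
  rw [← cnt_eq, ← cnt_eq]
  refine Finset.card_le_card_of_injOn g ?_ h2.injOn
  intro x hx
  rw [Finset.mem_coe, Finset.mem_filter] at hx ⊢
  exact h1 x hx.1 hx.2

theorem cnt_prod {α β : Type} (s : Finset α) (t : Finset β) (P : α → Prop) (Q : β → Prop) :
    cnt (s ×ˢ t) (fun y => P y.1 ∧ Q y.2) = cnt s P * cnt t Q := by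
  classical
  rw [← cnt_eq, ← cnt_eq, ← cnt_eq, Finset.filter_product, Finset.card_product]

theorem cnt_add_not {α : Type} (s : Finset α) (P : α → Prop) :
    cnt s P + cnt s (fun x => ¬ P x) = s.card := by
  classical
  rw [← cnt_eq, ← cnt_eq, Finset.card_filter_add_card_filter_not]

theorem key (F : ℕ → ℕ → ℕ → Prop) (x : ℕ → ℝ)
    (hx : ∀ j, (cnt ((Finset.range (q j)) ×ˢ (Finset.range (q j)))
      (fun y => F j y.1 y.2) : ℝ) ≤ (q j : ℝ) ^ 2 * Real.exp (-(x j))) (n : ℕ) :
    (cnt ((Finset.range (h n)) ×ˢ (Finset.range (h n))) (fun y =>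
      ∀ j, j < n → F j (dg j y.1) (dg j y.2)) : ℝ) ≤
      (h n : ℝ) ^ 2 * Real.exp (-(∑ j ∈ Finset.range n, x j)) := by
  induction n with
  | zero =>
    have h1 : cnt ((Finset.range (h 0)) ×ˢ (Finset.range (h 0))) (fun y : ℕ × ℕ =>
      ∀ j, j < 0 → F j (dg j y.1) (dg j y.2)) ≤ 1 := by
      refine (cnt_le _ _).trans ?_
      simp [h_zero]
    have h2 : (cnt ((Finset.range (h 0)) ×ˢ (Finset.range (h 0))) (fun y : ℕ × ℕ =>
      ∀ j, j < 0 → F j (dg j y.1) (dg j y.2)) : ℝ) ≤ 1 := by exact_mod_cast h1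
    refine h2.trans ?_
    simp [h_zero]
  | succ n ih =>
    have hc : cnt ((Finset.range (h (n + 1))) ×ˢ (Finset.range (h (n + 1)))) (fun y : ℕ × ℕ =>
        ∀ j, j < n + 1 → F j (dg j y.1) (dg j y.2)) ≤
        cnt (((Finset.range (h n)) ×ˢ (Finset.range (h n))) ×ˢ
          ((Finset.range (q n)) ×ˢ (Finset.range (q n))))
          (fun z => (∀ j, j < n → F j (dg j z.1.1) (dg j z.1.2)) ∧ F n z.2.1 z.2.2) := by
      refine cnt_inj
        (fun y => ((y.1 % h n, y.2 % h n), (y.1 / h n, y.2 / h n))) ?_ ?_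
      · intro y hy h3
        simp only [Finset.mem_product, Finset.mem_range] at hy ⊢
        obtain ⟨h1, h2⟩ := hy
        refine ⟨⟨⟨Nat.mod_lt _ (h_pos n), Nat.mod_lt _ (h_pos n)⟩,
          ⟨div_lt h1, div_lt h2⟩⟩, ?_, ?_⟩
        · intro j hj
          rw [dg_mod hj, dg_mod hj]
          exact h3 j (by omega)
        · have := h3 n (by omega)
          rwa [dg_top h1, dg_top h2] at this
      · intro y z hyz
        simp only [Prod.mk.injEq] at hyz
        obtain ⟨⟨h1, h2⟩, h3, h4⟩ := hyz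
        ext
        · rw [← Nat.mod_add_div y.1 (h n), ← Nat.mod_add_div z.1 (h n), h1, h3]
        · rw [← Nat.mod_add_div y.2 (h n), ← Nat.mod_add_div z.2 (h n), h2, h4]
    have hp := cnt_prod ((Finset.range (h n)) ×ˢ (Finset.range (h n)))
      ((Finset.range (q n)) ×ˢ (Finset.range (q n)))
      (fun y => ∀ j, j < n → F j (dg j y.1) (dg j y.2)) (fun y => F n y.1 y.2)
    rw [hp] at hc
    have hc' : (cnt ((Finset.range (h (n + 1))) ×ˢ (Finset.range (h (n + 1))))
        (fun y : ℕ × ℕ => ∀ j, j < n + 1 → F j (dg j y.1) (dg j y.2)) : ℝ) ≤ _ :=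
      Nat.cast_le.mpr hc
    refine hc'.trans ?_
    rw [Nat.cast_mul, h_succ, Finset.sum_range_succ, Nat.cast_mul]
    calc _ ≤ ((h n : ℝ) ^ 2 * Real.exp (-(∑ j ∈ Finset.range n, x j))) *
          ((q n : ℝ) ^ 2 * Real.exp (-(x n))) :=
          mul_le_mul ih (hx n) (by positivity) (by positivity)
      _ = _ := by
        rw [neg_add, Real.exp_add]; ring

theorem L_pos (n : ℕ) : 0 < L n := by unfold L; omega

theorem two_pow_le_M (n : ℕ) : 2 ^ n ≤ M n := by
  unfold M; exact Nat.le_mul_of_pos_right _ (L_pos n)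

theorem M_pos (n : ℕ) : 0 < M n := lt_of_lt_of_le (by positivity) (two_pow_le_M n)

/-- Removing a product set of a definite proportion. -/
theorem rem (n : ℕ) (P Q : ℕ → Prop) (c : ℝ)
    (hP : c * 2 * (q n : ℝ) ≤ (cnt (Finset.range (q n)) P : ℝ))
    (hQ : (q n : ℝ) ≤ 2 * (cnt (Finset.range (q n)) Q : ℝ)) :
    (cnt ((Finset.range (q n)) ×ˢ (Finset.range (q n)))
      (fun y => ¬ (P y.1 ∧ Q y.2)) : ℝ) ≤ (q n : ℝ) ^ 2 * Real.exp (-c) := by
  have h1 := cnt_add_not ((Finset.range (q n)) ×ˢ (Finset.range (q n)))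
      (fun y : ℕ × ℕ => (P y.1 ∧ Q y.2))
  rw [cnt_prod, Finset.card_product, Finset.card_range] at h1
  have h3 : ((cnt (Finset.range (q n)) P : ℝ) * (cnt (Finset.range (q n)) Q : ℝ)) +
      (cnt ((Finset.range (q n)) ×ˢ (Finset.range (q n)))
      (fun y : ℕ × ℕ => ¬ (P y.1 ∧ Q y.2)) : ℝ) = (q n : ℝ) * q n := by
    exact_mod_cast h1
  have h4 : c * (q n : ℝ) ^ 2 ≤ (cnt (Finset.range (q n)) P : ℝ) *
      (cnt (Finset.range (q n)) Q : ℝ) := by
    have h0 : (0 : ℝ) ≤ q n := by positivity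
    calc c * (q n : ℝ) ^ 2 = (c * 2 * q n) * (q n / 2) := by ring
      _ ≤ _ := mul_le_mul hP (by linarith) (by positivity) (by positivity)
  have h5 : 1 - c ≤ Real.exp (-c) := by
    have := Real.add_one_le_exp (-c); linarith
  have h6 : (q n : ℝ) ^ 2 * (1 - c) ≤ (q n : ℝ) ^ 2 * Real.exp (-c) :=
    mul_le_mul_of_nonneg_left h5 (by positivity)
  nlinarith [h3, h4, h6]

theorem triv (n : ℕ) (P : ℕ × ℕ → Prop) :
    (cnt ((Finset.range (q n)) ×ˢ (Finset.range (q n))) P : ℝ) ≤
      (q n : ℝ) ^ 2 * Real.exp (-0) := by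
  have : cnt ((Finset.range (q n)) ×ˢ (Finset.range (q n))) P ≤ q n * q n := by
    refine (cnt_le _ _).trans ?_
    simp
  rw [neg_zero, Real.exp_zero, mul_one, sq]
  exact_mod_cast this

theorem cnt_true {α : Type} (s : Finset α) : cnt s (fun _ => True) = s.card := by
  classical
  rw [← cnt_eq, Finset.filter_true]

theorem even_card (n : ℕ) :
    (q n : ℝ) ≤ 2 * (cnt (Finset.range (q n)) (fun b => b % 2 = 0) : ℝ) := by
  have h1 : cnt (Finset.range (2 * M n + 1)) (fun _ => True) ≤
      cnt (Finset.range (q n)) (fun b => b % 2 = 0) := by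
    refine cnt_inj (fun i => 2 * i) ?_ ?_
    · intro i hi _
      rw [Finset.mem_range] at hi ⊢
      unfold q
      omega
    · intro i j hij
      simp only at hij
      omega
  rw [cnt_true, Finset.card_range] at h1
  have h2 : q n ≤ 2 * cnt (Finset.range (q n)) (fun b => b % 2 = 0) := by
    have : q n = 4 * M n + 1 := rfl
    omega
  exact_mod_cast h2

theorem special_card (n : ℕ) (hn : 1 ≤ n) :
    2 ^ n ≤ cnt (Finset.range (q n)) (fun a => Special n a) := by
  have h1 : cnt (Finset.range (2 ^ n)) (fun _ => True) ≤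
      cnt (Finset.range (q n)) (fun a => Special n a) := by
    refine cnt_inj (fun i => 2 * i + 1) ?_ ?_
    · intro i hi _
      rw [Finset.mem_range] at hi ⊢
      have := two_pow_le_M n
      unfold q Special
      refine ⟨by omega, hn, by omega, by omega⟩
    · intro i j hij
      simp only at hij
      omega
  rwa [cnt_true, Finset.card_range] at h1

theorem special_frac (n : ℕ) (hn : 1 ≤ n) :
    1 / (10 * (L n : ℝ)) * 2 * (q n : ℝ) ≤
      (cnt (Finset.range (q n)) (fun a => Special n a) : ℝ) := by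
  have h1 : ((2 ^ n : ℕ) : ℝ) ≤
      (cnt (Finset.range (q n)) (fun a => Special n a) : ℝ) :=
    Nat.cast_le.mpr (special_card n hn)
  refine le_trans ?_ h1
  have hL : (0 : ℝ) < L n := by exact_mod_cast L_pos n
  have hq : q n ≤ 5 * (2 ^ n * L n) := by
    have := M_pos n
    have e : M n = 2 ^ n * L n := rfl
    rw [← e]; unfold q; omega
  have hq' : (q n : ℝ) ≤ 5 * (((2 ^ n : ℕ) : ℝ) * L n) := by exact_mod_cast hq
  rw [div_mul_eq_mul_div, div_mul_eq_mul_div, div_le_iff₀ (by positivity)]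
  nlinarith

theorem hit_frac (n : ℕ) (hn : 1 ≤ n) :
    (1 / 20 : ℝ) * 2 * (q n : ℝ) ≤
      (cnt (Finset.range (q n)) (fun a =>
        (Hit n a ∧ ∃ w, dot n (a / 2) w ≠ 0)) : ℝ) := by
  have hev : 2 ∣ M n := by
    unfold M
    exact (dvd_pow_self 2 (by omega)).mul_right _
  obtain ⟨t, ht⟩ := hev
  have h1 : cnt (Finset.range t) (fun _ => True) ≤ cnt (Finset.range (q n)) (fun a =>
        (Hit n a ∧ ∃ w, dot n (a / 2) w ≠ 0)) := by
    refine cnt_inj (fun i => 2 * (M n + 2 * i + 1) + 1) ?_ ?_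
    · intro i hi _
      rw [Finset.mem_range] at hi ⊢
      have hd : (2 * (M n + 2 * i + 1) + 1) / 2 = M n + 2 * i + 1 := by omega
      refine ⟨by unfold q; omega, ⟨by omega, by omega⟩, ?_⟩
      refine ⟨Pi.single ⟨0, by omega⟩ 1, ?_⟩
      rw [hd]
      unfold dot
      rw [Finset.sum_eq_single (⟨0, by omega⟩ : Fin n)]
      · have hb : (M n + 2 * i + 1).testBit 0 = true := by
          rw [Nat.testBit_zero]
          simp only [decide_eq_true_eq]
          omega
        simp only [hb, if_true, Pi.single_eq_same]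
        exact one_ne_zero
      · intro b _ hb
        rw [Pi.single_eq_of_ne hb]
        simp
      · intro hb
        exact absurd (Finset.mem_univ _) hb
    · intro i j hij
      simp only at hij
      omega
  rw [cnt_true, Finset.card_range] at h1
  have h2 : ((t : ℕ) : ℝ) ≤ (cnt (Finset.range (q n)) (fun a =>
        (Hit n a ∧ ∃ w, dot n (a / 2) w ≠ 0)) : ℝ) := Nat.cast_le.mpr h1
  refine le_trans ?_ h2
  have h3 : q n ≤ 10 * t := by
    have := M_pos n
    unfold q; omega
  have h4 : (q n : ℝ) ≤ 10 * t := by exact_mod_cast h3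
  linarith

theorem κ_pair (k b : ℕ) : κ (Nat.pair k b) = k := by
  unfold κ; rw [Nat.unpair_pair]

theorem pair_eq {k b : ℕ} (hb : k < b) : Nat.pair k b = b * b + k := by
  unfold Nat.pair; rw [if_pos hb]

theorem L_pair {k b : ℕ} (hb : k < b) : L (Nat.pair k b) = b + 1 := by
  rw [pair_eq hb]
  unfold L
  congr 1
  rw [Nat.sqrt_add_eq b (by omega)]

theorem div_sum (k N : ℕ) (C : ℝ) : ∃ n, N ≤ n ∧ C ≤
    ∑ j ∈ Finset.range n, (if (N ≤ j ∧ 1 ≤ j ∧ κ j = k) then 1 / (10 * (L j : ℝ)) else 0) := by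
  set b₀ := max k N + 1 with hb₀
  have ht := Real.tendsto_sum_range_one_div_nat_succ_atTop
  obtain ⟨B, hB⟩ := (ht.eventually (eventually_ge_atTop
    (10 * C + ∑ i ∈ Finset.range b₀, 1 / ((i : ℝ) + 1)))).and
    (eventually_ge_atTop b₀) |>.exists
  obtain ⟨hB1, hB2⟩ := hB
  refine ⟨Nat.pair k B, ?_, ?_⟩
  · have hNB : N ≤ B := by omega
    have hB1' : 1 ≤ B := by omega
    rw [pair_eq (by omega)]
    nlinarith
  · have hsub : (Finset.Ico b₀ B).image (Nat.pair k) ⊆ Finset.range (Nat.pair k B) := by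
      intro j hj
      rw [Finset.mem_image] at hj
      obtain ⟨b, hb, rfl⟩ := hj
      rw [Finset.mem_Ico] at hb
      rw [Finset.mem_range, pair_eq (by omega), pair_eq (by omega)]
      nlinarith [hb.1, hb.2]
    have h1 : ∑ j ∈ (Finset.Ico b₀ B).image (Nat.pair k),
        (if (N ≤ j ∧ 1 ≤ j ∧ κ j = k) then 1 / (10 * (L j : ℝ)) else 0) ≤
        ∑ j ∈ Finset.range (Nat.pair k B),
          (if (N ≤ j ∧ 1 ≤ j ∧ κ j = k) then 1 / (10 * (L j : ℝ)) else 0) := by
      refine Finset.sum_le_sum_of_subset_of_nonneg hsub ?_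
      intro j _ _
      split_ifs
      · positivity
      · exact le_rfl
    refine le_trans ?_ h1
    rw [Finset.sum_image]
    · have h2 : ∀ b ∈ Finset.Ico b₀ B,
          (if (N ≤ Nat.pair k b ∧ 1 ≤ Nat.pair k b ∧ κ (Nat.pair k b) = k)
            then 1 / (10 * (L (Nat.pair k b) : ℝ)) else 0) = (1 / 10) * (1 / ((b : ℝ) + 1)) := by
        intro b hb
        rw [Finset.mem_Ico] at hb
        have hkb : k < b := by omega
        rw [if_pos, L_pair hkb]
        · push_cast
          rw [one_div_mul_one_div]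
        · refine ⟨?_, ?_, κ_pair k b⟩
          · rw [pair_eq hkb]
            have : N ≤ b := by omega
            nlinarith
          · rw [pair_eq hkb]
            have : 1 ≤ b := by omega
            nlinarith
      rw [Finset.sum_congr rfl h2, ← Finset.mul_sum, Finset.sum_Ico_eq_sub _ hB2]
      linarith
    · intro a _ b _ hab
      have := congrArg (fun x => (Nat.unpair x).2) hab
      simpa using this

theorem exp_small {ε : ℝ} (hε : 0 < ε) {s : ℝ} (hs : -Real.log ε ≤ s) : Real.exp (-s) ≤ ε := by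
  calc Real.exp (-s) ≤ Real.exp (Real.log ε) := Real.exp_le_exp.mpr (by linarith)
    _ = ε := Real.exp_log hε

end CountM

open CountM

theorem specCount : SpecCount := by
  classical
  refine ⟨?_, ?_, ?_⟩
  · intro N k hk ε hε
    obtain ⟨n, hn, hC⟩ := div_sum k N (-Real.log ε)
    refine ⟨n, hn, ?_⟩
    have hN : 1 ≤ N := by omega
    have hk := key (fun j a b => N ≤ j → κ j = k → ¬ (Special j a ∧ b % 2 = 0))
      (fun j => if (N ≤ j ∧ 1 ≤ j ∧ κ j = k) then 1 / (10 * (L j : ℝ)) else 0) ?_ n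
    · rw [cnt_eq]
      have e : cnt ((Finset.range (h n)) ×ˢ (Finset.range (h n))) (fun x : ℕ × ℕ =>
          ∀ j, N ≤ j → j < n → κ j = k → ¬ (Special j (dg j x.1) ∧ dg j x.2 % 2 = 0)) =
          cnt ((Finset.range (h n)) ×ˢ (Finset.range (h n))) (fun y : ℕ × ℕ =>
          ∀ j, j < n → N ≤ j → κ j = k → ¬ (Special j (dg j y.1) ∧ dg j y.2 % 2 = 0)) :=
        cnt_congr fun x _ => ⟨fun H j a b => H j b a, fun H j a b => H j b a⟩
      rw [e]
      refine hk.trans ?_
      rw [mul_comm ε]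
      exact mul_le_mul_of_nonneg_left (exp_small hε hC) (by positivity)
    · intro j
      by_cases hj : N ≤ j ∧ 1 ≤ j ∧ κ j = k
      · rw [if_pos hj]
        have := rem j (fun a => Special j a) (fun b => b % 2 = 0) (1 / (10 * (L j : ℝ)))
          (special_frac j hj.2.1) (even_card j)
        refine le_trans (le_of_eq ?_) this
        congr 1
        exact cnt_congr fun x _ => ⟨fun H => H hj.1 hj.2.2, fun H _ _ => H⟩
      · rw [if_neg hj]
        exact triv j _
  · intro N ε hε
    set x : ℕ → ℝ := fun j => if (N + 1 ≤ j) then 1 / 20 else 0 with hx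
    have hsum : ∀ m, ∑ j ∈ Finset.range (N + 1 + m), x j = (1 / 20 : ℝ) * m := by
      intro m
      rw [Finset.sum_range_add]
      have h1 : ∑ j ∈ Finset.range (N + 1), x j = 0 := by
        refine Finset.sum_eq_zero fun j hj => ?_
        rw [Finset.mem_range] at hj
        simp only [hx]
        rw [if_neg (by omega)]
      have h2 : ∀ j ∈ Finset.range m, x (N + 1 + j) = 1 / 20 := by
        intro j _
        simp only [hx]
        rw [if_pos (by omega)]
      rw [h1, Finset.sum_congr rfl h2, Finset.sum_const, Finset.card_range, nsmul_eq_mul]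
      ring
    obtain ⟨m, hm⟩ := exists_nat_ge (20 * (-Real.log ε))
    refine ⟨N + 1 + m, by omega, ?_⟩
    have hk := key (fun j a b => N ≤ j →
      ¬ ((Hit j a ∧ ∃ w, dot j (a / 2) w ≠ 0) ∧ b % 2 = 0)) x ?_ (N + 1 + m)
    · rw [cnt_eq]
      have e : cnt ((Finset.range (h (N + 1 + m))) ×ˢ (Finset.range (h (N + 1 + m))))
          (fun x : ℕ × ℕ => ∀ j, N ≤ j → j < N + 1 + m →
          ¬ ((Hit j (dg j x.1) ∧ ∃ w, dot j (dg j x.1 / 2) w ≠ 0) ∧ dg j x.2 % 2 = 0)) =
          cnt ((Finset.range (h (N + 1 + m))) ×ˢ (Finset.range (h (N + 1 + m))))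
          (fun y : ℕ × ℕ => ∀ j, j < N + 1 + m → N ≤ j →
          ¬ ((Hit j (dg j y.1) ∧ ∃ w, dot j (dg j y.1 / 2) w ≠ 0) ∧ dg j y.2 % 2 = 0)) :=
        cnt_congr fun x _ => ⟨fun H j a b => H j b a, fun H j a b => H j b a⟩
      rw [e]
      refine hk.trans ?_
      rw [mul_comm ε]
      refine mul_le_mul_of_nonneg_left (exp_small hε ?_) (by positivity)
      rw [hsum m]
      linarith
    · intro j
      by_cases hj : N + 1 ≤ j
      · simp only [hx]
        rw [if_pos hj]
        have := rem j (fun a => (Hit j a ∧ ∃ w, dot j (a / 2) w ≠ 0)) (fun b => b % 2 = 0)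
          (1 / 20) (hit_frac j (by omega)) (even_card j)
        refine le_trans (le_of_eq ?_) this
        congr 1
        exact cnt_congr fun x _ => ⟨fun H => H (by omega), fun H _ => H⟩
      · simp only [hx]
        rw [if_neg hj]
        exact triv j _
  · intro k ε hε
    obtain ⟨n, hn, hC⟩ := div_sum k 0 (-Real.log ε)
    refine ⟨n, ?_⟩
    have hk := key (fun j a _ => 1 ≤ j → κ j = k → ¬ Special j a)
      (fun j => if (0 ≤ j ∧ 1 ≤ j ∧ κ j = k) then 1 / (10 * (L j : ℝ)) else 0) ?_ n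
    · rw [cnt_eq]
      have e : cnt ((Finset.range (h n)) ×ˢ (Finset.range (h n))) (fun y : ℕ × ℕ =>
          ∀ j, j < n → 1 ≤ j → κ j = k → ¬ Special j (dg j y.1)) =
          cnt (Finset.range (h n)) (fun x =>
            ∀ j, 1 ≤ j → j < n → κ j = k → ¬ Special j (dg j x)) * h n := by
        have e1 := cnt_prod (Finset.range (h n)) (Finset.range (h n)) (fun x =>
            ∀ j, 1 ≤ j → j < n → κ j = k → ¬ Special j (dg j x)) (fun _ => True)
        rw [cnt_true, Finset.card_range] at e1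
        rw [← e1]
        refine cnt_congr fun y _ => ?_
        exact ⟨fun H => ⟨fun j a b c => H j b a c, trivial⟩, fun H j a b c => H.1 j b a c⟩
      rw [e, Nat.cast_mul] at hk
      have hp : (0 : ℝ) < h n := by exact_mod_cast h_pos n
      have hk2 : (cnt (Finset.range (h n)) (fun x =>
            ∀ j, 1 ≤ j → j < n → κ j = k → ¬ Special j (dg j x)) : ℝ) * (h n : ℝ) ≤
            (ε * (h n : ℝ)) * (h n : ℝ) := by
        refine hk.trans ?_
        have := exp_small hε hC
        nlinarith [mul_le_mul_of_nonneg_left this (by positivity : (0 : ℝ) ≤ (h n : ℝ) ^ 2)]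
      exact le_of_mul_le_mul_right hk2 hp
    · intro j
      by_cases hj : 0 ≤ j ∧ 1 ≤ j ∧ κ j = k
      · rw [if_pos hj]
        have := rem j (fun a => Special j a) (fun b => b % 2 = 0) (1 / (10 * (L j : ℝ)))
          (special_frac j hj.2.1) (even_card j)
        refine le_trans ?_ this
        rw [Nat.cast_le]
        exact cnt_mono fun x _ hx H => hx hj.2.1 hj.2.2 H.1
      · rw [if_neg hj]
        exact triv j _

end MP195885
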