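import Pool.Agent.Lib.MP_195885_an.Spec

open MeasureTheory Filter Topology Set

namespace MP195885
namespace MPres

theorem con_zero_snd (n a : ℕ) (w : Fin n → ZMod 2) : (con n a w).2 n = 0 := by
  unfold con
  split_ifs with h1 h2
  · have hk : κ n < n := Nat.unpair_lt h1.1
    have hne : n ≠ κ n := fun hh => absurd hk (by omega)
    simp [single, Pi.single_eq_of_ne hne]
  · rfl
  · rfl

theorem con_add (n a : ℕ) (w w' : Fin n → ZMod 2) : con n a (w + w') = con n a w + con n a w' := by
  unfold con
  split_ifs with h1 h2
  · have ht : tr n (κ n) (w + w') = tr n (κ n) w + tr n (κ n) w' := by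
      funext i
      simp only [tr, Pi.add_apply]
      split_ifs <;> simp
    rw [ht]
    simp [single, Pi.single_add]
  · have : dot n (a / 2) (w + w') = dot n (a / 2) w + dot n (a / 2) w' := by
      unfold dot
      rw [← Finset.sum_add_distrib]
      refine Finset.sum_congr rfl fun i _ => ?_
      split_ifs <;> simp
    rw [this]
    ext <;> simp
  · simp

theorem K_add_self (v : K) : v + v = 0 := by
  ext
  · exact CharTwo.add_self_eq_zero _
  · simp only [Prod.snd_add, Pi.add_apply, Prod.snd_zero, Pi.zero_apply]
    exact CharTwo.add_self_eq_zero _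

/-- The fibre map with given parameters. -/
def G (m a : ℕ) (k : K) : K := k + con m a (k.2 m) + con m (a + 1) (k.2 m)

theorem G_cont (m a : ℕ) : Continuous (G m a) := by
  unfold G
  have h1 : Continuous (fun k : K => k.2 m) := (continuous_apply m).comp continuous_snd
  exact (continuous_id.add ((continuous_of_discreteTopology (f := con m a)).comp h1)).add
    ((continuous_of_discreteTopology (f := con m (a + 1))).comp h1)

theorem G_add (m a : ℕ) (k k' : K) : G m a (k + k') = G m a k + G m a k' := by
  unfold G
  rw [Prod.snd_add, Pi.add_apply, con_add, con_add]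
  abel

theorem G_snd (m a : ℕ) (k : K) : (G m a k).2 m = k.2 m := by
  unfold G
  simp [con_zero_snd]

theorem G_G (m a : ℕ) (k : K) : G m a (G m a k) = k := by
  have h := G_snd m a k
  have this : ∀ v : K, v.2 m = k.2 m → G m a v = v + con m a (k.2 m) + con m (a + 1) (k.2 m) := by
    intro v hv
    unfold G
    rw [hv]
  rw [this _ h]
  unfold G
  have e : k + con m a (k.2 m) + con m (a + 1) (k.2 m) + con m a (k.2 m) + con m (a + 1) (k.2 m)
    = k + (con m a (k.2 m) + con m a (k.2 m)) + (con m (a + 1) (k.2 m) + con m (a + 1) (k.2 m)) := by
    abel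
  rw [e, K_add_self, K_add_self, add_zero, add_zero]

/-- The fibre map as a homomorphism. -/
def GH (m a : ℕ) : K →+ K where
  toFun := G m a
  map_zero' := by
    have := G_add m a 0 0
    simpa using this
  map_add' := G_add m a

theorem G_mp (m a : ℕ) : MeasurePreserving (G m a) mK mK := by
  have := AddMonoidHom.measurePreserving (μ := mK) (ν := mK) (f := GH m a) (G_cont m a)
    (fun k => ⟨G m a k, G_G m a k⟩) rfl
  exact this

theorem pos_meas (n : ℕ) : Measurable (pos n) := by
  unfold pos
  have h1 : Measurable (fun z : Z => z.1 n) := (measurable_pi_apply n).comp measurable_subtype_coe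
  exact (measurable_of_countable (fun x : ZMod (h n) => x.val)).comp h1

theorem dig_meas (n : ℕ) : Measurable (dig n) := by
  unfold dig
  exact (measurable_of_countable (fun x : ℕ => x / h n)).comp (pos_meas (n + 1))

theorem carry_meas : Measurable carry := by
  have hP : ∀ m, MeasurableSet {z : Z | dig m z + 1 < q m} := fun m =>
    (dig_meas m) (MeasurableSet.of_discrete (s := {x : ℕ | x + 1 < q m}))
  refine measurable_to_countable' fun m => ?_
  have hset : carry ⁻¹' {m} = ({z | dig m z + 1 < q m} ∩ ⋂ j, ⋂ (_ : j < m), {z | dig j z + 1 < q j}ᶜ)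
      ∪ (if m = 0 then ⋂ j, {z | dig j z + 1 < q j}ᶜ else ∅) := by
    ext z
    simp only [mem_preimage, mem_singleton_iff, mem_union, mem_inter_iff, mem_iInter, mem_compl_iff]
    unfold carry
    by_cases hne : {m | dig m z + 1 < q m}.Nonempty
    · constructor
      · intro hm
        left
        refine ⟨?_, fun j hj hj2 => ?_⟩
        · have := Nat.sInf_mem hne
          rw [hm] at this
          exact this
        · have : sInf {m | dig m z + 1 < q m} ≤ j := Nat.sInf_le hj2
          omega
      · rintro (⟨h1, h2⟩ | h3)
        · have hle : sInf {m | dig m z + 1 < q m} ≤ m := Nat.sInf_le h1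
          have hge : ¬ sInf {m | dig m z + 1 < q m} < m := fun hlt =>
            h2 _ hlt (Nat.sInf_mem hne)
          omega
        · exfalso
          split_ifs at h3 with h0
          · obtain ⟨j, hj⟩ := hne
            exact (mem_iInter.mp h3 j) hj
          · exact h3
    · have he := Set.not_nonempty_iff_eq_empty.mp hne
      rw [he, Nat.sInf_empty]
      constructor
      · intro hm
        right
        rw [if_pos hm.symm]
        refine mem_iInter.mpr fun j hj => ?_
        have : j ∈ {m | dig m z + 1 < q m} := hj
        rw [he] at this
        exact this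
      · rintro (⟨h1, h2⟩ | h3)
        · exfalso
          have : m ∈ {m | dig m z + 1 < q m} := h1
          rw [he] at this
          exact this
        · split_ifs at h3 with h0
          · exact h0.symm
          · exact h3.elim
  rw [hset]
  refine MeasurableSet.union ((hP m).inter (MeasurableSet.iInter fun j =>
    MeasurableSet.iInter fun _ => (hP j).compl)) ?_
  split_ifs
  · exact MeasurableSet.iInter fun j => (hP j).compl
  · exact MeasurableSet.empty

theorem dig_carry_meas : Measurable (fun z : Z => dig (carry z) z) := by
  have h1 : Measurable (fun p : ℕ × Z => dig p.1 p.2) :=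
    measurable_from_prod_countable_right fun n => dig_meas n
  exact h1.comp (carry_meas.prodMk measurable_id)

theorem A_eq (z : Z) : A z = G (carry z) (dig (carry z) z) := rfl

theorem A_meas : Measurable (Function.uncurry A) := by
  have h1 : Measurable (fun p : (ℕ × ℕ) × K => G p.1.1 p.1.2 p.2) :=
    measurable_from_prod_countable_right fun n => (G_cont n.1 n.2).measurable
  have h2 : Measurable (fun p : Z × K => (((carry p.1, dig (carry p.1) p.1) : ℕ × ℕ), p.2)) :=
    ((carry_meas.comp measurable_fst).prodMk (dig_carry_meas.comp measurable_fst)).prodMk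
      measurable_snd
  exact h1.comp h2

end MPres

open MPres in
theorem specMP : SpecMP := by
  unfold SpecMP
  have h1 : MeasurePreserving (fun z : Z => z + oneZ) mZ mZ := measurePreserving_add_right mZ oneZ
  have := h1.skew_product (μc := mK) (μd := mK) A_meas
    (Filter.Eventually.of_forall fun z => (G_mp (carry z) (dig (carry z) z)).map_eq)
  exact this

end MP195885
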