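import Pool.Agent.Lib.MP_195885_an.Flow
import Pool.Agent.Lib.MP_195885_an.MP
import Pool.Agent.Lib.MP_195885_an.Count

/-!
# MODULE Corr
-/

open MeasureTheory Filter Topology Set

namespace MP195885

namespace CorrM

/-! ### digits at the beginning of a block -/

theorem h_dvd_of_le {a b : ℕ} (hab : a ≤ b) : h a ∣ h b := CountM.h_dvd_of_le hab

theorem pos_mod {N n : ℕ} (hNn : N ≤ n) (z : Z) : pos n z % h N = pos N z := by
  induction n, hNn using Nat.le_induction with
  | base => exact Nat.mod_eq_of_lt (FlowM.pos_lt N z)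
  | succ m hm ih =>
    have h1 : pos (m + 1) z % h m = pos m z := (isClock_pos z).mod m
    rw [← ih, ← h1, Nat.mod_mod_of_dvd _ (h_dvd_of_le hm)]

theorem pos_zero_of {N n : ℕ} (hNn : N ≤ n) {z : Z} (hz : pos n z = 0) : pos N z = 0 := by
  rw [← pos_mod hNn, hz, Nat.zero_mod]

theorem dig_zero_of {j n : ℕ} (hj : j < n) {z : Z} (hz : pos n z = 0) : dig j z = 0 := by
  unfold dig
  rw [pos_zero_of hj hz, Nat.zero_div]

theorem Vv_start {n : ℕ} {z : Z} (hz : pos n z = 0) (k : K) : Vv n z k = cut n k := by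
  unfold Vv
  rw [Finset.sum_eq_zero, add_zero]
  intro m hm
  rw [dig_zero_of (Finset.mem_range.mp hm) hz]
  exact FlowM.con_even _ (by norm_num)

theorem cdig_start {j n i : ℕ} (hj : j < n) {z : Z} (hz : pos n z = 0) :
    cdig (fun n => pos n z) j i = dg j i := by
  unfold cdig cpos dg
  simp only
  rw [pos_zero_of hj hz, zero_add]

/-! ### descending maps -/

/-- Content at level `N` obtained from the content `v` of level `N + len`, along the digits
of the position `i`. -/
def Gd (i : ℕ) (v : K) : ℕ → ℕ → K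
  | _, 0 => v
  | N, len + 1 => f N (dg N i) (Gd i v (N + 1) len)

theorem Gd_zero (i : ℕ) (v : K) (N : ℕ) : Gd i v N 0 = v := rfl

theorem Gd_succ (i : ℕ) (v : K) (N len : ℕ) :
    Gd i v N (len + 1) = f N (dg N i) (Gd i v (N + 1) len) := rfl

theorem f_add (n a : ℕ) (v v' : K) : f n a (v + v') = f n a v + f n a v' := by
  unfold f
  rw [FlowM.cut_add]
  have : con n a ((v + v').2 n) = con n a (v.2 n) + con n a (v'.2 n) := FlowM.con_add _ _ _ _
  rw [this]
  abel

theorem Gd_add (i : ℕ) (v v' : K) (N len : ℕ) :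
    Gd i (v + v') N len = Gd i v N len + Gd i v' N len := by
  induction len generalizing N with
  | zero => rfl
  | succ len ih => rw [Gd_succ, Gd_succ, Gd_succ, ih, f_add]

theorem f_const {n a : ℕ} {v : K} (hv : ∀ m, n ≤ m → v.2 m = 0) : f n a v = v := by
  unfold f
  rw [hv n le_rfl, FlowM.con_zero, add_zero]
  exact FlowM.cut_of hv

theorem Gd_const (i : ℕ) {v : K} {N : ℕ} (hv : ∀ m, N ≤ m → v.2 m = 0) (len : ℕ) :
    Gd i v N len = v := by
  induction len generalizing N with
  | zero => rfl
  | succ len ih =>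
    rw [Gd_succ, ih fun m hm => hv m (by omega)]
    exact f_const hv

theorem Gd_split (i : ℕ) (v : K) (N a b : ℕ) :
    Gd i v N (a + b) = Gd i (Gd i v (N + a) b) N a := by
  induction a generalizing N with
  | zero => simp [Gd_zero]
  | succ a ih =>
    have : a + 1 + b = (a + b) + 1 := by ring
    rw [this, Gd_succ, Gd_succ, ih]
    congr 3
    ring_nf

theorem Gd_single {i j N n : ℕ} (hN : N ≤ j) (hn : j < n) (w : Fin j → ZMod 2)
    (hw : ∀ m, N ≤ m → (con j (dg j i) w).2 m = 0) :
    Gd i (cut n (single j w)) N (n - N) = con j (dg j i) w := by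
  have h1 : cut n (single j w) = single j w :=
    FlowM.cut_of fun k hk => FlowM.single_apply_ne w (by omega)
  have h2 : n - N = (j - N) + (1 + (n - j - 1)) := by omega
  rw [h1, h2, Gd_split, Gd_split]
  have h3 : N + (j - N) = j := by omega
  rw [h3, Gd_const (N := j + 1) i (fun m hm => FlowM.single_apply_ne w (by omega)) (n - j - 1)]
  have h4 : Gd i (single j w) j 1 = con j (dg j i) w := by
    rw [Gd_succ, Gd_zero]
    unfold f
    rw [FlowM.single_apply_self]
    have : cut j (single j w) = 0 := by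
      unfold cut
      apply Prod.ext
      · rfl
      · funext k
        by_cases hk : k < j
        · simp only [hk, if_true]
          exact FlowM.single_apply_ne w (by omega)
        · simp [hk]
    rw [this, zero_add]
  rw [h4]
  exact Gd_const i hw _

theorem flow_start {n N i : ℕ} (hN : N ≤ n) (hi : i < h n) {z : Z} (hz : pos n z = 0) (k : K) :
    Vv N (Tt^[i] (z, k)).1 (Tt^[i] (z, k)).2 = Gd i (cut n k) N (n - N) := by
  have hfl := specFlow.1 (z, k)
  have htop : flow (z, k) i n = cut n k := by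
    have h1 : flow (z, k) i n = flow (z, k) 0 n := by
      clear hN
      induction i with
      | zero => rfl
      | succ i ih =>
        rw [hfl.step i n, ih (by omega)]
        unfold cpos
        simp only
        rw [hz, zero_add, Nat.mod_eq_of_lt (by omega)]
        exact hi
    rw [h1]
    exact Vv_start hz k
  have key : ∀ len N, N + len = n → flow (z, k) i N = Gd i (cut n k) N len := by
    intro len
    induction len with
    | zero => intro N hN; rw [Gd_zero, ← htop]; congr 1
    | succ len ih =>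
      intro N hN
      rw [Gd_succ, ← ih (N + 1) (by omega), hfl.down i N, cdig_start (by omega) hz]
  exact key (n - N) N (by omega)

/-! ### signs -/

theorem sgn_add (a b : ZMod 2) : sgn (a + b) = sgn a * sgn b := by
  have ha : a = 0 ∨ a = 1 := by revert a; decide
  have hb : b = 0 ∨ b = 1 := by revert b; decide
  have h11 : (1 : ZMod 2) + 1 = 0 := by decide
  rcases ha with rfl | rfl <;> rcases hb with rfl | rfl <;> simp [sgn, h11]

theorem sgn_sq (a : ZMod 2) : sgn a * sgn a = 1 := by
  unfold sgn; split_ifs <;> norm_num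

theorem abs_sgn (a : ZMod 2) : |sgn a| = 1 := by
  unfold sgn; split_ifs <;> norm_num

theorem sgn_ne {a : ZMod 2} (ha : a ≠ 0) : sgn a = -1 := by
  unfold sgn; rw [if_neg ha]

theorem meas_sgn : Measurable sgn := Measurable.of_discrete

theorem meas_f (n a : ℕ) : Measurable (f n a) := by
  unfold f
  exact (FlowM.meas_cut n).add (FlowM.meas_con' n measurable_const measurable_id)

theorem meas_Gd (i N len n : ℕ) : Measurable fun k : K => Gd i (cut n k) N len := by
  induction len generalizing N with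
  | zero => exact FlowM.meas_cut n
  | succ len ih => exact (meas_f N _).comp (ih (N + 1))

section lam
variable (lam : K →+ ZMod 2)

theorem char_zero (F : K → K)
    (hadd : ∀ k k', F (k + k') = F k + F k') (k₀ : K) (h0 : lam (F k₀) ≠ 0) :
    ∫ k, sgn (lam (F k)) ∂mK = 0 := by
  have h1 : ∫ k, sgn (lam (F (k + k₀))) ∂mK = ∫ k, sgn (lam (F k)) ∂mK :=
    integral_add_right_eq_self (μ := mK) (fun k => sgn (lam (F k))) k₀
  have h2 : ∀ k, sgn (lam (F (k + k₀))) = - sgn (lam (F k)) := by
    intro k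
    rw [hadd, map_add, sgn_add, sgn_ne h0]
    ring
  simp only [h2, integral_neg] at h1
  linarith

theorem exists_component {N : ℕ} (hcut : ∀ v, lam (cut N v) = lam v) (hne : lam ≠ 0) :
    (∃ k, k < N ∧ ∃ w, lam (single k w) ≠ 0) ∨ lam ((1 : ZMod 2), 0) ≠ 0 := by
  by_contra hcon
  push Not at hcon
  obtain ⟨h1, h2⟩ := hcon
  apply hne
  ext v
  rw [← hcut]
  have key : ∀ m, m ≤ N → lam (cut m v) = 0 := by
    intro m
    induction m with
    | zero =>
      intro _
      have h3 : cut 0 v = (v.1, 0) := by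
        unfold cut
        apply Prod.ext
        · rfl
        · funext k
          simp
      have ha : v.1 = 0 ∨ v.1 = 1 := by
        have : ∀ a : ZMod 2, a = 0 ∨ a = 1 := by decide
        exact this _
      rw [h3]
      rcases ha with ha | ha
      · rw [ha]
        exact map_zero lam
      · rw [ha]
        exact h2
    | succ m ih =>
      intro hm
      rw [FlowM.cut_succ, map_add, ih (by omega), h1 m (by omega), add_zero]
  exact key N le_rfl

end lam

/-! ### measure theory -/

/-- The base set of positions. -/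
def E (n i : ℕ) : Set (Z × K) := {ω | pos n ω.1 = i}

theorem meas_E (n i : ℕ) : MeasurableSet (E n i) :=
  ((FlowM.meas_pos n).comp measurable_fst) (measurableSet_singleton i)

variable {s : Set (Z × K)}

theorem inv_iter (hinv : Tt ⁻¹' s = s) (i : ℕ) : Tt^[i] ⁻¹' s = s := by
  induction i with
  | zero => rfl
  | succ i ih => rw [Function.iterate_succ, preimage_comp, ih, hinv]

theorem pre_E (hinv : Tt ⁻¹' s = s) {n i : ℕ} (hi : i < h n) :
    Tt^[i] ⁻¹' (s ∩ E n i) = s ∩ E n 0 := by
  rw [preimage_inter, inv_iter hinv]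
  congr 1
  ext ω
  simp only [mem_preimage, E, mem_ofPred_eq]
  rw [FlowM.pos_iter]
  unfold cpos
  simp only
  have h1 := FlowM.pos_lt n ω.1
  constructor
  · intro h2
    by_cases h3 : pos n ω.1 + i < h n
    · rw [Nat.mod_eq_of_lt h3] at h2
      omega
    · have h4 : (pos n ω.1 + i) % h n = pos n ω.1 + i - h n := by
        rw [Nat.mod_eq_sub_mod (by omega), Nat.mod_eq_of_lt (by omega)]
      omega
  · intro h2
    rw [h2, zero_add, Nat.mod_eq_of_lt hi]

theorem meas_eq (hMP : SpecMP) (hs : MeasurableSet s) (hinv : Tt ⁻¹' s = s) {n i : ℕ}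
    (hi : i < h n) : mΩ (s ∩ E n i) = mΩ (s ∩ E n 0) := by
  have h1 := (MeasurePreserving.iterate hMP i).measure_preimage
    (hs.inter (meas_E n i)).nullMeasurableSet
  rw [pre_E hinv hi] at h1
  exact h1.symm

theorem union_E {N n : ℕ} (hNn : N ≤ n) (c : ℕ) :
    s ∩ E N c = ⋃ i ∈ (Finset.range (h n)).filter (fun i => i % h N = c), s ∩ E n i := by
  ext ω
  simp only [mem_inter_iff, E, mem_ofPred_eq, Finset.mem_filter, Finset.mem_range, mem_iUnion,
    exists_prop]
  constructor
  · rintro ⟨h1, h2⟩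
    exact ⟨pos n ω.1, ⟨FlowM.pos_lt n ω.1, by rw [pos_mod hNn, h2]⟩, h1, rfl⟩
  · rintro ⟨i, ⟨h1, h2⟩, h3, h4⟩
    exact ⟨h3, by rw [← pos_mod hNn, h4, h2]⟩

theorem disj_E (n : ℕ) (t : Set ℕ) : t.Pairwise (Function.onFun Disjoint fun i => s ∩ E n i) := by
  intro i _ j _ hij
  rw [Function.onFun, Set.disjoint_left]
  rintro ω ⟨_, h1⟩ ⟨_, h2⟩
  exact hij (h1.symm.trans h2)

theorem part1 (hMP : SpecMP) (hs : MeasurableSet s) (hinv : Tt ⁻¹' s = s) (n c : ℕ)
    (hc : c < h n) : mΩ (s ∩ E n c) = mΩ s / (h n : ENNReal) := by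
  have h1 : s = ⋃ i ∈ Finset.range (h n), s ∩ E n i := by
    ext ω
    simp only [mem_iUnion, Finset.mem_range, mem_inter_iff, E, mem_ofPred_eq, exists_prop]
    constructor
    · intro hω
      exact ⟨pos n ω.1, FlowM.pos_lt n ω.1, hω, rfl⟩
    · rintro ⟨i, _, h3, _⟩
      exact h3
  have h2 : mΩ s = ∑ i ∈ Finset.range (h n), mΩ (s ∩ E n i) := by
    conv_lhs => rw [h1]
    exact measure_biUnion_finset (disj_E n _) fun i _ => hs.inter (meas_E n i)
  have h3 : ∀ i ∈ Finset.range (h n), mΩ (s ∩ E n i) = mΩ (s ∩ E n 0) := fun i hi =>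
    meas_eq hMP hs hinv (Finset.mem_range.mp hi)
  rw [Finset.sum_congr rfl h3, Finset.sum_const, Finset.card_range, nsmul_eq_mul] at h2
  rw [meas_eq hMP hs hinv hc, h2, mul_comm, ENNReal.mul_div_cancel_right]
  · exact_mod_cast (h_pos n).ne'
  · exact ENNReal.natCast_ne_top _

theorem integral_move (hMP : SpecMP) (hs : MeasurableSet s) (hinv : Tt ⁻¹' s = s) {n i : ℕ}
    (hi : i < h n) (g : Z × K → ℝ) (hg : Measurable g) :
    ∫ ω in s ∩ E n i, g ω ∂mΩ = ∫ ω in s ∩ E n 0, g (Tt^[i] ω) ∂mΩ := by
  have hm := MeasurePreserving.iterate hMP i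
  have h1 := setIntegral_map (μ := mΩ) (hs.inter (meas_E n i)) (f := g) (g := Tt^[i])
    hg.aestronglyMeasurable hm.measurable.aemeasurable
  rw [hm.map_eq, pre_E hinv hi] at h1
  exact h1


theorem integrable_sgn (lam : K →+ ZMod 2) (hl : Continuous lam) {F : K → K}
    (hF : Measurable F) : Integrable (fun k => sgn (lam (F k))) mK := by
  refine Integrable.of_bound (C := 1)
    (meas_sgn.comp (hl.measurable.comp hF)).aestronglyMeasurable
    (Filter.Eventually.of_forall fun k => ?_)
  rw [Real.norm_eq_abs]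
  exact (abs_sgn _).le

/-- bound for the second moment -/
theorem second_moment (lam : K →+ ZMod 2) (hl : Continuous lam) {N n : ℕ} (I : Finset ℕ)
    (bad : ℕ × ℕ → Prop) (hI : I ⊆ Finset.range (h n))
    (hgood : ∀ i ∈ I, ∀ i' ∈ I, ¬ bad (i, i') → ∃ k₀ : K,
      lam (Gd i (cut n k₀) N (n - N) + Gd i' (cut n k₀) N (n - N)) ≠ 0) :
    ∫ k, (∑ i ∈ I, sgn (lam (Gd i (cut n k) N (n - N)))) ^ 2 ∂mK ≤
      (CountM.cnt ((Finset.range (h n)) ×ˢ (Finset.range (h n))) bad : ℝ) := by
  classical
  have hexp : ∀ k : K, (∑ i ∈ I, sgn (lam (Gd i (cut n k) N (n - N)))) ^ 2 =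
      ∑ p ∈ I ×ˢ I, sgn (lam (Gd p.1 (cut n k) N (n - N) + Gd p.2 (cut n k) N (n - N))) := by
    intro k
    rw [sq, Finset.sum_mul_sum, ← Finset.sum_product']
    refine Finset.sum_congr rfl fun p _ => ?_
    rw [map_add, sgn_add]
  simp only [hexp]
  rw [integral_finsetSum]
  · rw [← CountM.cnt_eq]
    have h1 : ∀ p ∈ I ×ˢ I,
        ∫ k, sgn (lam (Gd p.1 (cut n k) N (n - N) + Gd p.2 (cut n k) N (n - N))) ∂mK ≤
        if bad p then 1 else 0 := by
      intro p hp
      rw [Finset.mem_product] at hp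
      split_ifs with hb
      · have : ∀ k : K, sgn (lam (Gd p.1 (cut n k) N (n - N) + Gd p.2 (cut n k) N (n - N))) ≤
            (1 : ℝ) := fun k => (le_abs_self _).trans (abs_sgn _).le
        calc _ ≤ ∫ _, (1 : ℝ) ∂mK :=
              integral_mono (integrable_sgn lam hl ((meas_Gd _ _ _ _).add (meas_Gd _ _ _ _)))
                (integrable_const _) this
          _ = 1 := by simp
      · obtain ⟨k₀, hk₀⟩ := hgood p.1 hp.1 p.2 hp.2 hb
        have := char_zero lam
          (fun k => Gd p.1 (cut n k) N (n - N) + Gd p.2 (cut n k) N (n - N)) ?_ k₀ hk₀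
        · exact this.le
        · intro k k'
          rw [FlowM.cut_add, Gd_add, Gd_add]
          abel
    refine (Finset.sum_le_sum h1).trans ?_
    rw [Finset.sum_boole]
    rw [Nat.cast_le]
    refine Finset.card_le_card ?_
    exact Finset.filter_subset_filter _ (Finset.product_subset_product hI hI)
  · intro p _
    exact integrable_sgn lam hl ((meas_Gd _ _ _ _).add (meas_Gd _ _ _ _))

theorem base_measure (hMP : SpecMP) (n : ℕ) : mΩ.real (E n 0) = 1 / (h n : ℝ) := by
  have h1 := part1 (s := univ) hMP MeasurableSet.univ rfl n 0 (h_pos n)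
  rw [univ_inter, measure_univ] at h1
  unfold Measure.real
  rw [h1, ENNReal.toReal_div]
  simp

theorem estimate (hMP : SpecMP) (hs : MeasurableSet s) (hinv : Tt ⁻¹' s = s) (lam : K →+ ZMod 2)
    (hl : Continuous lam) {N n : ℕ} (hNn : N ≤ n) (c : ℕ) {ε : ℝ} (hε : 0 < ε)
    (hmom : ∫ k, (∑ i ∈ (Finset.range (h n)).filter (fun i => i % h N = c),
      sgn (lam (Gd i (cut n k) N (n - N)))) ^ 2 ∂mK ≤ ε ^ 2 * (h n : ℝ) ^ 2) :
    |∫ ω in s ∩ E N c, sgn (lam (Vv N ω.1 ω.2)) ∂mΩ| ≤ ε := by
  set I := (Finset.range (h n)).filter (fun i => i % h N = c) with hI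
  set Φ : K → ℝ := fun k => ∑ i ∈ I, sgn (lam (Gd i (cut n k) N (n - N))) with hΦ
  have hΦm : Measurable Φ := Finset.measurable_fun_sum _ fun i _ =>
    meas_sgn.comp (hl.measurable.comp (meas_Gd i N (n - N) n))
  have hΦb : ∀ k, |Φ k| ≤ I.card := by
    intro k
    refine (Finset.abs_sum_le_sum_abs _ _).trans ?_
    simp [abs_sgn]
  set g : Z × K → ℝ := fun ω => sgn (lam (Vv N ω.1 ω.2)) with hg
  have hgm : Measurable g := meas_sgn.comp (hl.measurable.comp (FlowM.meas_Vv N))
  have hgb : ∀ ω, |g ω| ≤ 1 := fun ω => (abs_sgn _).le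
  have hgi : ∀ (t : Set (Z × K)), IntegrableOn g t mΩ := fun t =>
    (Integrable.of_bound (C := 1) hgm.aestronglyMeasurable
      (Filter.Eventually.of_forall fun ω => by rw [Real.norm_eq_abs]; exact hgb ω)).integrableOn
  -- reduction to the base
  have h1 : ∫ ω in s ∩ E N c, g ω ∂mΩ = ∫ ω in s ∩ E n 0, Φ ω.2 ∂mΩ := by
    rw [union_E hNn c, integral_biUnion_finset _ (fun i _ => hs.inter (meas_E n i))
      (disj_E n _) (fun i _ => hgi _)]
    have h2 : ∀ i ∈ I, ∫ ω in s ∩ E n i, g ω ∂mΩ =
        ∫ ω in s ∩ E n 0, sgn (lam (Gd i (cut n ω.2) N (n - N))) ∂mΩ := by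
      intro i hi
      have hi' : i < h n := by
        rw [hI, Finset.mem_filter, Finset.mem_range] at hi
        exact hi.1
      rw [integral_move hMP hs hinv hi' g hgm]
      refine setIntegral_congr_fun (hs.inter (meas_E n 0)) ?_
      rintro ⟨z, k⟩ ⟨_, hω⟩
      simp only [hg]
      rw [flow_start hNn hi' hω k]
    rw [Finset.sum_congr rfl h2, ← integral_finsetSum]
    intro i _
    refine Integrable.integrableOn ?_
    exact (integrable_sgn lam hl (meas_Gd i N (n - N) n)).comp_snd mZ
  have hΦi : Integrable (fun ω : Z × K => |Φ ω.2|) mΩ := by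
    refine Integrable.of_bound (C := I.card) ?_ (Filter.Eventually.of_forall fun ω => ?_)
    · exact (hΦm.comp measurable_snd).norm.aestronglyMeasurable
    · rw [Real.norm_eq_abs, abs_abs]
      exact hΦb _
  have hΦ2 : Integrable (fun k : K => Φ k ^ 2) mK := by
    refine Integrable.of_bound (C := (I.card : ℝ) ^ 2) ?_ (Filter.Eventually.of_forall fun k => ?_)
    · exact (hΦm.pow_const 2).aestronglyMeasurable
    · rw [Real.norm_eq_abs, abs_pow]
      exact pow_le_pow_left₀ (abs_nonneg _) (hΦb k) 2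
  have hh : (0 : ℝ) < h n := by exact_mod_cast h_pos n
  have hEprod : E n 0 = {z : Z | pos n z = 0} ×ˢ (univ : Set K) := by
    ext ω; simp [E]
  have hψ : Integrable (fun k : K => (1 / 2 : ℝ) * (ε * h n + Φ k ^ 2 / (ε * h n))) mK :=
    ((integrable_const _).add (hΦ2.div_const _)).const_mul _
  rw [h1]
  calc |∫ ω in s ∩ E n 0, Φ ω.2 ∂mΩ| ≤ ∫ ω in s ∩ E n 0, |Φ ω.2| ∂mΩ := abs_integral_le_integral_abs
    _ ≤ ∫ ω in E n 0, |Φ ω.2| ∂mΩ := by
        refine setIntegral_mono_set hΦi.integrableOn
          (Filter.Eventually.of_forall fun ω => abs_nonneg _) ?_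
        exact (inter_subset_right).eventuallyLE
    _ ≤ ∫ ω in E n 0, (1 / 2 : ℝ) * (ε * h n + Φ ω.2 ^ 2 / (ε * h n)) ∂mΩ := by
        refine setIntegral_mono hΦi.integrableOn ?_ fun ω => ?_
        · exact (hψ.comp_snd mZ).integrableOn
        · have h3 : 0 < ε * h n := by positivity
          have h4 : 0 ≤ (|Φ ω.2| - ε * h n) ^ 2 := sq_nonneg _
          have h5 : |Φ ω.2| ^ 2 = Φ ω.2 ^ 2 := sq_abs _
          have h6 : 2 * (|Φ ω.2| * (ε * h n)) ≤ (ε * h n) ^ 2 + Φ ω.2 ^ 2 := by nlinarith
          have h7 : (1 / 2 : ℝ) * (ε * h n + Φ ω.2 ^ 2 / (ε * h n)) =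
              ((ε * h n) ^ 2 + Φ ω.2 ^ 2) / (2 * (ε * h n)) := by
            field_simp
          show |Φ ω.2| ≤ (1 / 2 : ℝ) * (ε * h n + Φ ω.2 ^ 2 / (ε * h n))
          rw [h7, le_div_iff₀ (by positivity)]
          linarith
    _ = mΩ.real (E n 0) * ∫ k, (1 / 2 : ℝ) * (ε * h n + Φ k ^ 2 / (ε * h n)) ∂mK := by
        have h8 := setIntegral_prod_mul (μ := mZ) (ν := mK) (fun _ : Z => (1 : ℝ))
          (fun k : K => (1 / 2 : ℝ) * (ε * h n + Φ k ^ 2 / (ε * h n)))
          {z : Z | pos n z = 0} univ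
        simp only [one_mul, Measure.restrict_univ, setIntegral_const, smul_eq_mul, mul_one] at h8
        have h9 : mΩ.real (E n 0) = mZ.real {z : Z | pos n z = 0} := by
          rw [hEprod]
          unfold Measure.real mΩ
          rw [Measure.prod_prod, measure_univ, mul_one]
        rw [h9, hEprod]
        exact h8
    _ ≤ ε := by
        rw [base_measure hMP, integral_const_mul, integral_add (integrable_const _)
          (hΦ2.div_const _), integral_div, integral_const]
        simp only [probReal_univ, smul_eq_mul, one_mul]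
        have h3 : (∫ k, Φ k ^ 2 ∂mK) / (ε * h n) ≤ ε * h n := by
          rw [div_le_iff₀ (by positivity)]
          refine hmom.trans (le_of_eq ?_)
          ring
        rw [div_mul_eq_mul_div, one_mul, div_le_iff₀ hh]
        linarith

end CorrM

open CorrM

theorem specCorr' (hMP : SpecMP) (hC : SpecCount) : SpecCorr := by
  classical
  intro s hs hinv
  refine ⟨fun n c hc => part1 hMP hs hinv n c hc, ?_⟩
  intro N c lam hl hcut hne
  have key : ∀ ε : ℝ, 0 < ε → |∫ ω in s ∩ E N c, sgn (lam (Vv N ω.1 ω.2)) ∂mΩ| ≤ ε := by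
    intro ε hε
    rcases exists_component lam hcut hne with ⟨k, hk, w₀, hw₀⟩ | h1
    · obtain ⟨n, hn, hcount⟩ := hC.1 N k hk (ε ^ 2) (by positivity)
      rw [CountM.cnt_eq] at hcount
      refine estimate hMP hs hinv lam hl hn c hε (le_trans ?_ hcount)
      refine second_moment lam hl _ _ (Finset.filter_subset _ _) ?_
      intro i _ i' _ hb
      simp only [not_forall, not_not] at hb
      obtain ⟨j, hj1, hj2, hj3, hj4, hj5⟩ := hb
      set w : Fin j → ZMod 2 := tr k j w₀ with hw
      have hkj : k < j := by omega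
      have e1 : con j (dg j i) w = single k w₀ := by
        unfold con
        rw [if_pos hj4, hj3]
        congr 1
        funext a
        unfold tr
        have h2 : (a : ℕ) < j := a.2.trans hkj
        simp only [h2, dif_pos, hw, tr]
        simp
      have e2 : con j (dg j i') w = 0 := FlowM.con_even _ hj5
      refine ⟨single j w, ?_⟩
      rw [Gd_single hj1 hj2 w, Gd_single hj1 hj2 w, e1, e2, add_zero]
      · exact hw₀
      · intro m _
        rw [e2]
        rfl
      · intro m hm
        rw [e1]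
        exact FlowM.single_apply_ne _ (by omega)
    · obtain ⟨n, hn, hcount⟩ := hC.2.1 N (ε ^ 2) (by positivity)
      rw [CountM.cnt_eq] at hcount
      refine estimate hMP hs hinv lam hl hn c hε (le_trans ?_ hcount)
      refine second_moment lam hl _ _ (Finset.filter_subset _ _) ?_
      intro i _ i' _ hb
      simp only [not_forall, not_not] at hb
      obtain ⟨j, hj1, hj2, ⟨hj3, w, hw⟩, hj5⟩ := hb
      have e1 : con j (dg j i) w = ((1 : ZMod 2), 0) := by
        have hns : ¬ Special j (dg j i) := by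
          rintro ⟨_, _, h3⟩
          have h4 := hj3.2
          have h5 := CountM.two_pow_le_M j
          omega
        unfold con
        rw [if_neg hns, if_pos hj3]
        have : ∀ a : ZMod 2, a ≠ 0 → a = 1 := by decide
        rw [this _ hw]
      have e2 : con j (dg j i') w = 0 := FlowM.con_even _ hj5
      refine ⟨single j w, ?_⟩
      rw [Gd_single hj1 hj2 w, Gd_single hj1 hj2 w, e1, e2, add_zero]
      · exact h1
      · intro m _
        rw [e2]
        rfl
      · intro m hm
        rw [e1]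
        rfl
  have h2 : |∫ ω in s ∩ E N c, sgn (lam (Vv N ω.1 ω.2)) ∂mΩ| ≤ 0 :=
    le_of_forall_pos_le_add fun ε hε => by
      rw [zero_add]
      exact key ε hε
  exact abs_nonpos_iff.mp h2

theorem specCorr (_ : SpecFlow) (hMP : SpecMP) (hC : SpecCount) : SpecCorr := specCorr' hMP hC

end MP195885
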