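import Mathlib

/-!
# MP_195885_an: persistent (uniform) DC2 without any DC1½-scrambled pair

Definitions and exact module specifications.
-/

open MeasureTheory Filter Topology Set

namespace MP195885

/-! ### Parameters of the construction -/

/-- `L n ≥ 1`, tends to infinity slowly. -/
def L (n : ℕ) : ℕ := Nat.sqrt n + 1

/-- Half the number of odd digits of level `n`. -/
def M (n : ℕ) : ℕ := 2 ^ n * L n

/-- Number of digits of level `n`. -/
def q (n : ℕ) : ℕ := 4 * M n + 1

/-- Length of an `n`-block. -/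
def h (n : ℕ) : ℕ := ∏ j ∈ Finset.range n, q j

/-- The target component of the special digits of level `n`. -/
def κ (n : ℕ) : ℕ := (Nat.unpair n).1

/-- special digits -/
def Special (n a : ℕ) : Prop := 1 ≤ n ∧ a % 2 = 1 ∧ a / 2 < 2 ^ n

/-- hit digits -/
def Hit (n a : ℕ) : Prop := a % 2 = 1 ∧ M n ≤ a / 2

instance (n a : ℕ) : Decidable (Special n a) := by unfold Special; infer_instance
instance (n a : ℕ) : Decidable (Hit n a) := by unfold Hit; infer_instance

/-! ### The fibre group -/

/-- The fibre group: a `t`-component and components `w_k ∈ F_2^k`. -/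
abbrev K : Type := ZMod 2 × ((k : ℕ) → Fin k → ZMod 2)

/-- The functional of index `β` on `F_2^n`. -/
def dot (n β : ℕ) (w : Fin n → ZMod 2) : ZMod 2 :=
  ∑ i : Fin n, if β.testBit i then w i else 0

/-- Truncation `F_2^n → F_2^k`. -/
def tr (n k : ℕ) (w : Fin n → ZMod 2) : Fin k → ZMod 2 :=
  fun i => if hi : (i : ℕ) < n then w ⟨i, hi⟩ else 0

/-- The element of `K` supported on the component `k`. -/
def single (k : ℕ) (w : Fin k → ZMod 2) : K := (0, Pi.single k w)

/-- The contribution of the top component `w ∈ F_2^n` at the digit `a` of level `n`. -/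
def con (n a : ℕ) (w : Fin n → ZMod 2) : K :=
  if Special n a then single (κ n) (tr n (κ n) w)
  else if Hit n a then (dot n (a / 2) w, 0)
  else 0

/-- Remove the components `≥ n`. -/
def cut (n : ℕ) (v : K) : K := (v.1, fun k => if k < n then v.2 k else 0)

/-- The map `V_{n+1} → V_n` at the digit `a` of level `n`. -/
def f (n a : ℕ) (v : K) : K := cut n v + con n a (v.2 n)

/-! ### Clocks and flows -/

/-- A point of the odometer, as a compatible sequence of positions. -/
structure IsClock (r : ℕ → ℕ) : Prop where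
  lt : ∀ n, r n < h n
  mod : ∀ n, r (n + 1) % h n = r n

/-- Position inside the `n`-block at time `p`. -/
def cpos (r : ℕ → ℕ) (n p : ℕ) : ℕ := (r n + p) % h n

/-- Digit of level `n` at time `p`. -/
def cdig (r : ℕ → ℕ) (n p : ℕ) : ℕ := cpos r (n + 1) p / h n

/-- `g p n` is the content at time `p` of the current `n`-block. -/
structure IsFlow (r : ℕ → ℕ) (g : ℕ → ℕ → K) : Prop where
  down : ∀ p n, g p n = f n (cdig r n p) (g p (n + 1))
  step : ∀ p n, cpos r n p + 1 < h n → g (p + 1) n = g p n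

/-! ### Distributional chaos -/

/-- Upper density of a set of natural numbers. -/
noncomputable def upperDensity (A : Set ℕ) : ℝ :=
  limsup (fun n : ℕ => ((A ∩ Set.Icc 1 n).ncard : ℝ) / (n : ℝ)) atTop

section chaos
variable {X : Type*} [MetricSpace X] (T : X → X)

/-- The times at which the orbits of `x`, `y` are at distance at least `s`. -/
def farSet (s : ℝ) (x y : X) : Set ℕ := {n | s ≤ dist (T^[n] x) (T^[n] y)}

/-- The orbits of `x`, `y` converge to each other along a set of times of upper density one. -/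
def UpperAsymptotic (x y : X) : Prop :=
  ∃ N : Set ℕ, upperDensity N = 1 ∧
    Tendsto (fun n : ℕ => dist (T^[n] x) (T^[n] y)) (atTop ⊓ 𝓟 N) (𝓝 0)

/-- DC2-scrambled pairs. -/
def DC2Pair (x y : X) : Prop :=
  UpperAsymptotic T x y ∧ ∃ s : ℝ, 0 < s ∧ 0 < upperDensity (farSet T s x y)

/-- DC1½-scrambled pairs. -/
def DC1halfPair (x y : X) : Prop :=
  UpperAsymptotic T x y ∧
    ∀ η : ℝ, η < 1 → ∃ s : ℝ, 0 < s ∧ η ≤ upperDensity (farSet T s x y)

/-- DC2-scrambled sets. -/
def DC2Scrambled (E : Set X) : Prop := ∀ x ∈ E, ∀ y ∈ E, x ≠ y → DC2Pair T x y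

/-- Uniformly DC2-scrambled sets. -/
def UniformlyDC2Scrambled (E : Set X) : Prop :=
  DC2Scrambled T E ∧ ∃ s : ℝ, 0 < s ∧ ∃ η : ℝ, 0 < η ∧
    ∀ x ∈ E, ∀ y ∈ E, x ≠ y → η ≤ upperDensity (farSet T s x y)

/-- DC1½-scrambled sets. -/
def DC1halfScrambled (E : Set X) : Prop := ∀ x ∈ E, ∀ y ∈ E, x ≠ y → DC1halfPair T x y

/-- DC1½ chaos. -/
def DC1halfChaotic : Prop := ∃ E : Set X, ¬ E.Countable ∧ DC1halfScrambled T E

/-- Uniform DC2 is persistent under removing null sets. -/
def PersistentUniformDC2 [MeasurableSpace X] (μ : Measure X) : Prop :=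
  ∀ A : Set X, μ A = 0 → ∃ E : Set X, E ⊆ Aᶜ ∧ ¬ E.Countable ∧ UniformlyDC2Scrambled T E

/-- DC2 is persistent under removing null sets. -/
def PersistentDC2 [MeasurableSpace X] (μ : Measure X) : Prop :=
  ∀ A : Set X, μ A = 0 → ∃ E : Set X, E ⊆ Aᶜ ∧ ¬ E.Countable ∧ DC2Scrambled T E

end chaos

end MP195885
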