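import Pool.Agent.Lib.MP_195885_an.Spec

/-!
# MODULE Erg: ergodicity of the skew product
-/

set_option autoImplicit false

open MeasureTheory Filter Topology Set

namespace MP195885
namespace ErgM

/-- index set of the coordinates of `K` -/
abbrev Co : Type := Option (Σ k : ℕ, Fin k)

/-- the coordinates -/
def co : Co → K →+ ZMod 2
  | none => { toFun := fun v => v.1, map_zero' := rfl, map_add' := fun _ _ => rfl }
  | some α => { toFun := fun v => v.2 α.1 α.2, map_zero' := rfl, map_add' := fun _ _ => rfl }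

theorem co_none (v : K) : co none v = v.1 := rfl

theorem co_some (α : Σ k : ℕ, Fin k) (v : K) : co (some α) v = v.2 α.1 α.2 := rfl

theorem co_cont (α : Co) : Continuous (co α) := by
  cases α with
  | none => exact continuous_fst
  | some α =>
    have h : Continuous fun v : K => v.2 α.1 α.2 := by fun_prop
    exact h

/-- the coordinates of level `N` -/
def I (N : ℕ) : Finset Co :=
  Finset.insertNone ((Finset.range N).sigma fun k => (Finset.univ : Finset (Fin k)))

theorem none_mem (N : ℕ) : (none : Co) ∈ I N := Finset.none_mem_insertNone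

theorem some_mem (N : ℕ) (α : Σ k : ℕ, Fin k) : (some α : Co) ∈ I N ↔ α.1 < N := by
  simp [I]

/-- basis vectors -/
def e : Co → K
  | none => (1, 0)
  | some α => (0, Pi.single α.1 (Pi.single α.2 1))

theorem co_e (β α : Co) : co β (e α) = if β = α then 1 else 0 := by
  classical
  rcases β with _ | ⟨k, i⟩ <;> rcases α with _ | ⟨k', i'⟩
  · simp [co_none, e]
  · simp [co_none, e]
  · simp [co_some, e]
  · rw [co_some]
    show (Pi.single k' (Pi.single i' 1) : (k : ℕ) → Fin k → ZMod 2) k i = _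
    by_cases hk : k = k'
    · subst hk
      rw [Pi.single_eq_same]
      by_cases hi : i = i'
      · subst hi
        simp
      · rw [Pi.single_eq_of_ne hi]
        simp [hi]
    · rw [Pi.single_eq_of_ne hk]
      have h1 : ¬ ((some ⟨k, i⟩ : Co) = some ⟨k', i'⟩) := by
        intro h2
        injection h2 with h3
        exact hk (congrArg Sigma.fst h3)
      rw [if_neg h1]
      rfl

theorem co_cut {N : ℕ} {α : Co} (hα : α ∈ I N) (v : K) : co α (cut N v) = co α v := by
  cases α with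
  | none => rfl
  | some α =>
    have h := (some_mem N α).1 hα
    rw [co_some, co_some]
    show (if α.1 < N then v.2 α.1 else 0) α.2 = _
    rw [if_pos h]

/-- the functional of a set of coordinates -/
def lamT (T : Finset Co) : K →+ ZMod 2 := ∑ α ∈ T, co α

theorem lamT_apply (T : Finset Co) (v : K) : lamT T v = ∑ α ∈ T, co α v :=
  AddMonoidHom.finsetSum_apply _ _ _

theorem lamT_cont (T : Finset Co) : Continuous (lamT T) := by
  have h : Continuous fun v => ∑ α ∈ T, co α v := continuous_finsetSum _ fun α _ => co_cont α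
  exact h.congr fun v => (lamT_apply T v).symm

theorem lamT_cut {N : ℕ} {T : Finset Co} (hT : T ⊆ I N) (v : K) :
    lamT T (cut N v) = lamT T v := by
  rw [lamT_apply, lamT_apply]
  exact Finset.sum_congr rfl fun α hα => co_cut (hT hα) v

theorem lamT_ne {T : Finset Co} (hT : T.Nonempty) : lamT T ≠ 0 := by
  classical
  obtain ⟨α, hα⟩ := hT
  intro h0
  have h1 : lamT T (e α) = 0 := by rw [h0]; rfl
  rw [lamT_apply, Finset.sum_congr rfl fun β _ => co_e β α] at h1
  simp [hα] at h1

theorem zcases (a : ZMod 2) : a = 0 ∨ a = 1 := by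
  revert a
  decide

theorem z10 : (1 : ZMod 2) ≠ 0 := by decide

theorem z11 : (1 : ZMod 2) + 1 = 0 := by decide

theorem sgn_zero : sgn 0 = 1 := by simp [sgn]

theorem sgn_one : sgn 1 = -1 := by
  unfold sgn
  rw [if_neg z10]

theorem sgn_add (a b : ZMod 2) : sgn (a + b) = sgn a * sgn b := by
  rcases zcases a with rfl | rfl <;> rcases zcases b with rfl | rfl
  · simp [sgn_zero]
  · simp [sgn_zero]
  · simp [sgn_zero]
  · rw [z11, sgn_zero, sgn_one]
    norm_num

theorem sgn_sum (T : Finset Co) (a : Co → ZMod 2) : sgn (∑ α ∈ T, a α) = ∏ α ∈ T, sgn (a α) := by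
  classical
  induction T using Finset.induction_on with
  | empty => simp [sgn_zero]
  | insert α T hα ih => rw [Finset.sum_insert hα, Finset.prod_insert hα, sgn_add, ih]

theorem one_add_sgn (a b : ZMod 2) : (1 + sgn a * sgn b) / 2 = if a = b then 1 else 0 := by
  rcases zcases a with rfl | rfl <;> rcases zcases b with rfl | rfl
  · rw [sgn_zero, if_pos rfl]; norm_num
  · rw [sgn_zero, sgn_one, if_neg z10.symm]; norm_num
  · rw [sgn_zero, sgn_one, if_neg z10]; norm_num
  · rw [sgn_one, if_pos rfl]; norm_num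

/-- level `N` data of a point -/
noncomputable def Ph (N : ℕ) (ω : Z × K) : Fin (h N) × (I N → ZMod 2) :=
  (⟨pos N ω.1, (isClock_pos ω.1).lt N⟩, fun α => co α (Vv N ω.1 ω.2))

theorem Ph_eq (N : ℕ) (ω ω' : Z × K) : Ph N ω = Ph N ω' ↔
    pos N ω.1 = pos N ω'.1 ∧ ∀ α ∈ I N, co α (Vv N ω.1 ω.2) = co α (Vv N ω'.1 ω'.2) := by
  unfold Ph
  rw [Prod.mk.injEq, Fin.mk.injEq, funext_iff]
  constructor
  · rintro ⟨h1, h2⟩
    exact ⟨h1, fun α hα => h2 ⟨α, hα⟩⟩
  · rintro ⟨h1, h2⟩
    exact ⟨h1, fun α => h2 α.1 α.2⟩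

theorem Vv_down (hF : SpecFlow) (N : ℕ) (ω : Z × K) :
    Vv N ω.1 ω.2 = f N (dig N ω.1) (Vv (N + 1) ω.1 ω.2) := by
  have h1 := (hF.1 ω).down 0 N
  have h2 : cdig (fun n => pos n ω.1) N 0 = dig N ω.1 := by
    unfold cdig cpos dig
    rw [Nat.add_zero, Nat.mod_eq_of_lt ((isClock_pos ω.1).lt (N + 1))]
  rw [h2] at h1
  exact h1

theorem Ph_succ (hF : SpecFlow) (N : ℕ) (ω ω' : Z × K) (hh : Ph (N + 1) ω = Ph (N + 1) ω') :
    Ph N ω = Ph N ω' := by
  rw [Ph_eq] at hh ⊢
  obtain ⟨h1, h2⟩ := hh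
  have hpos : pos N ω.1 = pos N ω'.1 := by
    rw [← (isClock_pos ω.1).mod N, ← (isClock_pos ω'.1).mod N, h1]
  have hdig : dig N ω.1 = dig N ω'.1 := by
    unfold dig
    rw [h1]
  refine ⟨hpos, fun α hα => ?_⟩
  rw [Vv_down hF N ω, Vv_down hF N ω', hdig]
  have hc : (Vv (N + 1) ω.1 ω.2).2 N = (Vv (N + 1) ω'.1 ω'.2).2 N := by
    funext i
    exact h2 (some ⟨N, i⟩) ((some_mem _ _).2 (Nat.lt_succ_self N))
  unfold f
  rw [map_add, map_add, hc, co_cut hα, co_cut hα]
  congr 1
  apply h2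
  cases α with
  | none => exact none_mem _
  | some α =>
    rw [some_mem] at hα ⊢
    exact Nat.lt_succ_of_lt hα

theorem Ph_mono (hF : SpecFlow) {N N' : ℕ} (hN : N ≤ N') (ω ω' : Z × K)
    (hh : Ph N' ω = Ph N' ω') : Ph N ω = Ph N ω' := by
  induction hN with
  | refl => exact hh
  | step _ ih => exact ih (Ph_succ hF _ _ _ hh)

/-- the pi-system -/
def Cs : Set (Set (Z × K)) :=
  {S | ∃ N, ∀ ω ω', Ph N ω = Ph N ω' → ω ∈ S → ω' ∈ S}

theorem Cs_pi (hF : SpecFlow) : IsPiSystem Cs := by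
  rintro S ⟨N, hS⟩ S' ⟨N', hS'⟩ _
  refine ⟨max N N', fun ω ω' hh hω => ⟨?_, ?_⟩⟩
  · exact hS ω ω' (Ph_mono hF (le_max_left _ _) _ _ hh) hω.1
  · exact hS' ω ω' (Ph_mono hF (le_max_right _ _) _ _ hh) hω.2

theorem con_comp {m k a : ℕ} (hm : m ≤ k) (w : Fin m → ZMod 2) : (con m a w).2 k = 0 := by
  unfold con
  split_ifs with h1 h2
  · have hk : k ≠ κ m := by
      have : κ m < m := by
        unfold κ
        exact Nat.unpair_lt h1.1
      omega
    exact Pi.single_eq_of_ne hk _
  · rfl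
  · rfl

theorem snd_sum {ι : Type*} (s : Finset ι) (g : ι → K) (k : ℕ) :
    (∑ m ∈ s, g m).2 k = ∑ m ∈ s, (g m).2 k := by
  classical
  induction s using Finset.induction_on with
  | empty => rfl
  | insert m s hm ih =>
    rw [Finset.sum_insert hm, Finset.sum_insert hm, ← ih]
    rfl

theorem Vv_top (k : ℕ) (ω : Z × K) : (Vv (k + 1) ω.1 ω.2).2 k = ω.2.2 k := by
  unfold Vv
  have h1 : (cut (k + 1) ω.2 + ∑ m ∈ Finset.range (k + 1), con m (dig m ω.1) (ω.2.2 m)).2 k =
      (cut (k + 1) ω.2).2 k + (∑ m ∈ Finset.range (k + 1), con m (dig m ω.1) (ω.2.2 m)).2 k := rfl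
  rw [h1, snd_sum, Finset.sum_eq_zero, add_zero]
  · show (if k < k + 1 then ω.2.2 k else 0) = _
    rw [if_pos (Nat.lt_succ_self k)]
  · intro m hm
    exact con_comp (Nat.lt_succ_iff.1 (Finset.mem_range.1 hm)) _

theorem Vv_zero (ω : Z × K) : (Vv 0 ω.1 ω.2).1 = ω.2.1 := by
  unfold Vv
  simp [cut]

theorem gen_le : (inferInstance : MeasurableSpace (Z × K)) ≤ MeasurableSpace.generateFrom Cs := by
  have key : ∀ {β : Type} (u : Z × K → β) (N : ℕ),
      (∀ ω ω', Ph N ω = Ph N ω' → u ω = u ω') → ∀ E : Set β,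
      MeasurableSet[MeasurableSpace.generateFrom Cs] (u ⁻¹' E) := by
    intro β u N hu E
    apply MeasurableSpace.measurableSet_generateFrom
    refine ⟨N, fun ω ω' hh hω => ?_⟩
    show u ω' ∈ E
    rw [← hu ω ω' hh]
    exact hω
  have h1 : @Measurable (Z × K) Z (MeasurableSpace.generateFrom Cs) _ Prod.fst := by
    refine @Measurable.subtype_mk (Z × K) _ (MeasurableSpace.generateFrom Cs) _ _
      (fun ω : Z × K => (ω.1.1 : (n : ℕ) → ZMod (h n))) ?_ (fun ω => ω.1.2)
    refine @measurable_pi_lambda (Z × K) ℕ (fun n => ZMod (h n))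
      (MeasurableSpace.generateFrom Cs) _ _ (fun n => ?_)
    intro E _
    refine key (fun ω : Z × K => ω.1.1 n) n (fun ω ω' hh => ?_) E
    have h2 := ((Ph_eq n ω ω').1 hh).1
    exact ZMod.val_injective _ h2
  have h2 : @Measurable (Z × K) K (MeasurableSpace.generateFrom Cs) _ Prod.snd := by
    refine @Measurable.prodMk (Z × K) (MeasurableSpace.generateFrom Cs) (ZMod 2)
      ((k : ℕ) → Fin k → ZMod 2) _ _ (fun ω => ω.2.1) (fun ω => ω.2.2) ?_ ?_
    · intro E _
      refine key (fun ω : Z × K => ω.2.1) 0 (fun ω ω' hh => ?_) E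
      have h3 := ((Ph_eq 0 ω ω').1 hh).2 none (none_mem _)
      rw [co_none, co_none, Vv_zero, Vv_zero] at h3
      exact h3
    · refine @measurable_pi_lambda (Z × K) ℕ (fun k => Fin k → ZMod 2)
        (MeasurableSpace.generateFrom Cs) _ _ (fun k => ?_)
      refine @measurable_pi_lambda (Z × K) (Fin k) (fun _ => ZMod 2)
        (MeasurableSpace.generateFrom Cs) _ _ (fun i => ?_)
      intro E _
      refine key (fun ω : Z × K => ω.2.2 k i) (k + 1) (fun ω ω' hh => ?_) E
      have h3 := ((Ph_eq (k + 1) ω ω').1 hh).2 (some ⟨k, i⟩)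
        ((some_mem _ _).2 (Nat.lt_succ_self k))
      rw [co_some, co_some] at h3
      have h4 : (Vv (k + 1) ω.1 ω.2).2 k i = (Vv (k + 1) ω'.1 ω'.2).2 k i := h3
      rw [Vv_top, Vv_top] at h4
      exact h4
  have h3 : @Measurable (Z × K) (Z × K) (MeasurableSpace.generateFrom Cs) _
      (fun ω => (ω.1, ω.2)) :=
    @Measurable.prodMk (Z × K) (MeasurableSpace.generateFrom Cs) Z K _ _ _ _ h1 h2
  intro S hS
  exact h3 hS

theorem meas_pos (N : ℕ) : Measurable fun ω : Z × K => pos N ω.1 := by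
  have h1 : Measurable fun ω : Z × K => ω.1.1 N :=
    (measurable_pi_apply N).comp (measurable_subtype_coe.comp measurable_fst)
  have h2 : Measurable (ZMod.val : ZMod (h N) → ℕ) := measurable_of_countable _
  exact h2.comp h1

theorem meas_Vv (hF : SpecFlow) (N : ℕ) : Measurable fun ω : Z × K => Vv N ω.1 ω.2 :=
  hF.2.2 0 N

theorem meas_co (α : Co) : Measurable (co α) := (co_cont α).measurable

theorem meas_Ph (hF : SpecFlow) (N : ℕ) (b : Fin (h N) × (I N → ZMod 2)) :
    MeasurableSet (Ph N ⁻¹' {b}) := by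
  have h1 : Ph N ⁻¹' {b} = {ω | pos N ω.1 = b.1} ∩
      ⋂ α : I N, {ω | co α (Vv N ω.1 ω.2) = b.2 α} := by
    ext ω
    simp only [Set.mem_preimage, Set.mem_singleton_iff, Set.mem_inter_iff, Set.mem_iInter,
      Set.mem_ofPred_eq]
    unfold Ph
    rw [Prod.ext_iff, Fin.ext_iff, funext_iff]
  rw [h1]
  refine MeasurableSet.inter ?_ (MeasurableSet.iInter fun α => ?_)
  · exact meas_pos N (measurableSet_singleton _)
  · exact (meas_co α).comp (meas_Vv hF N) (measurableSet_singleton _)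

theorem gen_eq (hF : SpecFlow) :
    (inferInstance : MeasurableSpace (Z × K)) = MeasurableSpace.generateFrom Cs := by
  refine le_antisymm gen_le (MeasurableSpace.generateFrom_le ?_)
  rintro S ⟨N, hS⟩
  have h1 : S = ⋃ b ∈ (Ph N '' S), Ph N ⁻¹' {b} := by
    ext ω
    simp only [Set.mem_iUnion, Set.mem_preimage, Set.mem_singleton_iff, exists_prop]
    constructor
    · exact fun hω => ⟨Ph N ω, ⟨ω, hω, rfl⟩, rfl⟩
    · rintro ⟨b, ⟨ω', hω', rfl⟩, hb⟩
      exact hS ω' ω hb.symm hω'
  rw [h1]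
  exact MeasurableSet.biUnion (Set.to_countable _) fun b _ => meas_Ph hF N b

theorem ind_eq (N : ℕ) (x : Co → ZMod 2) (V : K) [Decidable (∀ α ∈ I N, co α V = x α)] :
    (if ∀ α ∈ I N, co α V = x α then (1 : ℝ) else 0) =
      (1 / 2) ^ (I N).card * ∑ T ∈ (I N).powerset, (∏ α ∈ T, sgn (x α)) * sgn (lamT T V) := by
  classical
  have h1 : ∀ T ∈ (I N).powerset, (∏ α ∈ T, sgn (x α)) * sgn (lamT T V) =
      ∏ α ∈ T, (sgn (co α V) * sgn (x α)) := by
    intro T _
    rw [lamT_apply, sgn_sum, Finset.prod_mul_distrib, mul_comm]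
  rw [Finset.sum_congr rfl h1, ← Finset.prod_one_add, ← Finset.prod_const,
    ← Finset.prod_mul_distrib]
  have h2 : ∀ α ∈ I N, 1 / 2 * (1 + sgn (co α V) * sgn (x α)) =
      if co α V = x α then (1 : ℝ) else 0 := by
    intro α _
    rw [← one_add_sgn]
    ring
  rw [Finset.prod_congr rfl h2, Finset.prod_ite_zero, Finset.prod_const_one]
  by_cases hh : ∀ α ∈ I N, co α V = x α
  · rw [if_pos hh, if_pos hh]
  · rw [if_neg hh, if_neg hh]

theorem sgn_bdd (a : ZMod 2) : |sgn a| ≤ 1 := by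
  rcases zcases a with rfl | rfl
  · rw [sgn_zero]; norm_num
  · rw [sgn_one]; norm_num

theorem meas_sgn : Measurable sgn := measurable_of_countable _

theorem int_term (hF : SpecFlow) (N : ℕ) (T : Finset Co) (D : Set (Z × K)) :
    Integrable (fun ω : Z × K => sgn (lamT T (Vv N ω.1 ω.2))) (mΩ.restrict D) := by
  refine Integrable.of_bound (C := 1) ?_ ?_
  · exact (meas_sgn.comp ((lamT_cont T).measurable.comp (meas_Vv hF N))).aestronglyMeasurable
  · exact Filter.Eventually.of_forall fun ω => sgn_bdd _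

/-- the basic computation -/
theorem basic (hC : SpecCorr) (hF : SpecFlow) (s : Set (Z × K)) (hs : MeasurableSet s)
    (hinv : Tt ⁻¹' s = s) (N : ℕ) (b : Fin (h N) × (I N → ZMod 2)) :
    (mΩ (s ∩ Ph N ⁻¹' {b})).toReal =
      (1 / 2) ^ (I N).card * ((mΩ s).toReal / (h N : ℝ)) := by
  classical
  obtain ⟨c, x'⟩ := b
  set x : Co → ZMod 2 := fun α => if hα : α ∈ I N then x' ⟨α, hα⟩ else 0 with hx
  set D : Set (Z × K) := s ∩ {ω | pos N ω.1 = c} with hD
  have hDm : MeasurableSet D := hs.inter (meas_pos N (measurableSet_singleton _))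
  set E : Set (Z × K) := {ω | ∀ α ∈ I N, co α (Vv N ω.1 ω.2) = x α} with hE
  have hEm : MeasurableSet E := by
    have h1 : E = ⋂ α : I N, {ω | co α (Vv N ω.1 ω.2) = x α} := by
      ext ω
      simp [hE]
    rw [h1]
    exact MeasurableSet.iInter fun α =>
      (meas_co α).comp (meas_Vv hF N) (measurableSet_singleton _)
  have hset : s ∩ Ph N ⁻¹' {(c, x')} = D ∩ E := by
    ext ω
    simp only [hD, hE, Set.mem_inter_iff, Set.mem_preimage, Set.mem_singleton_iff,
      Set.mem_ofPred_eq, and_assoc]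
    unfold Ph
    rw [Prod.mk.injEq, Fin.ext_iff, funext_iff]
    have h2 : (∀ α : I N, co α (Vv N ω.1 ω.2) = x' α) ↔
        ∀ α ∈ I N, co α (Vv N ω.1 ω.2) = x α := by
      constructor
      · intro h3 α hα
        rw [h3 ⟨α, hα⟩, hx]
        simp [hα]
      · intro h3 α
        rw [h3 α.1 α.2, hx]
        simp
    rw [← h2]
  rw [hset]
  have h1 : (mΩ (D ∩ E)).toReal = ∫ ω in D, E.indicator (fun _ => (1 : ℝ)) ω ∂mΩ := by
    rw [setIntegral_indicator hEm, setIntegral_const]
    simp [Measure.real]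
  have h2 : ∀ ω : Z × K, E.indicator (fun _ => (1 : ℝ)) ω = (1 / 2) ^ (I N).card *
      ∑ T ∈ (I N).powerset, (∏ α ∈ T, sgn (x α)) * sgn (lamT T (Vv N ω.1 ω.2)) := by
    intro ω
    rw [← ind_eq N x (Vv N ω.1 ω.2), Set.indicator_apply]
    rfl
  rw [h1, integral_congr_ae (Filter.Eventually.of_forall h2), integral_const_mul,
    integral_finsetSum _ (fun T _ => (int_term hF N T D).const_mul _)]
  congr 1
  obtain ⟨hC1, hC2⟩ := hC s hs hinv
  rw [Finset.sum_eq_single ∅]
  · rw [Finset.prod_empty]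
    have h3 : ∀ ω : Z × K, (1 : ℝ) * sgn (lamT ∅ (Vv N ω.1 ω.2)) = 1 := by
      intro ω
      rw [lamT_apply, Finset.sum_empty, sgn_zero, one_mul]
    rw [integral_congr_ae (Filter.Eventually.of_forall h3), setIntegral_const]
    have h4 := hC1 N c c.2
    simp only [smul_eq_mul, mul_one]
    rw [Measure.real, hD, h4, ENNReal.toReal_div]
    simp
  · intro T hT hne
    rw [integral_const_mul]
    have h3 := hC2 N c (lamT T) (lamT_cont T) (fun v => lamT_cut (Finset.mem_powerset.1 hT) v)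
      (lamT_ne (Finset.nonempty_iff_ne_empty.2 hne))
    rw [hD, h3, mul_zero]
  · intro h3
    exact absurd (Finset.empty_mem_powerset _) h3

end ErgM

open ErgM

theorem specErg (hC : SpecCorr) (hF : SpecFlow) : SpecErg := by
  intro s hs hinv
  have hbase : ∀ (N : ℕ) (b : Fin (h N) × (I N → ZMod 2)),
      mΩ (s ∩ Ph N ⁻¹' {b}) = mΩ s * mΩ (Ph N ⁻¹' {b}) := by
    intro N b
    have h1 := basic hC hF s hs hinv N b
    have h2 := basic hC hF Set.univ MeasurableSet.univ Set.preimage_univ N b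
    rw [Set.univ_inter, measure_univ, ENNReal.toReal_one] at h2
    rw [← ENNReal.toReal_eq_toReal_iff' (measure_ne_top _ _)
      (ENNReal.mul_ne_top (measure_ne_top _ _) (measure_ne_top _ _)), ENNReal.toReal_mul, h1, h2]
    ring
  have hmeas : mΩ.restrict s = mΩ s • mΩ := by
    have : IsFiniteMeasure (mΩ.restrict s) := inferInstance
    refine ext_of_generate_finite Cs (gen_eq hF) (Cs_pi hF) ?_ ?_
    · rintro S ⟨N, hS⟩
      have hS' : S = Ph N ⁻¹' (↑(Set.toFinite (Ph N '' S)).toFinset) := by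
        rw [Set.Finite.coe_toFinset]
        ext ω
        constructor
        · exact fun hω => ⟨ω, hω, rfl⟩
        · rintro ⟨ω', hω', hb⟩
          exact hS ω' ω hb hω'
      rw [hS', ← sum_measure_preimage_singleton _ (fun b _ => meas_Ph hF N b),
        ← sum_measure_preimage_singleton _ (fun b _ => meas_Ph hF N b)]
      refine Finset.sum_congr rfl fun b _ => ?_
      rw [Measure.restrict_apply (meas_Ph hF N b), Set.inter_comm, hbase N b,
        Measure.smul_apply, smul_eq_mul]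
    · rw [Measure.restrict_apply MeasurableSet.univ, Set.univ_inter, Measure.smul_apply,
        measure_univ, smul_eq_mul, mul_one]
  have h1 : mΩ.restrict s sᶜ = (mΩ s • mΩ) sᶜ := by rw [hmeas]
  rw [Measure.restrict_apply hs.compl, Set.compl_inter_self, measure_empty, Measure.smul_apply,
    smul_eq_mul] at h1
  rcases mul_eq_zero.1 h1.symm with h2 | h2
  · exact Or.inl h2
  · exact Or.inr h2

end MP195885
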