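import Pool.Agent.Lib.MP_195885_an.Spec

/-!
# MP_195885_an: modules Flow and Hb
-/

open MeasureTheory Filter Topology Set

namespace MP195885

namespace FlowM

/-! ### algebra of the fibre group -/

theorem z2_add (x : ZMod 2) : x + x = 0 := CharTwo.add_self_eq_zero x

theorem K_add (x : K) : x + x = 0 := by
  apply Prod.ext
  · exact z2_add _
  · funext k i
    exact z2_add _

theorem K_add_cancel (x y : K) : x + y + y = x := by rw [add_assoc, K_add, add_zero]

theorem dot_add (n β : ℕ) (w w' : Fin n → ZMod 2) : dot n β (w + w') = dot n β w + dot n β w' := by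
  unfold dot
  rw [← Finset.sum_add_distrib]
  apply Finset.sum_congr rfl
  intro i _
  split_ifs <;> simp

theorem dot_zero (n β : ℕ) : dot n β 0 = 0 := by
  unfold dot
  apply Finset.sum_eq_zero
  intro i _
  simp

theorem tr_add (n k : ℕ) (w w' : Fin n → ZMod 2) : tr n k (w + w') = tr n k w + tr n k w' := by
  funext i
  unfold tr
  by_cases hi : (i : ℕ) < n
  · simp [hi]
  · simp [hi]

theorem tr_zero (n k : ℕ) : tr n k 0 = 0 := by
  funext i
  unfold tr
  by_cases hi : (i : ℕ) < n <;> simp [hi]

theorem single_add (k : ℕ) (w w' : Fin k → ZMod 2) : single k (w + w') = single k w + single k w' := by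
  unfold single
  apply Prod.ext
  · simp
  · simp [Pi.single_add]

theorem single_zero (k : ℕ) : single k 0 = 0 := by
  unfold single
  apply Prod.ext <;> simp

theorem single_of_zero {k : ℕ} (hk : k = 0) (w : Fin k → ZMod 2) : single k w = 0 := by
  subst hk
  have : w = 0 := by
    funext i
    exact i.elim0
  rw [this, single_zero]

theorem con_add (n a : ℕ) (w w' : Fin n → ZMod 2) : con n a (w + w') = con n a w + con n a w' := by
  unfold con
  split_ifs
  · rw [tr_add, single_add]
  · rw [dot_add]
    apply Prod.ext <;> simp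
  · simp

theorem con_zero (n a : ℕ) : con n a 0 = 0 := by
  unfold con
  split_ifs
  · rw [tr_zero, single_zero]
  · rw [dot_zero]
    rfl
  · rfl

theorem kappa_lt {n : ℕ} (hn : 1 ≤ n) : κ n < n := by
  unfold κ
  exact Nat.unpair_lt hn

theorem single_apply_ne {k j : ℕ} (w : Fin k → ZMod 2) (h : j ≠ k) : (single k w).2 j = 0 := by
  unfold single
  simp [Pi.single_eq_of_ne h]

theorem single_apply_self {k : ℕ} (w : Fin k → ZMod 2) : (single k w).2 k = w := by
  unfold single
  simp

/-- contributions of level `n` only have components below `n` -/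
theorem con_apply {n j : ℕ} (a : ℕ) (w : Fin n → ZMod 2) (h : n ≤ j) : (con n a w).2 j = 0 := by
  unfold con
  split_ifs with h1 h2
  · apply single_apply_ne
    have := kappa_lt h1.1
    omega
  · rfl
  · rfl

theorem con_even {n a : ℕ} (w : Fin n → ZMod 2) (h : a % 2 = 0) : con n a w = 0 := by
  unfold con
  rw [if_neg, if_neg]
  · rintro ⟨h1, -⟩
    omega
  · rintro ⟨-, h1, -⟩
    omega

theorem con_level_zero (a : ℕ) (w : Fin 0 → ZMod 2) : con 0 a w = 0 := by
  have : w = 0 := by
    funext i
    exact i.elim0
  rw [this, con_zero]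

theorem cut_add (n : ℕ) (v v' : K) : cut n (v + v') = cut n v + cut n v' := by
  unfold cut
  apply Prod.ext
  · simp
  · funext k
    by_cases hk : k < n <;> simp [hk]

theorem cut_zero (n : ℕ) : cut n 0 = 0 := by
  unfold cut
  apply Prod.ext
  · simp
  · funext k
    simp

/-- `cut` as a homomorphism -/
def cutHom (n : ℕ) : K →+ K where
  toFun := cut n
  map_zero' := cut_zero n
  map_add' := cut_add n

theorem cut_of {n : ℕ} {v : K} (h : ∀ k, n ≤ k → v.2 k = 0) : cut n v = v := by
  unfold cut
  apply Prod.ext
  · rfl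
  · funext k
    by_cases hk : k < n
    · simp [hk]
    · simp [hk, h k (not_lt.mp hk)]

theorem cut_con {n m : ℕ} (h : m ≤ n) (a : ℕ) (w : Fin m → ZMod 2) :
    cut n (con m a w) = con m a w := cut_of fun _ hk => con_apply a w (h.trans hk)

theorem cut_cut {n m : ℕ} (h : n ≤ m) (v : K) : cut n (cut m v) = cut n v := by
  unfold cut
  apply Prod.ext
  · rfl
  · funext k
    by_cases hk : k < n
    · simp [hk, lt_of_lt_of_le hk h]
    · simp [hk]

theorem cut_succ (n : ℕ) (v : K) : cut (n + 1) v = cut n v + single n (v.2 n) := by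
  unfold cut
  apply Prod.ext
  · simp [single]
  · funext k
    rcases lt_trichotomy k n with hk | hk | hk
    · have h1 : (single n (v.2 n)).2 k = 0 := single_apply_ne _ hk.ne
      simp [hk, Nat.lt_succ_of_lt hk, h1]
    · subst hk
      simp [single_apply_self]
    · have h1 : (single n (v.2 n)).2 k = 0 := single_apply_ne _ hk.ne'
      have h2 : ¬ k < n + 1 := by omega
      have h3 : ¬ k < n := by omega
      simp [h1, h2, h3]

theorem snd_sum (s : Finset ℕ) (F : ℕ → K) (j : ℕ) : (∑ m ∈ s, F m).2 j = ∑ m ∈ s, (F m).2 j := by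
  rw [Prod.snd_sum, Finset.sum_apply]

/-! ### contents -/

theorem Vv_add (n : ℕ) (z : Z) (k k' : K) : Vv n z (k + k') = Vv n z k + Vv n z k' := by
  unfold Vv
  rw [cut_add]
  have : ∑ m ∈ Finset.range n, con m (dig m z) ((k + k').2 m) =
      ∑ m ∈ Finset.range n, con m (dig m z) (k.2 m) +
        ∑ m ∈ Finset.range n, con m (dig m z) (k'.2 m) := by
    rw [← Finset.sum_add_distrib]
    apply Finset.sum_congr rfl
    intro m _
    exact con_add _ _ _ _
  rw [this]
  abel

theorem Vv_top (n : ℕ) (z : Z) (k : K) {j : ℕ} (hj : n ≤ j + 1) :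
    (Vv n z k).2 j = if j < n then k.2 j else 0 := by
  unfold Vv
  rw [Prod.snd_add, Pi.add_apply, snd_sum, Finset.sum_eq_zero]
  · simp [cut]
  · intro m hm
    have := Finset.mem_range.mp hm
    exact con_apply _ _ (by omega)

/-- F1 -/
theorem Vv_down (n : ℕ) (z : Z) (k : K) : Vv n z k = f n (dig n z) (Vv (n + 1) z k) := by
  have h1 : (Vv (n + 1) z k).2 n = k.2 n := by
    rw [Vv_top (n + 1) z k (by omega : n + 1 ≤ n + 1)]
    simp
  have h2 : cut n (Vv (n + 1) z k) = cut n k +
      ∑ m ∈ Finset.range (n + 1), con m (dig m z) (k.2 m) := by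
    unfold Vv
    rw [cut_add, cut_cut (Nat.le_succ n)]
    congr 1
    have := map_sum (cutHom n) (fun m => con m (dig m z) (k.2 m)) (Finset.range (n + 1))
    change cut n _ = _ at this
    rw [this]
    apply Finset.sum_congr rfl
    intro m hm
    exact cut_con (Nat.lt_succ_iff.mp (Finset.mem_range.mp hm)) _ _
  unfold f
  rw [h1, h2, Finset.sum_range_succ, ← add_assoc, K_add_cancel]
  rfl

/-! ### digits -/

theorem pos_lt (n : ℕ) (z : Z) : pos n z < h n := (isClock_pos z).lt n

theorem pos_succ (n : ℕ) (z : Z) : pos (n + 1) z = dig n z * h n + pos n z := by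
  have h1 : pos (n + 1) z % h n = pos n z := (isClock_pos z).mod n
  have h2 := Nat.div_add_mod (pos (n + 1) z) (h n)
  rw [h1] at h2
  unfold dig
  rw [mul_comm]
  exact h2.symm

theorem dig_lt (n : ℕ) (z : Z) : dig n z < q n := by
  unfold dig
  rw [Nat.div_lt_iff_lt_mul (h_pos n), mul_comm, ← h_succ]
  exact pos_lt _ z

theorem pos_zero (z : Z) : pos 0 z = 0 := by
  have := pos_lt 0 z
  rw [h_zero] at this
  omega

theorem all_max {n : ℕ} {z : Z} (hn : ∀ j < n, ¬ dig j z + 1 < q j) : pos n z + 1 = h n := by
  induction n with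
  | zero => rw [pos_zero, h_zero]
  | succ n ih =>
    have h1 := ih fun j hj => hn j (by omega)
    have h2 := hn n (by omega)
    have h3 := dig_lt n z
    have h4 : dig n z + 1 = q n := by omega
    rw [pos_succ, add_assoc, h1, h_succ, ← h4]
    ring

theorem pos_lt_of {n m : ℕ} {z : Z} (hm : dig m z + 1 < q m) (hmn : m < n) : pos n z + 1 < h n := by
  induction n with
  | zero => omega
  | succ n ih =>
    rw [pos_succ, h_succ]
    rcases Nat.lt_or_ge m n with h1 | h1
    · have h2 := ih h1
      have h3 := dig_lt n z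
      calc dig n z * h n + pos n z + 1 < dig n z * h n + h n := by omega
        _ = (dig n z + 1) * h n := by ring
        _ ≤ q n * h n := Nat.mul_le_mul_right _ h3
        _ = h n * q n := mul_comm _ _
    · have : m = n := by omega
      subst this
      have h2 := pos_lt m z
      calc dig m z * h m + pos m z + 1 ≤ dig m z * h m + h m := by omega
        _ = (dig m z + 1) * h m := by ring
        _ < q m * h m := Nat.mul_lt_mul_of_pos_right hm (h_pos m)
        _ = h m * q m := mul_comm _ _

/-- the digits of `z + 1` -/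
theorem carry_spec {n : ℕ} {z : Z} (hn : pos n z + 1 < h n) :
    carry z < n ∧ (∀ j < carry z, dig j z + 1 = q j) ∧
      (∀ j < carry z, dig j (z + oneZ) = 0) ∧
      dig (carry z) (z + oneZ) = dig (carry z) z + 1 ∧
      ∀ j, carry z < j → dig j (z + oneZ) = dig j z := by
  have hex : ∃ m, m < n ∧ dig m z + 1 < q m := by
    by_contra hcon
    push Not at hcon
    have := all_max (n := n) (z := z) fun j hj => by
      have := hcon j hj
      omega
    omega
  obtain ⟨m, hmn, hm⟩ := hex
  have hne : {m | dig m z + 1 < q m}.Nonempty := ⟨m, hm⟩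
  have hc : dig (carry z) z + 1 < q (carry z) := Nat.sInf_mem hne
  have hle : carry z ≤ m := Nat.sInf_le hm
  have hlow : ∀ j < carry z, ¬ dig j z + 1 < q j := fun j hj =>
    Nat.notMem_of_lt_sInf (s := {m | dig m z + 1 < q m}) hj
  have hp : ∀ j ≤ carry z, pos j z + 1 = h j := fun j hj =>
    all_max fun i hi => hlow i (by omega)
  have hp' : ∀ j ≤ carry z, pos j (z + oneZ) = 0 := fun j hj => by
    rw [pos_add_one, hp j hj, Nat.mod_self]
  have hq : ∀ j, carry z < j → pos j (z + oneZ) = pos j z + 1 := fun j hj => by
    rw [pos_add_one, Nat.mod_eq_of_lt (pos_lt_of hc hj)]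
  refine ⟨by omega, fun j hj => ?_, fun j hj => ?_, ?_, fun j hj => ?_⟩
  · have := hlow j hj
    have := dig_lt j z
    omega
  · unfold dig
    rw [hp' (j + 1) hj, Nat.zero_div]
  · have h1 := hq (carry z + 1) (by omega)
    have h2 := hp (carry z) le_rfl
    unfold dig
    rw [h1, pos_succ, add_assoc, h2]
    have h3 : dig (carry z) z * h (carry z) + h (carry z) = (dig (carry z) z + 1) * h (carry z) := by
      ring
    rw [h3, Nat.mul_div_cancel _ (h_pos _)]
    congr 1
    rw [← pos_succ]
    rfl
  · have h1 := hq (j + 1) (by omega)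
    have h2 := pos_lt_of hc hj
    have h3 := pos_succ j z
    have h4 : dig j (z + oneZ) = (dig j z * h j + (pos j z + 1)) / h j := by
      change pos (j + 1) (z + oneZ) / h j = _
      rw [h1, h3, add_assoc]
    rw [h4, mul_comm, Nat.mul_add_div (h_pos j), Nat.div_eq_of_lt h2, add_zero]

theorem A_apply {z : Z} {k : K} {j : ℕ} (hj : carry z ≤ j) : (A z k).2 j = k.2 j := by
  unfold A
  rw [Prod.snd_add, Prod.snd_add, Pi.add_apply, Pi.add_apply, con_apply _ _ hj, con_apply _ _ hj]
  simp

theorem q_even (n : ℕ) : (q n - 1) % 2 = 0 := by unfold q; omega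

/-- F2 -/
theorem Vv_step {n : ℕ} {z : Z} (hn : pos n z + 1 < h n) (k : K) :
    Vv n (z + oneZ) (A z k) = Vv n z k := by
  obtain ⟨h1, h2, h3, h4, h5⟩ := carry_spec hn
  set m := carry z with hm
  set c : K := con m (dig m z) (k.2 m) + con m (dig m z + 1) (k.2 m) with hc
  have hA : A z k = k + c := by
    rw [hc, ← add_assoc]
    rfl
  have hcut : cut n (A z k) = cut n k + c := by
    rw [hA, cut_add, hc, cut_add, cut_con h1.le, cut_con h1.le]
  have hterm : ∀ j ∈ Finset.range n, con j (dig j (z + oneZ)) ((A z k).2 j) =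
      con j (dig j z) (k.2 j) + if j = m then c else 0 := by
    intro j _
    rcases lt_trichotomy j m with hj | hj | hj
    · rw [h3 j hj, if_neg hj.ne, add_zero, con_even _ (by norm_num), con_even]
      have := h2 j hj
      have h6 := q_even j
      have : dig j z = q j - 1 := by omega
      rw [this]
      exact h6
    · subst hj
      rw [h4, if_pos rfl, A_apply le_rfl, hc, ← add_assoc, K_add, zero_add]
    · rw [h5 j hj, if_neg hj.ne', add_zero, A_apply hj.le]
  unfold Vv
  rw [hcut, Finset.sum_congr rfl hterm, Finset.sum_add_distrib, Finset.sum_ite_eq',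
    if_pos (Finset.mem_range.mpr h1)]
  have : cut n k + c + (∑ j ∈ Finset.range n, con j (dig j z) (k.2 j) + c) =
      (cut n k + ∑ j ∈ Finset.range n, con j (dig j z) (k.2 j)) + (c + c) := by abel
  rw [this, K_add, add_zero]

theorem pos_iter (p n : ℕ) (ω : Z × K) :
    pos n (Tt^[p] ω).1 = cpos (fun n => pos n ω.1) n p := by
  induction p with
  | zero =>
    simp only [Function.iterate_zero, id_eq, cpos, add_zero]
    exact (Nat.mod_eq_of_lt (pos_lt n ω.1)).symm
  | succ p ih =>
    rw [Function.iterate_succ_apply']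
    change pos n ((Tt^[p] ω).1 + oneZ) = _
    rw [pos_add_one, ih]
    unfold cpos
    rw [Nat.mod_add_mod]
    rfl

theorem dig_iter (p n : ℕ) (ω : Z × K) :
    dig n (Tt^[p] ω).1 = cdig (fun n => pos n ω.1) n p := by
  unfold dig cdig
  rw [pos_iter]

theorem A_add (z : Z) (k k' : K) : A z (k + k') = A z k + A z k' := by
  unfold A
  have h1 : ∀ a, con (carry z) a ((k + k').2 (carry z)) =
      con (carry z) a (k.2 (carry z)) + con (carry z) a (k'.2 (carry z)) := fun a =>
    con_add _ _ _ _
  rw [h1, h1]
  abel

theorem flow_succ (z : Z) (k : K) (p n : ℕ) : flow (z, k) (p + 1) n = flow (z + oneZ, A z k) p n := by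
  unfold flow
  rw [Function.iterate_succ_apply]
  rfl

/-! ### measurability -/

theorem meas_pos (n : ℕ) : Measurable fun z : Z => pos n z := by
  have h1 : Measurable fun z : Z => z.1 n := (measurable_pi_apply n).comp measurable_subtype_coe
  exact (Measurable.of_discrete (f := fun x : ZMod (h n) => x.val)).comp h1

theorem meas_dig (n : ℕ) : Measurable fun z : Z => dig n z :=
  (Measurable.of_discrete (f := fun x : ℕ => x / h n)).comp (meas_pos (n + 1))

theorem meas_carry : Measurable carry := by
  apply measurable_to_countable'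
  intro c
  have hs : ∀ j, MeasurableSet {z : Z | dig j z + 1 < q j} := fun j =>
    meas_dig j (MeasurableSet.of_discrete (s := {a : ℕ | a + 1 < q j}))
  have h1 : carry ⁻¹' {c} = ({z : Z | dig c z + 1 < q c} ∩ ⋂ j ∈ {j : ℕ | j < c},
      {z : Z | dig j z + 1 < q j}ᶜ) ∪ ({z : Z | c = 0} ∩ ⋂ j, {z : Z | dig j z + 1 < q j}ᶜ) := by
    ext z
    simp only [mem_preimage, mem_singleton_iff, mem_union, mem_inter_iff, mem_ofPred_eq,
      mem_iInter, mem_compl_iff]
    constructor
    · intro hz
      by_cases hne : {m | dig m z + 1 < q m}.Nonempty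
      · left
        have h2 : dig (carry z) z + 1 < q (carry z) := Nat.sInf_mem hne
        rw [hz] at h2
        refine ⟨h2, fun j hj => ?_⟩
        rw [← hz] at hj
        exact Nat.notMem_of_lt_sInf (s := {m | dig m z + 1 < q m}) hj
      · right
        rw [not_nonempty_iff_eq_empty] at hne
        have h3 : carry z = 0 := by
          unfold carry
          rw [hne, Nat.sInf_empty]
        refine ⟨by rw [← hz, h3], fun j hj => ?_⟩
        have : j ∈ {m | dig m z + 1 < q m} := hj
        rw [hne] at this
        exact this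
    · rintro (⟨h2, h3⟩ | ⟨h2, h3⟩)
      · apply le_antisymm
        · exact Nat.sInf_le h2
        · by_contra hlt
          rw [not_le] at hlt
          exact h3 _ hlt (Nat.sInf_mem (s := {m | dig m z + 1 < q m}) ⟨c, h2⟩)
      · have hne : {m | dig m z + 1 < q m} = ∅ := by
          ext j
          simp only [mem_ofPred_eq, mem_empty_iff_false, iff_false]
          exact h3 j
        unfold carry
        rw [hne, Nat.sInf_empty, h2]
  rw [h1]
  refine ((hs c).inter ?_).union (MeasurableSet.inter ?_ ?_)
  · exact MeasurableSet.biInter (Set.to_countable _) fun j _ => (hs j).compl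
  · exact MeasurableSet.const _
  · exact MeasurableSet.iInter fun j => (hs j).compl

theorem meas_comp (m : ℕ) : Measurable fun k : K => k.2 m :=
  (measurable_pi_apply m).comp measurable_snd

theorem meas_con (m : ℕ) : Measurable fun x : ℕ × (Fin m → ZMod 2) => con m x.1 x.2 :=
  Measurable.of_discrete

theorem meas_con' (m : ℕ) {Ω : Type*} [MeasurableSpace Ω] {a : Ω → ℕ} {k : Ω → K}
    (ha : Measurable a) (hk : Measurable k) : Measurable fun ω => con m (a ω) ((k ω).2 m) :=
  (meas_con m).comp (ha.prodMk ((meas_comp m).comp hk))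

theorem meas_cut (n : ℕ) : Measurable (cut n) := by
  unfold cut
  refine measurable_fst.prodMk (measurable_pi_lambda _ fun k => ?_)
  by_cases hk : k < n
  · simp only [hk, if_true]
    exact meas_comp k
  · simp only [hk, if_false]
    exact measurable_const

theorem meas_A : Measurable fun ω : Z × K => A ω.1 ω.2 := by
  have h1 : Measurable fun x : ℕ × (Z × K) => x.2.2 + con x.1 (dig x.1 x.2.1) (x.2.2.2 x.1)
      + con x.1 (dig x.1 x.2.1 + 1) (x.2.2.2 x.1) := by
    apply measurable_from_prod_countable_right
    intro c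
    have hd : Measurable fun ω : Z × K => dig c ω.1 := (meas_dig c).comp measurable_fst
    have hd' : Measurable fun ω : Z × K => dig c ω.1 + 1 :=
      (Measurable.of_discrete (f := fun x : ℕ => x + 1)).comp hd
    exact (measurable_snd.add (meas_con' c hd measurable_snd)).add
      (meas_con' c hd' measurable_snd)
  exact h1.comp ((meas_carry.comp measurable_fst).prodMk measurable_id)

theorem meas_Tt : Measurable Tt := by
  refine Measurable.prodMk ?_ meas_A
  have : Continuous fun z : Z => z + oneZ := continuous_id.add continuous_const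
  exact this.measurable.comp measurable_fst

theorem meas_Vv (n : ℕ) : Measurable fun ω : Z × K => Vv n ω.1 ω.2 := by
  unfold Vv
  refine ((meas_cut n).comp measurable_snd).add (Finset.measurable_fun_sum _ fun m _ => ?_)
  exact meas_con' m ((meas_dig m).comp measurable_fst) measurable_snd

end FlowM

/-- MODULE Flow -/
theorem specFlow : SpecFlow := by
  refine ⟨fun ω => ⟨fun p n => ?_, fun p n hp => ?_⟩, fun z k k' p n => ?_, fun p n => ?_⟩
  · unfold flow
    rw [← FlowM.dig_iter]
    exact FlowM.Vv_down n _ _
  · rw [← FlowM.pos_iter] at hp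
    unfold flow
    rw [Function.iterate_succ_apply']
    exact FlowM.Vv_step hp _
  · induction p generalizing z k k' with
    | zero => exact FlowM.Vv_add n z k k'
    | succ p ih =>
      rw [FlowM.flow_succ, FlowM.flow_succ, FlowM.flow_succ, FlowM.A_add]
      exact ih _ _ _
  · unfold flow
    exact (FlowM.meas_Vv n).comp (FlowM.meas_Tt.iterate p)

/-- MODULE Hb -/
theorem specHb : SpecHb := by
  intro z ℓ hmono h0 hκ hs b
  have hk1 : ∀ i, (hb ℓ b).2 (ℓ i) = fun j : Fin (ℓ i) => b j := by
    intro i
    have : ℓ i ∈ Set.range ℓ := ⟨i, rfl⟩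
    simp [hb, this]
  have hk2 : ∀ n, n ∉ Set.range ℓ → (hb ℓ b).2 n = 0 := by
    intro n hn
    simp only [hb]
    rw [if_neg hn]
  have hsucc : ∀ n, Vv (n + 1) z (hb ℓ b) = Vv n z (hb ℓ b) + single n ((hb ℓ b).2 n) +
      con n (dig n z) ((hb ℓ b).2 n) := by
    intro n
    unfold Vv
    rw [Finset.sum_range_succ, FlowM.cut_succ]
    abel
  have key : ∀ n i, ℓ i < n → n ≤ ℓ (i + 1) → Vv n z (hb ℓ b) = single (ℓ i) (fun j => b j) := by
    intro n
    induction n with
    | zero => intro i hi; omega
    | succ n ih =>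
      intro i hi1 hi2
      rcases Nat.lt_or_ge (ℓ i) n with h1 | h1
      · have hn : n ∉ Set.range ℓ := by
          rintro ⟨i', rfl⟩
          have h2 : i < i' := hmono.lt_iff_lt.mp h1
          have h3 : i' < i + 1 := hmono.lt_iff_lt.mp (by omega)
          omega
        rw [hsucc, hk2 n hn, FlowM.single_zero, FlowM.con_zero, add_zero, add_zero]
        exact ih i h1 (by omega)
      · have h2 : ℓ i = n := by omega
        rcases i with _ | i
        · rw [h0] at h2
          subst h2
          rw [hsucc, FlowM.con_level_zero, add_zero]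
          have h3 : Vv 0 z (hb ℓ b) = 0 := by
            unfold Vv
            simp [cut, hb]
            rfl
          rw [h3, zero_add, FlowM.single_of_zero rfl, FlowM.single_of_zero h0]
        · subst h2
          have h3 := ih i (hmono (Nat.lt_succ_self i)) le_rfl
          rw [hsucc, h3, hk1]
          have h4 : con (ℓ (i + 1)) (dig (ℓ (i + 1)) z) (fun j => b j) =
              single (ℓ i) (fun j => b j) := by
            unfold con
            rw [if_pos (hs i), hκ i]
            congr 1
            funext j
            unfold tr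
            have : (j : ℕ) < ℓ (i + 1) := j.2.trans (hmono (Nat.lt_succ_self i))
            simp [this]
          rw [h4]
          have h5 : single (ℓ i) (fun j => b j) + single (ℓ (i + 1)) (fun j => b j) +
              single (ℓ i) (fun j => b j) = single (ℓ (i + 1)) (fun j => b j) +
              (single (ℓ i) (fun j => b j) + single (ℓ i) (fun j => b j)) := by abel
          rw [h5, FlowM.K_add, add_zero]
  exact fun i n => key n i

end MP195885
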