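import Pool.Agent.Lib.MP_195885_an.Spec

/-!
# Basic lemmas on contents, clocks and flows
-/

namespace MP195885

/-! ### Characteristic two -/

theorem K.add_self (x : K) : x + x = 0 := by
  refine Prod.ext (CharTwo.add_self_eq_zero _) ?_
  funext k i
  exact CharTwo.add_self_eq_zero _

theorem K.neg_eq (x : K) : -x = x := neg_eq_of_add_eq_zero_left (K.add_self x)

theorem K.sub_eq (x y : K) : x - y = x + y := by rw [sub_eq_add_neg, K.neg_eq]

theorem K.add_eq_zero_iff (x y : K) : x + y = 0 ↔ x = y := by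
  rw [← K.sub_eq, sub_eq_zero]

theorem zmod2_ne_zero {x : ZMod 2} (hx : x ≠ 0) : x = 1 := by
  revert x; decide

/-! ### Linear maps -/

theorem dot_zero (n β : ℕ) : dot n β 0 = 0 := by simp [dot]

theorem dot_add (n β : ℕ) (w w' : Fin n → ZMod 2) : dot n β (w + w') = dot n β w + dot n β w' := by
  unfold dot
  rw [← Finset.sum_add_distrib]
  refine Finset.sum_congr rfl fun i _ => ?_
  split <;> simp

theorem tr_zero (n k : ℕ) : tr n k 0 = 0 := by
  funext i; unfold tr; split <;> rfl

theorem tr_add (n k : ℕ) (w w' : Fin n → ZMod 2) : tr n k (w + w') = tr n k w + tr n k w' := by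
  funext i; simp only [tr, Pi.add_apply]; split <;> simp

theorem single_zero (k : ℕ) : single k 0 = 0 := by simp [single]

theorem single_add (k : ℕ) (w w' : Fin k → ZMod 2) :
    single k (w + w') = single k w + single k w' := by
  simp [single, Pi.single_add]

theorem single_fst (k : ℕ) (w : Fin k → ZMod 2) : (single k w).1 = 0 := rfl

theorem single_snd_self (k : ℕ) (w : Fin k → ZMod 2) : (single k w).2 k = w := by
  simp [single]

theorem single_snd_ne {k m : ℕ} (hm : m ≠ k) (w : Fin k → ZMod 2) : (single k w).2 m = 0 := by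
  simp [single, Pi.single_eq_of_ne hm]

theorem single_eq_zero_iff (k : ℕ) (w : Fin k → ZMod 2) : single k w = 0 ↔ w = 0 := by
  constructor
  · intro hw
    have := congrArg (fun v : K => v.2 k) hw
    simpa [single_snd_self] using this
  · rintro rfl; exact single_zero k

theorem con_zero (n a : ℕ) : con n a 0 = 0 := by
  unfold con
  rw [tr_zero, single_zero, dot_zero]
  split
  · rfl
  · split <;> rfl

theorem con_add (n a : ℕ) (w w' : Fin n → ZMod 2) : con n a (w + w') = con n a w + con n a w' := by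
  unfold con
  rw [tr_add, single_add, dot_add]
  split
  · rfl
  · split
    · ext <;> simp
    · simp

theorem con_special {n a : ℕ} (ha : Special n a) (w : Fin n → ZMod 2) :
    con n a w = single (κ n) (tr n (κ n) w) := by
  unfold con; rw [if_pos ha]

theorem q_eq (n : ℕ) : q n = 4 * M n + 1 := rfl

theorem L_pos (n : ℕ) : 0 < L n := by unfold L; omega

theorem one_lt_L {n : ℕ} (hn : 1 ≤ n) : 1 < L n := by
  unfold L
  have : 0 < Nat.sqrt n := Nat.sqrt_pos.mpr hn
  omega

theorem M_pos (n : ℕ) : 0 < M n := by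
  unfold M; exact Nat.mul_pos (by positivity) (L_pos n)

theorem two_pow_le_M (n : ℕ) : 2 ^ n ≤ M n := by
  unfold M; exact Nat.le_mul_of_pos_right _ (L_pos n)

theorem two_mul_two_pow_le_M {n : ℕ} (hn : 1 ≤ n) : 2 * 2 ^ n ≤ M n := by
  unfold M
  rw [mul_comm 2]
  exact Nat.mul_le_mul_left _ (one_lt_L hn)

theorem five_le_q (n : ℕ) : 5 ≤ q n := by
  have := M_pos n; unfold q; omega

theorem seventeen_le_q {n : ℕ} (hn : 1 ≤ n) : 17 ≤ q n := by
  have h1 := two_mul_two_pow_le_M hn
  have h2 : 2 ^ 1 ≤ 2 ^ n := Nat.pow_le_pow_right (by norm_num) hn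
  unfold q; omega

/-- special and hit digits are disjoint -/
theorem not_hit_of_special {n a : ℕ} (ha : Special n a) : ¬ Hit n a := by
  rintro ⟨_, h2⟩
  have := two_pow_le_M n
  have := ha.2.2
  omega

theorem con_hit {n a : ℕ} (ha : Hit n a) (w : Fin n → ZMod 2) :
    con n a w = (dot n (a / 2) w, 0) := by
  unfold con
  rw [if_neg (fun hs => not_hit_of_special hs ha), if_pos ha]

theorem con_plain {n a : ℕ} (h1 : ¬ Special n a) (h2 : ¬ Hit n a) (w : Fin n → ZMod 2) :
    con n a w = 0 := by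
  unfold con; rw [if_neg h1, if_neg h2]

theorem not_special_of_even {n a : ℕ} (ha : a % 2 = 0) : ¬ Special n a := by
  rintro ⟨_, h2, _⟩; omega

theorem not_hit_of_even {n a : ℕ} (ha : a % 2 = 0) : ¬ Hit n a := by
  rintro ⟨h2, _⟩; omega

theorem con_even {n a : ℕ} (ha : a % 2 = 0) (w : Fin n → ZMod 2) : con n a w = 0 :=
  con_plain (not_special_of_even ha) (not_hit_of_even ha) w

theorem κ_lt {n : ℕ} (hn : 1 ≤ n) : κ n < n := Nat.unpair_lt hn

theorem con_snd_of_le (n a : ℕ) (w : Fin n → ZMod 2) {k : ℕ} (hk : n ≤ k) :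
    (con n a w).2 k = 0 := by
  by_cases h1 : Special n a
  · rw [con_special h1, single_snd_ne]
    have := κ_lt h1.1; omega
  · by_cases h2 : Hit n a
    · rw [con_hit h2]; rfl
    · rw [con_plain h1 h2]; rfl

/-- a contribution has at most one component -/
theorem onlyAt_con (n a : ℕ) (w : Fin n → ZMod 2) : ∃ i, OnlyAt (con n a w) i := by
  by_cases h1 : Special n a
  · refine ⟨some (κ n), ?_, ?_⟩
    · intro _; rw [con_special h1]; rfl
    · intro k hk; rw [con_special h1, single_snd_ne]; intro h3; exact hk (by rw [h3])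
  · by_cases h2 : Hit n a
    · refine ⟨none, fun h => absurd rfl h, fun k _ => ?_⟩
      rw [con_hit h2]; rfl
    · refine ⟨none, fun h => absurd rfl h, fun k _ => ?_⟩
      rw [con_plain h1 h2]; rfl

theorem con_level_zero (a : ℕ) (w : Fin 0 → ZMod 2) : con 0 a w = 0 := by
  have : w = 0 := Subsingleton.elim _ _
  rw [this, con_zero]

theorem cut_fst (n : ℕ) (v : K) : (cut n v).1 = v.1 := rfl

theorem cut_snd_lt {n k : ℕ} (hk : k < n) (v : K) : (cut n v).2 k = v.2 k := by simp [cut, hk]

theorem cut_snd_ge {n k : ℕ} (hk : n ≤ k) (v : K) : (cut n v).2 k = 0 := by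
  simp [cut, Nat.not_lt.mpr hk]

theorem cut_zero (n : ℕ) : cut n 0 = 0 := by
  refine Prod.ext rfl ?_
  funext k; simp [cut]

theorem cut_add (n : ℕ) (v v' : K) : cut n (v + v') = cut n v + cut n v' := by
  refine Prod.ext rfl ?_
  funext k; simp only [cut, Prod.snd_add, Pi.add_apply]; split <;> simp

theorem cut_of_level {n : ℕ} {v : K} (hv : ∀ k, n ≤ k → v.2 k = 0) : cut n v = v := by
  refine Prod.ext rfl ?_
  funext k; simp only [cut]
  split
  · rfl
  · rename_i hk; rw [hv k (Nat.not_lt.mp hk)]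

theorem cut_cut {m n : ℕ} (hmn : m ≤ n) (v : K) : cut m (cut n v) = cut m v := by
  refine Prod.ext rfl ?_
  funext k; simp only [cut]
  split
  · rw [if_pos (by omega)]
  · rfl

theorem f_zero (n a : ℕ) : f n a 0 = 0 := by
  have : (0 : K).2 n = 0 := rfl
  rw [f, this, cut_zero, con_zero, add_zero]

theorem f_add (n a : ℕ) (v v' : K) : f n a (v + v') = f n a v + f n a v' := by
  simp only [f, cut_add, Prod.snd_add, Pi.add_apply, con_add]; abel

theorem f_snd_of_le (n a : ℕ) (v : K) {k : ℕ} (hk : n ≤ k) : (f n a v).2 k = 0 := by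
  simp [f, con_snd_of_le n a _ hk, cut_snd_ge hk]

theorem f_even {n a : ℕ} (ha : a % 2 = 0) (v : K) : f n a v = cut n v := by
  rw [f, con_even ha, add_zero]

theorem f_of_top_zero {n : ℕ} (a : ℕ) {v : K} (hv : v.2 n = 0) : f n a v = cut n v := by
  rw [f, hv, con_zero, add_zero]

/-! ### Clocks -/

theorem mod_h_mod (n a : ℕ) : a % h (n + 1) % h n = a % h n :=
  Nat.mod_mod_of_dvd a (h_dvd n)

theorem cpos_lt (r : ℕ → ℕ) (n p : ℕ) : cpos r n p < h n := Nat.mod_lt _ (h_pos n)

theorem cpos_zero_eq {r : ℕ → ℕ} (hr : IsClock r) (n : ℕ) : cpos r n 0 = r n := by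
  unfold cpos; rw [add_zero]; exact Nat.mod_eq_of_lt (hr.lt n)

theorem cpos_add (r : ℕ → ℕ) (n p i : ℕ) : cpos r n (p + i) = (cpos r n p + i) % h n := by
  unfold cpos; rw [Nat.mod_add_mod, add_assoc]

theorem cpos_succ (r : ℕ → ℕ) (n p : ℕ) : cpos r n (p + 1) = (cpos r n p + 1) % h n :=
  cpos_add r n p 1

theorem cpos_mod {r : ℕ → ℕ} (hr : IsClock r) (n p : ℕ) :
    cpos r (n + 1) p % h n = cpos r n p := by
  unfold cpos
  rw [mod_h_mod, Nat.add_mod, hr.mod n, Nat.add_mod_mod]

theorem cdig_lt (r : ℕ → ℕ) (n p : ℕ) : cdig r n p < q n := by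
  unfold cdig
  rw [Nat.div_lt_iff_lt_mul (h_pos n), mul_comm, ← h_succ]
  exact cpos_lt r (n + 1) p

theorem cpos_succ_level {r : ℕ → ℕ} (hr : IsClock r) (n p : ℕ) :
    cpos r (n + 1) p = cdig r n p * h n + cpos r n p := by
  unfold cdig
  rw [← cpos_mod hr n p, mul_comm]
  exact (Nat.div_add_mod _ _).symm

theorem cpos_add_of_lt (r : ℕ → ℕ) {n p i : ℕ} (hi : cpos r n p + i < h n) :
    cpos r n (p + i) = cpos r n p + i := by
  rw [cpos_add, Nat.mod_eq_of_lt hi]

theorem cpos_add_of_zero (r : ℕ → ℕ) {n p i : ℕ} (hp : cpos r n p = 0) (hi : i < h n) :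
    cpos r n (p + i) = i := by
  rw [cpos_add_of_lt r (by omega), hp, zero_add]

/-- Inside a block the content is constant. -/
theorem IsFlow.const {r : ℕ → ℕ} {g : ℕ → ℕ → K} (hg : IsFlow r g) {n p i : ℕ}
    (hi : cpos r n p + i < h n) : g (p + i) n = g p n := by
  induction i with
  | zero => rfl
  | succ i ih =>
    have h1 : cpos r n (p + i) = cpos r n p + i := cpos_add_of_lt r (by omega)
    rw [← add_assoc, hg.step (p + i) n (by omega), ih (by omega)]

theorem IsFlow.const_of_zero {r : ℕ → ℕ} {g : ℕ → ℕ → K} (hg : IsFlow r g) {n p i : ℕ}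
    (hp : cpos r n p = 0) (hi : i < h n) : g (p + i) n = g p n :=
  hg.const (by omega)

theorem IsFlow.level {r : ℕ → ℕ} {g : ℕ → ℕ → K} (hg : IsFlow r g) (p n : ℕ) {k : ℕ}
    (hk : n ≤ k) : (g p n).2 k = 0 := by
  rw [hg.down p n]; exact f_snd_of_le _ _ _ hk

theorem IsFlow.cut_eq {r : ℕ → ℕ} {g : ℕ → ℕ → K} (hg : IsFlow r g) (p n : ℕ) :
    cut n (g p n) = g p n := cut_of_level fun _ hk => hg.level p n hk

theorem IsFlow.zero_down {r : ℕ → ℕ} {g : ℕ → ℕ → K} (hg : IsFlow r g) {p n m : ℕ}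
    (hmn : m ≤ n) (h0 : g p n = 0) : g p m = 0 := by
  induction n, hmn using Nat.le_induction with
  | base => exact h0
  | succ n hmn ih =>
    apply ih
    rw [hg.down p n, h0, f_zero]

/-- The consecutive subblocks of level `n` of an `(n+1)`-block. -/
theorem sub_block {r : ℕ → ℕ} (hr : IsClock r) {n p b : ℕ}
    (hp : cpos r n p = 0) (hb : cdig r n p + b < q n) :
    cpos r n (p + b * h n) = 0 ∧ cdig r n (p + b * h n) = cdig r n p + b ∧
      cpos r (n + 1) p + b * h n < h (n + 1) := by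
  have h1 : cpos r (n + 1) p = cdig r n p * h n := by
    rw [cpos_succ_level hr, hp, add_zero]
  have h2 : cpos r (n + 1) p + b * h n < h (n + 1) := by
    rw [h1, ← add_mul, h_succ, mul_comm (h n)]
    exact Nat.mul_lt_mul_of_pos_right hb (h_pos n)
  refine ⟨?_, ?_, h2⟩
  · rw [cpos_add, hp, zero_add, Nat.mul_mod_left]
  · unfold cdig
    rw [cpos_add_of_lt r h2]
    rw [Nat.add_mul_div_right _ _ (h_pos n)]

theorem IsFlow.sub_block {r : ℕ → ℕ} {g : ℕ → ℕ → K} (hr : IsClock r) (hg : IsFlow r g)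
    {n p b : ℕ} (hp : cpos r n p = 0) (hb : cdig r n p + b < q n) :
    g (p + b * h n) (n + 1) = g p (n + 1) ∧
      g (p + b * h n) n = f n (cdig r n p + b) (g p (n + 1)) := by
  obtain ⟨_, h2, h3⟩ := MP195885.sub_block hr hp hb
  have h4 : g (p + b * h n) (n + 1) = g p (n + 1) := hg.const h3
  exact ⟨h4, by rw [hg.down, h2, h4]⟩

/-- The subblocks of a block, from its beginning. -/
theorem sub_block_zero {r : ℕ → ℕ} (hr : IsClock r) {n p b : ℕ}
    (hp : cpos r (n + 1) p = 0) (hb : b < q n) :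
    cpos r n (p + b * h n) = 0 ∧ cdig r n (p + b * h n) = b := by
  have h1 : cpos r n p = 0 := by rw [← cpos_mod hr, hp, Nat.zero_mod]
  have h2 : cdig r n p = 0 := by unfold cdig; rw [hp, Nat.zero_div]
  obtain ⟨h3, h4, _⟩ := sub_block hr h1 (b := b) (by omega)
  exact ⟨h3, by omega⟩

theorem IsFlow.sub_block_zero {r : ℕ → ℕ} {g : ℕ → ℕ → K} (hr : IsClock r) (hg : IsFlow r g)
    {n p b : ℕ} (hp : cpos r (n + 1) p = 0) (hb : b < q n) :
    g (p + b * h n) (n + 1) = g p (n + 1) ∧ g (p + b * h n) n = f n b (g p (n + 1)) := by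
  have h1 : cpos r n p = 0 := by rw [← cpos_mod hr, hp, Nat.zero_mod]
  have h2 : cdig r n p = 0 := by unfold cdig; rw [hp, Nat.zero_div]
  have h3 := hg.sub_block hr h1 (b := b) (by omega)
  rw [h2, zero_add] at h3
  exact h3

/-! ### The own block -/

/-- The time at which the own `n`-block (the one containing the time `0`) ends. -/
def Rr (r : ℕ → ℕ) (n : ℕ) : ℕ := h n - cpos r n 0

theorem Rr_pos (r : ℕ → ℕ) (n : ℕ) : 0 < Rr r n := by
  have := cpos_lt r n 0; unfold Rr; omega

theorem Rr_le (r : ℕ → ℕ) (n : ℕ) : Rr r n ≤ h n := by unfold Rr; omega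

theorem Rr_add (r : ℕ → ℕ) (n : ℕ) : cpos r n 0 + Rr r n = h n := by
  have := cpos_lt r n 0; unfold Rr; omega

theorem cpos_own {r : ℕ → ℕ} {n p : ℕ} (hp : p < Rr r n) : cpos r n p = cpos r n 0 + p := by
  have h1 := Rr_add r n
  have := cpos_add_of_lt r (n := n) (p := 0) (i := p) (by omega)
  rwa [zero_add] at this

theorem cpos_Rr (r : ℕ → ℕ) (n : ℕ) : cpos r n (Rr r n) = 0 := by
  have h1 := Rr_add r n
  have := cpos_add r n 0 (Rr r n)
  rw [zero_add] at this
  rw [this, h1, Nat.mod_self]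

theorem IsFlow.own {r : ℕ → ℕ} {g : ℕ → ℕ → K} (hg : IsFlow r g) {n p : ℕ}
    (hp : p < Rr r n) : g p n = g 0 n := by
  have h1 := Rr_add r n
  have := hg.const (n := n) (p := 0) (i := p) (by omega)
  rwa [zero_add] at this

/-- `R (n+1) = R n + (q n - 1 - z_n) h n`. -/
theorem Rr_succ {r : ℕ → ℕ} (hr : IsClock r) (n : ℕ) :
    Rr r (n + 1) = Rr r n + (q n - 1 - cdig r n 0) * h n := by
  have h1 := Rr_add r n
  have h2 := Rr_add r (n + 1)
  have h3 := cpos_succ_level hr n 0
  have h4 := cdig_lt r n 0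
  have h5 : h (n + 1) = cdig r n 0 * h n + h n + (q n - 1 - cdig r n 0) * h n := by
    rw [h_succ]
    have : q n = cdig r n 0 + 1 + (q n - 1 - cdig r n 0) := by omega
    conv_lhs => rw [this]
    ring
  omega

theorem Rr_mono {r : ℕ → ℕ} (hr : IsClock r) : Monotone (Rr r) :=
  monotone_nat_of_le_succ fun n => by rw [Rr_succ hr]; omega

/-- The blocks of level `n` after the own one, inside the own `(n+1)`-block. -/
theorem own_sub_block {r : ℕ → ℕ} (hr : IsClock r) {n b : ℕ}
    (hb : cdig r n 0 + 1 + b < q n) :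
    cpos r n (Rr r n + b * h n) = 0 ∧ cdig r n (Rr r n + b * h n) = cdig r n 0 + 1 + b ∧
      Rr r n + b * h n < Rr r (n + 1) := by
  have h1 : Rr r n + b * h n < Rr r (n + 1) := by
    rw [Rr_succ hr]
    have : b * h n < (q n - 1 - cdig r n 0) * h n :=
      Nat.mul_lt_mul_of_pos_right (by omega) (h_pos n)
    omega
  refine ⟨?_, ?_, h1⟩
  · rw [cpos_add, cpos_Rr, zero_add, Nat.mul_mod_left]
  · have h0 : cdig r n (Rr r n + b * h n) = cpos r (n + 1) (Rr r n + b * h n) / h n := rfl
    rw [h0, cpos_own h1, cpos_succ_level hr n 0]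
    have : cdig r n 0 * h n + cpos r n 0 + (Rr r n + b * h n)
        = (cdig r n 0 + 1 + b) * h n := by
      have := Rr_add r n
      rw [add_mul, add_mul, one_mul]; omega
    rw [this, Nat.mul_div_cancel _ (h_pos n)]

theorem IsFlow.own_sub_block {r : ℕ → ℕ} {g : ℕ → ℕ → K} (hr : IsClock r) (hg : IsFlow r g)
    {n b : ℕ} (hb : cdig r n 0 + 1 + b < q n) :
    g (Rr r n + b * h n) n = f n (cdig r n 0 + 1 + b) (g 0 (n + 1)) := by
  obtain ⟨_, h2, h3⟩ := MP195885.own_sub_block hr hb
  rw [hg.down, h2, hg.own h3]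

/-! ### Carries -/

/-- The levels below the least level at which no carry occurs. -/
theorem carry_level {r : ℕ → ℕ} (hr : IsClock r) {p : ℕ}
    (hm : ∃ m, cdig r m p + 1 < q m) :
    ∃ m, cdig r m p + 1 < q m ∧ (∀ j, j < m → cdig r j p + 1 = q j) ∧
      (∀ n, n ≤ m → cpos r n p + 1 = h n) ∧ (∀ n, n ≤ m → cpos r n (p + 1) = 0) ∧
      (∀ n, m < n → cpos r n p + 1 < h n) ∧
      cdig r m (p + 1) = cdig r m p + 1 ∧ ∀ j, j < m → cdig r j (p + 1) = 0 := by
  classical
  refine ⟨Nat.find hm, Nat.find_spec hm, ?_⟩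
  set m := Nat.find hm with hmdef
  have hlow : ∀ j, j < m → cdig r j p + 1 = q j := by
    intro j hj
    have h1 := Nat.find_min hm hj
    have h2 := cdig_lt r j p
    omega
  have hpos : ∀ n, n ≤ m → cpos r n p + 1 = h n := by
    intro n
    induction n with
    | zero => intro _; have := cpos_lt r 0 p; rw [h_zero] at this ⊢; omega
    | succ n ih =>
      intro hn
      rw [cpos_succ_level hr n p, h_succ]
      have h1 := ih (by omega)
      have h2 := hlow n (by omega)
      rw [← h2]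
      have : cdig r n p * h n + cpos r n p + 1 = cdig r n p * h n + h n := by omega
      rw [this]; ring
  have hpos0 : ∀ n, n ≤ m → cpos r n (p + 1) = 0 := by
    intro n hn
    rw [cpos_succ, hpos n hn, Nat.mod_self]
  have hup1 : cpos r (m + 1) p + 1 < h (m + 1) := by
    rw [cpos_succ_level hr m p]
    have h1 := hpos m le_rfl
    have h2 := Nat.find_spec hm
    have h3 : (cdig r m p + 1) * h m < q m * h m := Nat.mul_lt_mul_of_pos_right h2 (h_pos m)
    rw [h_succ, mul_comm (h m)]
    have h4 : (cdig r m p + 1) * h m = cdig r m p * h m + h m := by ring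
    omega
  have hup : ∀ n, m < n → cpos r n p + 1 < h n := by
    intro n hn
    induction n, hn using Nat.le_induction with
    | base => exact hup1
    | succ n hn ih =>
      rw [cpos_succ_level hr n p, h_succ]
      have h1 := cdig_lt r n p
      have h2 : (cdig r n p + 1) * h n ≤ q n * h n := Nat.mul_le_mul_right _ h1
      have h4 : (cdig r n p + 1) * h n = cdig r n p * h n + h n := by ring
      rw [mul_comm (h n)]
      omega
  refine ⟨hlow, hpos, hpos0, hup, ?_, ?_⟩
  · unfold cdig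
    rw [cpos_add_of_lt r hup1, cpos_succ_level hr m p]
    have h1 := hpos m le_rfl
    rw [add_assoc, h1, ← Nat.succ_mul, Nat.mul_div_cancel _ (h_pos m),
      Nat.add_comm (cdig r m p * h m), Nat.add_mul_div_right _ _ (h_pos m),
      Nat.div_eq_of_lt (cpos_lt r m p)]
    omega
  · intro j hj
    unfold cdig
    rw [hpos0 (j + 1) hj, Nat.zero_div]

theorem q_sub_one_even (n : ℕ) {a : ℕ} (ha : a + 1 = q n) : a % 2 = 0 := by
  unfold q at ha; omega

/-- The neighbour lemma: contents at consecutive times differ in at most one component. -/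
theorem IsFlow.neighbour {r : ℕ → ℕ} {g : ℕ → ℕ → K} (hr : IsClock r) (hg : IsFlow r g) {p : ℕ}
    (hm : ∃ m, cdig r m p + 1 < q m) (n : ℕ) : ∃ i, OnlyAt (g (p + 1) n + g p n) i := by
  obtain ⟨m, h1, h2, h3, h4, h5, h6, h7⟩ := carry_level hr hm
  rcases lt_or_ge m n with hn | hn
  · refine ⟨none, ?_, ?_⟩
    · intro h; exact absurd rfl h
    · intro k _
      rw [hg.step p n (h5 n hn), K.add_self]; rfl
  · -- below the carry level everything is plain
    have hdown : ∀ n, n ≤ m → g p n = cut n (g p m) ∧ g (p + 1) n = cut n (g (p + 1) m) := by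
      intro n hn
      induction hn using Nat.decreasingInduction with
      | self => exact ⟨(hg.cut_eq _ _).symm, (hg.cut_eq _ _).symm⟩
      | of_succ n hn ih =>
        constructor
        · rw [hg.down p n, f_even (q_sub_one_even n (h2 n hn)), ih.1, cut_cut (by omega)]
        · rw [hg.down (p + 1) n, h7 n hn, f_even (by norm_num), ih.2, cut_cut (by omega)]
    obtain ⟨d1, d2⟩ := hdown n hn
    have e1 := hg.down p m
    have e2 := hg.down (p + 1) m
    rw [h6, hg.step p (m + 1) (h5 (m + 1) (by omega))] at e2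
    have key : ∃ i, OnlyAt (g (p + 1) m + g p m) i := by
      rw [e1, e2]
      rcases Nat.mod_two_eq_zero_or_one (cdig r m p) with h0 | h0
      · rw [f_even h0, f]
        obtain ⟨i, hi⟩ := onlyAt_con m (cdig r m p + 1) ((g p (m + 1)).2 m)
        refine ⟨i, ?_⟩
        rw [show cut m (g p (m + 1)) + con m (cdig r m p + 1) ((g p (m + 1)).2 m)
          + cut m (g p (m + 1)) = con m (cdig r m p + 1) ((g p (m + 1)).2 m) by
            rw [add_comm, ← add_assoc, K.add_self, zero_add]]
        exact hi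
      · rw [f_even (a := cdig r m p + 1) (by omega), f]
        obtain ⟨i, hi⟩ := onlyAt_con m (cdig r m p) ((g p (m + 1)).2 m)
        refine ⟨i, ?_⟩
        rw [← add_assoc, K.add_self, zero_add]
        exact hi
    obtain ⟨i, hi1, hi2⟩ := key
    refine ⟨i, ?_, ?_⟩
    · intro hi
      rw [d1, d2, ← cut_add, cut_fst]; exact hi1 hi
    · intro k hk
      rw [d1, d2, ← cut_add]
      rcases lt_or_ge k n with hkn | hkn
      · rw [cut_snd_lt hkn]; exact hi2 k hk
      · exact cut_snd_ge hkn _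

/-- If carries always stop, the own blocks exhaust all times. -/
theorem exists_lt_Rr {r : ℕ → ℕ} (hr : IsClock r) (hm : ∀ p, ∃ m, cdig r m p + 1 < q m) (P : ℕ) :
    ∃ n, ∀ n', n ≤ n' → P < Rr r n' := by
  suffices hs : ∃ n, P < Rr r n by
    obtain ⟨n, hn⟩ := hs
    exact ⟨n, fun n' hn' => lt_of_lt_of_le hn (Rr_mono hr hn')⟩
  induction P with
  | zero => exact ⟨0, Rr_pos r 0⟩
  | succ P ih =>
    obtain ⟨n, hn⟩ := ih
    obtain ⟨m, _, _, _, _, h5, _, _⟩ := carry_level hr (hm P)
    refine ⟨max n (m + 1), ?_⟩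
    have h1 : P < Rr r (max n (m + 1)) := lt_of_lt_of_le hn (Rr_mono hr (le_max_left _ _))
    have h2 := h5 (max n (m + 1)) (lt_of_lt_of_le (Nat.lt_succ_self m) (le_max_right _ _))
    rw [cpos_own h1] at h2
    have h3 := Rr_add r (max n (m + 1))
    omega

/-! ### Counting nonzero positions -/

open Classical in
theorem nz_mono (g : ℕ → ℕ → K) (J : ℕ) : Monotone (nz g J) := by
  intro a b hab
  exact Finset.card_le_card (Finset.filter_subset_filter _ (Finset.range_mono hab))

theorem nz_zero (g : ℕ → ℕ → K) (J : ℕ) : nz g J 0 = 0 := by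
  unfold nz; rw [Finset.range_zero, Finset.filter_empty, Finset.card_empty]

open Classical in
theorem nz_add (g : ℕ → ℕ → K) (J P i : ℕ) :
    nz g J (P + i) = nz g J P + ((Finset.range i).filter fun i' => g (P + i') J ≠ 0).card := by
  induction i with
  | zero => rw [Finset.range_zero, Finset.filter_empty, Finset.card_empty]; rfl
  | succ i ih =>
    have h1 : nz g J (P + (i + 1)) = nz g J (P + i) + if g (P + i) J ≠ 0 then 1 else 0 := by
      unfold nz
      rw [← add_assoc, Finset.range_add_one, Finset.filter_insert]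
      split
      · rw [Finset.card_insert_of_notMem (by simp)]
      · simp
    rw [h1, ih, Finset.range_add_one, Finset.filter_insert]
    split
    · rw [Finset.card_insert_of_notMem (by simp)]; ring
    · simp

theorem nz_le (g : ℕ → ℕ → K) (J P i : ℕ) : nz g J (P + i) ≤ nz g J P + i := by
  classical
  rw [nz_add]
  have := Finset.card_filter_le (Finset.range i) fun i' => g (P + i') J ≠ 0
  rw [Finset.card_range] at this
  omega

/-- A full block with nonzero content contributes at least `h n / 12`. -/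
theorem nz_block (hLB : SpecLB) {r : ℕ → ℕ} {g : ℕ → ℕ → K} (hr : IsClock r) (hg : IsFlow r g)
    {n p : ℕ} (hp : cpos r n p = 0) (h0 : g p n ≠ 0) :
    12 * nz g 0 p + h n ≤ 12 * nz g 0 (p + h n) := by
  classical
  rw [nz_add]
  have := hLB r g hr hg n p hp h0
  omega

end MP195885
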