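import Pool.Agent.Lib.MP_195885_an.Single

/-!
# MP_195885_an: module Half
-/

open Filter Topology Set

namespace MP195885

namespace HalfM

variable {g : ℕ → ℕ → K} {J : ℕ}

theorem nz_zero_block {p H i : ℕ} (hz : ∀ i, i < H → g (p + i) J = 0) (hi : i ≤ H) :
    nz g J (p + i) = nz g J p := by
  classical
  rw [nz_add]
  have : ((Finset.range i).filter fun i' => g (p + i') J ≠ 0) = ∅ := by
    apply Finset.filter_false_of_mem
    intro x hx
    have := Finset.mem_range.mp hx
    rw [not_not]
    exact hz x (by omega)
  rw [this, Finset.card_empty, add_zero]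

/-- concatenation of good blocks -/
theorem concat {p H F : ℕ} (hH : 0 < H)
    (hb : ∀ b, b < F → ∀ i, i ≤ H → 2 * nz g J (p + b * H + i) ≤ 2 * nz g J (p + b * H) + i) :
    ∀ i, i ≤ F * H → 2 * nz g J (p + i) ≤ 2 * nz g J p + i := by
  have h1 : ∀ b, b ≤ F → 2 * nz g J (p + b * H) ≤ 2 * nz g J p + b * H := by
    intro b
    induction b with
    | zero => intro _; simp
    | succ b ih =>
      intro hbF
      have h2 := ih (by omega)
      have h3 := hb b (by omega) H le_rfl
      have e : p + b * H + H = p + (b + 1) * H := by ring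
      rw [e] at h3
      have e2 : (b + 1) * H = b * H + H := by ring
      omega
  intro i hi
  have e1 := Nat.div_add_mod i H
  have e2 := Nat.mod_lt i hH
  have h2 := h1 (i / H) (Nat.div_le_of_le_mul (by rw [mul_comm]; exact hi))
  rcases Nat.lt_or_ge (i / H) F with h3 | h3
  · have h4 := hb (i / H) h3 (i % H) e2.le
    have e3 : p + i / H * H + i % H = p + i := by
      rw [mul_comm, add_assoc, e1]
    rw [e3] at h4
    have e4 : i / H * H + i % H = i := by rw [mul_comm]; exact e1
    omega
  · have h4 : F * H ≤ i / H * H := Nat.mul_le_mul_right _ h3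
    have e4 : i / H * H + i % H = i := by rw [mul_comm]; exact e1
    have h5 : i / H * H = i := by omega
    rw [h5] at h2
    exact h2

/-- alternating blocks, the first of which vanishes -/
theorem alternate {p H F : ℕ} (hH : 0 < H)
    (hb : ∀ b, b < F → b % 2 = 0 → ∀ i, i < H → g (p + b * H + i) J = 0) :
    ∀ i, i ≤ F * H → 2 * nz g J (p + i) ≤ 2 * nz g J p + i := by
  have h1 : ∀ b, b ≤ F → (b % 2 = 0 → 2 * nz g J (p + b * H) ≤ 2 * nz g J p + b * H) ∧
      (b % 2 = 1 → 2 * nz g J (p + b * H) + H ≤ 2 * nz g J p + b * H) := by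
    intro b
    induction b with
    | zero => intro _; exact ⟨fun _ => by simp, fun h => by omega⟩
    | succ b ih =>
      intro hbF
      have h2 := ih (by omega)
      have e : p + b * H + H = p + (b + 1) * H := by ring
      have e2 : (b + 1) * H = b * H + H := by ring
      refine ⟨fun h3 => ?_, fun h3 => ?_⟩
      · have h4 := h2.2 (by omega)
        have h5 := nz_le g J (p + b * H) H
        rw [e] at h5
        omega
      · have h4 := h2.1 (by omega)
        have h5 := nz_zero_block (hb b (by omega) (by omega)) (le_refl H)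
        rw [e] at h5
        omega
  intro i hi
  have e1 := Nat.div_add_mod i H
  have e2 := Nat.mod_lt i hH
  have e3 : p + i / H * H + i % H = p + i := by
    rw [mul_comm, add_assoc, e1]
  have e4 : i / H * H + i % H = i := by rw [mul_comm]; exact e1
  have h2 := h1 (i / H) (Nat.div_le_of_le_mul (by rw [mul_comm]; exact hi))
  rcases Nat.mod_two_eq_zero_or_one (i / H) with h0 | h0
  · have h3 := h2.1 h0
    rcases Nat.lt_or_ge (i / H) F with h4 | h4
    · have h5 := nz_zero_block (hb (i / H) h4 h0) e2.le
      rw [e3] at h5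
      omega
    · have h5 : F * H ≤ i / H * H := Nat.mul_le_mul_right _ h4
      have h6 : i / H * H = i := by omega
      rw [h6] at h3
      exact h3
  · have h3 := h2.2 h0
    have h5 := nz_le g J (p + i / H * H) (i % H)
    rw [e3] at h5
    omega

theorem zero_block {r : ℕ → ℕ} (hg : IsFlow r g) {n p : ℕ} (hJ : J ≤ n) (hp : cpos r n p = 0)
    (h0 : g p n = 0) : ∀ i, i < h n → g (p + i) J = 0 := by
  intro i hi
  apply hg.zero_down hJ
  rw [hg.const_of_zero hp hi, h0]

end HalfM

/-- MODULE Half -/
theorem specHalf (hLB : SpecLB) : SpecHalf := by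
  intro r g hr hg hl hm ⟨n₁, hn₁⟩ J
  -- inactive levels
  have hin : ∀ n, (g 0 (n + 1)).2 n = 0 → ∀ a, f n a (g 0 (n + 1)) = g 0 (n + 1) := by
    intro n h0 a
    rw [f_of_top_zero a h0]
    apply cut_of_level
    intro k hk
    rcases Nat.lt_or_ge n k with h1 | h1
    · exact hg.level 0 (n + 1) h1
    · have : k = n := by omega
      subst this
      exact h0
  -- there is an active level
  have hact : ∃ l, max J n₁ ≤ l ∧ (g 0 (l + 1)).2 l ≠ 0 := by
    by_contra hcon
    push Not at hcon
    set n₂ := max J n₁ with hn₂
    have hG : ∀ n, n₂ ≤ n → g 0 n = g 0 n₂ := by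
      intro n hn
      induction n, hn using Nat.le_induction with
      | base => rfl
      | succ n hn ih =>
        have h1 := hin n (hcon n hn) (cdig r n 0)
        rw [← hg.down 0 n] at h1
        rw [← h1, ih]
    have hall : ∀ p, g p n₂ = g 0 n₂ := by
      intro p
      obtain ⟨n, hn⟩ := exists_lt_Rr hr hm p
      have h1 : ∀ j, n₂ ≤ j → j ≤ max n n₂ → g p j = g 0 n₂ := by
        intro j hj hjn
        induction hjn using Nat.decreasingInduction with
        | self =>
          rw [hg.own (hn _ (le_max_left _ _)), hG _ (le_max_right _ _)]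
        | of_succ j hj' ih =>
          rw [hg.down p j, ih (by omega), f_of_top_zero _ (hg.level 0 n₂ hj)]
          exact cut_of_level fun k hk => hg.level 0 n₂ (by omega)
      exact h1 n₂ le_rfl (le_max_right _ _)
    set s := Rr r n₂ with hs
    have hc : ∀ b, cpos r n₂ (s + b * h n₂) = 0 := fun b => by
      rw [cpos_add, hs, cpos_Rr, zero_add, Nat.mul_mod_left]
    have hcount : ∀ F, F * h n₂ ≤ 12 * nz g 0 (s + F * h n₂) := by
      intro F
      induction F with
      | zero => simp
      | succ F ih =>
        have h1 := nz_block hLB hr hg (hc F) (by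
          rw [hall]
          exact (hn₁ n₂ (le_max_right _ _)).1)
        have e : s + F * h n₂ + h n₂ = s + (F + 1) * h n₂ := by ring
        rw [e] at h1
        have e2 : (F + 1) * h n₂ = F * h n₂ + h n₂ := by ring
        omega
    obtain ⟨N, hN1, hN2⟩ := SingleM.lowDens_nat hl (c := 24) (by norm_num) (2 * (s + h n₂) + 1)
    have h1 := hcount ((N - s) / h n₂)
    have h2 : (N - s) / h n₂ * h n₂ ≤ N - s := Nat.div_mul_le_self _ _
    have h3 := Nat.lt_div_mul_add (a := N - s) (h_pos n₂)
    have h4 : nz g 0 (s + (N - s) / h n₂ * h n₂) ≤ nz g 0 N := nz_mono g 0 (by omega)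
    omega
  obtain ⟨l, hl1, hl2⟩ := hact
  -- the dichotomy
  have hdich : ∀ n, l ≤ n → (g 0 (n + 1)).2 n ≠ 0 →
      cut n (g 0 (n + 1)) = 0 ∧ cdig r n 0 % 2 = 1 := by
    intro n hn h0
    have hn1 : n₁ ≤ n := ((le_max_right _ _).trans hl1).trans hn
    obtain ⟨-, i, hi⟩ := hn₁ (n + 1) (by omega)
    have hi' : i = some n := by
      by_contra hne
      exact h0 (hi.2 n hne)
    subst hi'
    have hcut : cut n (g 0 (n + 1)) = 0 := by
      apply Prod.ext
      · exact hi.1 (by simp)
      · funext j
        simp only [cut]
        split_ifs with hj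
        · rw [hi.2 j (by
            intro h
            have := Option.some.inj h
            omega)]
          rfl
        · rfl
    refine ⟨hcut, ?_⟩
    by_contra hodd
    have h1 := hg.down 0 n
    rw [f_even (by omega), hcut] at h1
    exact (hn₁ n hn1).1 h1
  have hJl : J ≤ l := (le_max_left _ _).trans hl1
  -- prefix counts in blocks with the content of the own block
  have hPH : ∀ n, l ≤ n → ∀ p, cpos r (n + 1) p = 0 → g p (n + 1) = g 0 (n + 1) →
      ∀ i, i ≤ h (n + 1) → 2 * nz g J (p + i) ≤ 2 * nz g J p + i := by
    intro n hn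
    have hactive : ∀ n, l ≤ n → (g 0 (n + 1)).2 n ≠ 0 → ∀ p, cpos r (n + 1) p = 0 →
        g p (n + 1) = g 0 (n + 1) →
        ∀ i, i ≤ h (n + 1) → 2 * nz g J (p + i) ≤ 2 * nz g J p + i := by
      intro n hn h0 p hp hgp i hi
      obtain ⟨h1, -⟩ := hdich n hn h0
      refine HalfM.alternate (F := q n) (H := h n) (h_pos n) (fun b hb hb2 => ?_) i (by
        rw [mul_comm, ← h_succ]
        exact hi)
      have h2 := sub_block_zero hr hp hb
      have h3 := hg.sub_block_zero hr hp hb
      apply HalfM.zero_block hg (hJl.trans hn) h2.1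
      rw [h3.2, hgp, f_even hb2, h1]
    induction n, hn using Nat.le_induction with
    | base => exact hactive l le_rfl hl2
    | succ n hn ih =>
      by_cases h0 : (g 0 (n + 1 + 1)).2 (n + 1) = 0
      · intro p hp hgp i hi
        have hG : g 0 (n + 1) = g 0 (n + 1 + 1) := by
          have := hin (n + 1) h0 (cdig r (n + 1) 0)
          rw [← hg.down 0 (n + 1)] at this
          exact this
        refine HalfM.concat (F := q (n + 1)) (H := h (n + 1)) (h_pos _) (fun b hb => ?_) i (by
          rw [mul_comm, ← h_succ]
          exact hi)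
        have h2 := sub_block_zero hr hp hb
        have h3 := hg.sub_block_zero hr hp hb
        apply ih _ h2.1
        rw [h3.2, hgp, hin (n + 1) h0, hG]
      · exact hactive (n + 1) (by omega) h0
  -- prefix counts from the end of the own block
  have hS : ∀ n, l ≤ n → ∀ i, Rr r (l + 1) + i ≤ Rr r (n + 1) →
      2 * nz g J (Rr r (l + 1) + i) ≤ 2 * nz g J (Rr r (l + 1)) + i := by
    intro n hn
    induction n, hn using Nat.le_induction with
    | base =>
      intro i hi
      have : i = 0 := by omega
      subst this
      simp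
    | succ n hn ih =>
      intro i hi
      rcases Nat.lt_or_ge (Rr r (n + 1)) (Rr r (l + 1) + i) with h1 | h1
      · -- beyond the own block of level `n + 1`
        have hmono := Rr_mono hr (show l + 1 ≤ n + 1 by omega)
        obtain ⟨i', hi'⟩ : ∃ i', Rr r (l + 1) + i = Rr r (n + 1) + i' :=
          ⟨Rr r (l + 1) + i - Rr r (n + 1), by omega⟩
        obtain ⟨d, hd⟩ : ∃ d, Rr r (n + 1) = Rr r (l + 1) + d :=
          ⟨Rr r (n + 1) - Rr r (l + 1), by omega⟩
        have h2 := ih d (by omega)
        rw [← hd] at h2
        have h3 : 2 * nz g J (Rr r (n + 1) + i') ≤ 2 * nz g J (Rr r (n + 1)) + i' := by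
          have hRs := Rr_succ hr (n + 1)
          set F := q (n + 1) - 1 - cdig r (n + 1) 0 with hF
          have hlt := cdig_lt r (n + 1) 0
          by_cases h0 : (g 0 (n + 1 + 1)).2 (n + 1) = 0
          · have hG : g 0 (n + 1) = g 0 (n + 1 + 1) := by
              have := hin (n + 1) h0 (cdig r (n + 1) 0)
              rw [← hg.down 0 (n + 1)] at this
              exact this
            refine HalfM.concat (F := F) (H := h (n + 1)) (h_pos _) (fun b hb => ?_) i' (by omega)
            have h4 := own_sub_block hr (n := n + 1) (b := b) (by omega)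
            have h5 := hg.own_sub_block hr (n := n + 1) (b := b) (by omega)
            apply hPH n hn _ h4.1
            rw [h5, hin (n + 1) h0, hG]
          · obtain ⟨h6, h7⟩ := hdich (n + 1) (by omega) h0
            refine HalfM.alternate (F := F) (H := h (n + 1)) (h_pos _) (fun b hb hb2 => ?_) i'
              (by omega)
            have h4 := own_sub_block hr (n := n + 1) (b := b) (by omega)
            have h5 := hg.own_sub_block hr (n := n + 1) (b := b) (by omega)
            apply HalfM.zero_block hg (by omega) h4.1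
            rw [h5, f_even (by omega), h6]
        rw [hi']
        omega
      · exact ih i h1
  refine ⟨2 * Rr r (l + 1), fun N => ?_⟩
  rcases Nat.lt_or_ge N (Rr r (l + 1)) with h1 | h1
  · have := nz_le g J 0 N
    rw [nz_zero, zero_add] at this
    omega
  · obtain ⟨n, hn⟩ := exists_lt_Rr hr hm N
    have h2 := hn (max n l + 1) (by omega)
    have h3 := hS (max n l) (le_max_right _ _) (N - Rr r (l + 1)) (by omega)
    have e : Rr r (l + 1) + (N - Rr r (l + 1)) = N := by omega
    rw [e] at h3
    have h4 := nz_le g J 0 (Rr r (l + 1))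
    rw [nz_zero, zero_add] at h4
    omega

end MP195885
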