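import Pool.Agent.Lib.MP_195885_an.Bal

/-!
# Module LB: a full block with nonzero content has many nonzero positions at level `0`
-/

set_option autoImplicit false

open MeasureTheory Filter Topology Set

namespace MP195885

namespace LBM

theorem L_pos (n : ℕ) : 1 ≤ L n := by unfold L; omega

theorem M_pos (n : ℕ) : 1 ≤ M n := by
  unfold M
  exact Nat.mul_pos (by positivity) (L_pos n)

theorem two_pow_le_M (n : ℕ) : 2 ^ n ≤ M n := by
  unfold M
  exact Nat.le_mul_of_pos_right _ (L_pos n)

theorem con_zero (n a : ℕ) : con n a 0 = 0 := by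
  unfold con
  split_ifs
  · have : tr n (κ n) 0 = 0 := by
      funext i
      simp [tr]
    rw [this]
    simp [single]
  · have : dot n (a / 2) 0 = 0 := by simp [dot]
    rw [this]
    rfl
  · rfl

theorem con_even (n a : ℕ) (w : Fin n → ZMod 2) (ha : a % 2 = 0) : con n a w = 0 := by
  have h1 : ¬ Special n a := fun h => by
    have := h.2.1
    omega
  have h2 : ¬ Hit n a := fun h => by
    have := h.1
    omega
  rw [con, if_neg h1, if_neg h2]

theorem con_hit (n β : ℕ) (w : Fin n → ZMod 2) (hβ : M n ≤ β) :
    con n (2 * β + 1) w = (dot n β w, 0) := by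
  have h1 := two_pow_le_M n
  have h2 : (2 * β + 1) / 2 = β := by omega
  have h3 : ¬ Special n (2 * β + 1) := fun h => by
    have := h.2.2
    omega
  have h4 : Hit n (2 * β + 1) := ⟨by omega, by omega⟩
  rw [con, if_neg h3, if_pos h4, h2]

theorem con_level_zero (a : ℕ) (w : Fin 0 → ZMod 2) : con 0 a w = 0 := by
  have : w = 0 := by
    funext i
    exact i.elim0
  rw [this, con_zero]

/-- the number of nonzero positions of an `n`-block with content `v` -/
def cnt : ℕ → K → ℕ
  | 0, v => if v.1 ≠ 0 then 1 else 0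
  | n + 1, v => ∑ a ∈ Finset.range (q n), cnt n (f n a v)

theorem cut_add (n : ℕ) (v v' : K) : cut n (v + v') = cut n v + cut n v' := by
  unfold cut
  refine Prod.ext rfl ?_
  funext k
  show (if k < n then v.2 k + v'.2 k else 0) = (if k < n then v.2 k else 0) + if k < n then v'.2 k else 0
  split_ifs
  · rfl
  · simp

theorem cut_one (n : ℕ) : cut n ((1, 0) : K) = (1, 0) := by
  unfold cut
  refine Prod.ext rfl ?_
  funext k
  simp

theorem f_add_one (n a : ℕ) (v : K) : f n a (v + (1, 0)) = f n a v + (1, 0) := by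
  unfold f
  rw [cut_add, cut_one]
  have : (v + ((1, 0) : K)).2 n = v.2 n := by simp
  rw [this]
  abel

theorem cnt_add_one (n : ℕ) (v : K) : cnt n (v + (1, 0)) + cnt n v = h n := by
  induction n generalizing v with
  | zero =>
    have key : ∀ x : ZMod 2, (if x + 1 ≠ 0 then 1 else 0) + (if x ≠ 0 then 1 else 0) = 1 := by
      decide
    rw [h_zero]
    exact key v.1
  | succ n ih =>
    show ∑ a ∈ Finset.range (q n), cnt n (f n a (v + (1, 0))) +
      ∑ a ∈ Finset.range (q n), cnt n (f n a v) = h (n + 1)
    rw [← Finset.sum_add_distrib]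
    simp only [f_add_one, ih]
    rw [Finset.sum_const, Finset.card_range, h_succ, smul_eq_mul, mul_comm]

/-- the components of level at least `n` vanish -/
def Low (n : ℕ) (v : K) : Prop := ∀ k, n ≤ k → v.2 k = 0

theorem low_cut (n : ℕ) (v : K) : Low n (cut n v) := by
  intro k hk
  show (if k < n then v.2 k else 0) = 0
  rw [if_neg (by omega)]

theorem cut_of_low (n : ℕ) (v : K) (hv : Low n v) : cut n v = v := by
  refine Prod.ext rfl ?_
  funext k
  show (if k < n then v.2 k else 0) = v.2 k
  split_ifs with hk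
  · rfl
  · exact (hv k (by omega)).symm

theorem low_f (n a : ℕ) (v : K) : Low n (f n a v) := by
  intro k hk
  unfold f
  show (cut n v).2 k + (con n a (v.2 n)).2 k = 0
  rw [low_cut n v k hk, zero_add]
  unfold con
  split_ifs with h1 h2
  · have hκ : κ n < n := by
      have : 1 ≤ n := h1.1
      unfold κ
      exact Nat.unpair_lt this
    show (Pi.single (κ n) (tr n (κ n) (v.2 n)) : (k : ℕ) → Fin k → ZMod 2) k = 0
    exact Pi.single_eq_of_ne (by omega) _
  · rfl
  · rfl

theorem cnt_lower (hb : SpecBal) (n : ℕ) (v : K) (hv : v ≠ 0) (hl : Low n v) :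
    h n ≤ 12 * cnt n v := by
  induction n generalizing v with
  | zero =>
    have h1 : v.1 ≠ 0 := by
      intro h0
      apply hv
      refine Prod.ext h0 ?_
      funext k
      exact hl k (Nat.zero_le k)
    rw [h_zero]
    show 1 ≤ 12 * (if v.1 ≠ 0 then 1 else 0)
    rw [if_pos h1]
    norm_num
  | succ n ih =>
    by_cases hw : v.2 n = 0
    · have hlow : Low n v := by
        intro k hk
        rcases Nat.eq_or_lt_of_le hk with rfl | hk
        · exact hw
        · exact hl k hk
      have hf : ∀ a, f n a v = v := by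
        intro a
        unfold f
        rw [hw, con_zero, cut_of_low n v hlow, add_zero]
      show h (n + 1) ≤ 12 * ∑ a ∈ Finset.range (q n), cnt n (f n a v)
      simp only [hf]
      rw [Finset.sum_const, Finset.card_range, smul_eq_mul, h_succ]
      have := Nat.mul_le_mul_right (q n) (ih v hv hlow)
      calc h n * q n ≤ 12 * cnt n v * q n := this
        _ = 12 * (q n * cnt n v) := by ring
    · set u : K := cut n v with hu
      set S := Finset.Ico (M n) (2 * M n) with hS
      have h1 : ∑ β ∈ S, cnt n (f n (2 * β + 1) v) ≤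
          ∑ a ∈ Finset.range (q n), cnt n (f n a v) := by
        have hinj : ∀ x ∈ S, ∀ y ∈ S, (fun β => 2 * β + 1) x = (fun β => 2 * β + 1) y → x = y := by
          intro x _ y _ hxy
          dsimp only at hxy
          omega
        rw [← Finset.sum_image (f := fun a => cnt n (f n a v)) (g := fun β => 2 * β + 1) hinj]
        refine Finset.sum_le_sum_of_subset ?_
        intro a ha
        obtain ⟨β, hβ, rfl⟩ := Finset.mem_image.1 ha
        rw [hS, Finset.mem_Ico] at hβ
        rw [Finset.mem_range]
        unfold q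
        omega
      have h2 : ∀ β ∈ S, cnt n (f n (2 * β + 1) v) =
          if dot n β (v.2 n) ≠ 0 then cnt n (u + (1, 0)) else cnt n u := by
        intro β hβ
        rw [hS, Finset.mem_Ico] at hβ
        unfold f
        rw [con_hit n β _ hβ.1, ← hu]
        by_cases hd : dot n β (v.2 n) = 0
        · rw [if_neg (by simpa using hd), hd]
          congr 1
          exact add_zero u
        · rw [if_pos hd, (Bal.zmod_ne_zero _).1 hd]
      rw [Finset.sum_congr rfl h2, Finset.sum_ite, Finset.sum_const, Finset.sum_const,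
        ← Bal.card_eq n _ hw] at h1
      have h3 := hb n (v.2 n) hw
      rw [← hS] at h1 h3
      set c := (S.filter fun β => dot n β (v.2 n) ≠ 0).card with hc
      rw [smul_eq_mul, smul_eq_mul, ← mul_add, cnt_add_one] at h1
      show h (n + 1) ≤ 12 * ∑ a ∈ Finset.range (q n), cnt n (f n a v)
      have hM := M_pos n
      have h4 : h (n + 1) ≤ 12 * (c * h n) := by
        rw [h_succ]
        unfold q
        have h5 : 4 * M n + 1 ≤ 12 * c := by omega
        calc h n * (4 * M n + 1) ≤ h n * (12 * c) := Nat.mul_le_mul_left _ h5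
          _ = 12 * (c * h n) := by ring
      exact h4.trans (Nat.mul_le_mul_left 12 h1)

/-! ### positions -/

section
variable {r : ℕ → ℕ} {g : ℕ → ℕ → K}

theorem cpos_mod (hr : IsClock r) (n p : ℕ) : cpos r (n + 1) p % h n = cpos r n p := by
  unfold cpos
  rw [Nat.mod_mod_of_dvd _ (h_dvd n), Nat.add_mod, hr.mod, Nat.add_mod_mod]

theorem cpos_add (n p t : ℕ) (h0 : cpos r n p = 0) (ht : t < h n) : cpos r n (p + t) = t := by
  unfold cpos at h0 ⊢
  rw [← add_assoc, Nat.add_mod, h0, zero_add, Nat.mod_mod, Nat.mod_eq_of_lt ht]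

theorem g_const (hg : IsFlow r g) (n p : ℕ) (h0 : cpos r n p = 0) (t : ℕ) (ht : t < h n) :
    g (p + t) n = g p n := by
  induction t with
  | zero => rfl
  | succ t ih =>
    rw [← add_assoc, hg.step (p + t) n (by rw [cpos_add n p t h0 (by omega)]; exact ht),
      ih (by omega)]

theorem sub_block (hr : IsClock r) (hg : IsFlow r g) (n p a : ℕ) (h0 : cpos r (n + 1) p = 0)
    (ha : a < q n) : cpos r n (p + a * h n) = 0 ∧ g (p + a * h n) n = f n a (g p (n + 1)) := by
  have hlt : a * h n < h (n + 1) := by
    rw [h_succ, mul_comm]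
    exact Nat.mul_lt_mul_of_pos_left ha (h_pos n)
  have h1 := cpos_add (n + 1) p (a * h n) h0 hlt
  refine ⟨?_, ?_⟩
  · rw [← cpos_mod hr, h1, Nat.mul_mod_left]
  · have h2 : cdig r n (p + a * h n) = a := by
      unfold cdig
      rw [h1, Nat.mul_div_cancel _ (h_pos n)]
    rw [hg.down, h2, g_const hg (n + 1) p h0 _ hlt]

theorem g_zero_low (hg : IsFlow r g) (p : ℕ) : (g p 0).2 = 0 := by
  have h1 : g p 0 = f 0 (cdig r 0 p) (g p 1) := hg.down p 0
  funext k
  rw [h1]
  exact low_f 0 _ _ k (Nat.zero_le k)

open Classical in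
theorem card_eq_cnt (hr : IsClock r) (hg : IsFlow r g) (n p : ℕ) (h0 : cpos r n p = 0) :
    ((Finset.range (h n)).filter fun i => g (p + i) 0 ≠ 0).card = cnt n (g p n) := by
  induction n generalizing p with
  | zero =>
    rw [h_zero]
    show _ = if (g p 0).1 ≠ 0 then 1 else 0
    rw [Finset.card_filter, Finset.sum_range_one, add_zero]
    have : g p 0 ≠ 0 ↔ (g p 0).1 ≠ 0 := by
      rw [not_iff_not]
      constructor
      · intro h
        rw [h]
        rfl
      · intro h
        exact Prod.ext h (g_zero_low hg p)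
    by_cases hx : (g p 0).1 ≠ 0
    · rw [if_pos hx, if_pos (this.2 hx)]
    · rw [if_neg hx, if_neg (fun h => hx (this.1 h))]
  | succ n ih =>
    rw [Finset.card_filter, h_succ, mul_comm]
    show _ = ∑ a ∈ Finset.range (q n), cnt n (f n a (g p (n + 1)))
    have hsum : ∀ (F : ℕ → ℕ) (A B : ℕ), ∑ i ∈ Finset.range (A * B), F i =
        ∑ a ∈ Finset.range A, ∑ i ∈ Finset.range B, F (a * B + i) := by
      intro F A B
      induction A with
      | zero => simp
      | succ A ihA =>
        rw [Nat.succ_mul, Finset.sum_range_add, ihA, Finset.sum_range_succ]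
    rw [hsum]
    refine Finset.sum_congr rfl fun a ha => ?_
    obtain ⟨h1, h2⟩ := sub_block hr hg n p a h0 (Finset.mem_range.1 ha)
    rw [← h2, ← ih _ h1, Finset.card_filter]
    refine Finset.sum_congr rfl fun i _ => ?_
    rw [add_assoc]

end

end LBM

theorem specLB (hb : SpecBal) : SpecLB := by
  intro r g hr hg n p h0 hne
  rw [LBM.card_eq_cnt hr hg n p h0]
  refine LBM.cnt_lower hb n _ hne ?_
  rw [hg.down p n]
  exact LBM.low_f n _ _

end MP195885
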