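import Pool.Agent.Lib.MP_195885_an.Cb

/-!
# Modules Minus and NoDC
-/

open MeasureTheory Filter Topology Set

namespace MP195885

namespace MinusM
open ChainM

theorem cut_cut_of_f (n a : ℕ) (ha : a % 2 = 0) (v : K) : f n a v = cut n v := by
  unfold f
  rw [con_even n a ha, add_zero]

open Classical in
/-- Lower bound for the number of nonzero positions of a family of disjoint full blocks. -/
theorem blocks_le {g : ℕ → ℕ → K} {H c P N : ℕ} (hH : 0 < H) (S : Finset ℕ)
    (hS : ∀ b ∈ S, ∀ i < H, b * H + i + P < N)
    (hb : ∀ b ∈ S, H ≤ c * ((Finset.range H).filter fun i => g (b * H + P + i) 0 ≠ 0).card) :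
    S.card * H ≤ c * nz g 0 N := by
  have h1 : ∑ b ∈ S, ((Finset.range H).filter fun i => g (b * H + P + i) 0 ≠ 0).card
      ≤ nz g 0 N := by
    rw [← Finset.card_sigma]
    unfold nz
    apply Finset.card_le_card_of_injOn (fun x : (_ : ℕ) × ℕ => x.1 * H + P + x.2)
    · rintro ⟨b, i⟩ hx
      simp only [Finset.coe_sigma, Set.mem_sigma_iff, Finset.mem_coe, Finset.mem_filter,
        Finset.mem_range] at hx
      simp only [Finset.coe_filter, Finset.mem_range, Set.mem_ofPred_eq]
      have := hS b hx.1 i hx.2.1
      exact ⟨by omega, hx.2.2⟩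
    · rintro ⟨b, i⟩ hx ⟨b', i'⟩ hx' heq
      simp only [Finset.coe_sigma, Set.mem_sigma_iff, Finset.mem_coe, Finset.mem_filter,
        Finset.mem_range] at hx hx'
      have heq' : b * H + i = b' * H + i' := by
        have : b * H + P + i = b' * H + P + i' := heq
        omega
      have e1 : (b * H + i) / H = b := by
        rw [mul_comm, Nat.mul_add_div hH, Nat.div_eq_of_lt hx.2.1, add_zero]
      have e2 : (b' * H + i') / H = b' := by
        rw [mul_comm, Nat.mul_add_div hH, Nat.div_eq_of_lt hx'.2.1, add_zero]
      have e3 : b = b' := by rw [← e1, heq', e2]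
      subst e3
      have e4 : i = i' := by omega
      rw [e4]
  calc S.card * H = ∑ _b ∈ S, H := by rw [Finset.sum_const, smul_eq_mul]
    _ ≤ ∑ b ∈ S, c * ((Finset.range H).filter fun i => g (b * H + P + i) 0 ≠ 0).card :=
        Finset.sum_le_sum hb
    _ = c * ∑ b ∈ S, ((Finset.range H).filter fun i => g (b * H + P + i) 0 ≠ 0).card := by
        rw [Finset.mul_sum]
    _ ≤ c * nz g 0 N := Nat.mul_le_mul_left _ h1

theorem even_card (F : ℕ) : F ≤ 2 * ((Finset.range F).filter fun b => b % 2 = 0).card := by
  induction F with
  | zero => simp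
  | succ F ih =>
    rcases Nat.even_or_odd F with h0 | h0
    · have h2 : F % 2 = 0 := Nat.even_iff.mp h0
      rw [Finset.range_add_one, Finset.filter_insert, if_pos h2, Finset.card_insert_of_notMem
        (by simp)]
      omega
    · -- F odd: then F ≤ 2 card and F odd gives F + 1 ≤ 2 card
      have h2 : F % 2 = 1 := Nat.odd_iff.mp h0
      rw [Finset.range_add_one, Finset.filter_insert, if_neg (by omega)]
      omega

end MinusM

open ChainM MinusM

theorem specMinus (hLB : SpecLB) : SpecMinus := by
  rintro r g hr hg hlow ⟨p0, hp0⟩
  have hc0 : ∀ n, cpos r n p0 + 1 = h n := by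
    intro n
    induction n with
    | zero =>
      have := cpos_lt r 0 p0
      rw [h_zero] at *; omega
    | succ n ih =>
      rw [cpos_succ hr n p0, add_assoc, ih, h_succ]
      have := hp0 n
      have h1 : cdig r n p0 * h n + h n = (cdig r n p0 + 1) * h n := by ring
      rw [h1, this, mul_comm]
  have hP : ∀ n, cpos r n (p0 + 1) = 0 := by
    intro n
    have h1 := hc0 n
    unfold cpos at *
    rw [← add_assoc, ← Nat.mod_add_mod, h1, Nat.mod_self]
  set P := p0 + 1 with hPdef
  have hdig : ∀ n, cdig r n P = 0 := by
    intro n; unfold cdig; rw [hP]; simp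
  have hgam : ∀ n, g P n = cut n (g P (n + 1)) := by
    intro n
    rw [hg.down P n, hdig n, cut_cut_of_f n 0 (by rfl)]
  by_cases hall : ∀ n, g P n = 0
  · refine ⟨P, fun p hp n => ?_⟩
    set m := max n (p - P) with hm
    have h1 : p - P < h m := lt_of_le_of_lt (le_max_right _ _) (lt_h m)
    have h2 := flow_add hg (n := m) (p := P) (p - P) (by rw [hP]; omega)
    rw [Nat.add_sub_cancel' hp, hall] at h2
    exact down_zero hg h2 n (le_max_left _ _)
  · exfalso
    push Not at hall
    obtain ⟨n0, hn0⟩ := hall
    have hne : ∀ n, n0 ≤ n → g P n ≠ 0 := by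
      intro n hn h0
      exact hn0 (down_zero hg h0 n0 hn)
    obtain ⟨N, hN, hN2⟩ := (Filter.frequently_atTop.mp (hlow (1 / 100) (by norm_num)))
      (2 * P + 1 + h n0)
    have hNP : h n0 ≤ N - P := by omega
    -- choose n
    obtain ⟨n, hn1, hn2, hn3⟩ : ∃ n, n0 ≤ n ∧ h n ≤ N - P ∧ N - P < h (n + 1) := by
      have hex : ∃ m, N - P < h m := ⟨N - P, lt_h _⟩
      classical
      set m := Nat.find hex with hm
      have hm1 : N - P < h m := Nat.find_spec hex
      have hm0 : n0 < m := by
        by_contra hcon
        push Not at hcon
        have := h_mono hcon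
        omega
      refine ⟨m - 1, by omega, ?_, ?_⟩
      · have := Nat.find_min hex (m := m - 1) (by omega)
        omega
      · have : m - 1 + 1 = m := by omega
        rw [this]; exact hm1
    have hpos := h_pos n
    set F := (N - P) / h n with hF
    have hF1 : 1 ≤ F := (Nat.le_div_iff_mul_le hpos).mpr (by simpa using hn2)
    have hF2 : F * h n ≤ N - P := Nat.div_mul_le_self _ _
    have hF3 : N - P < (F + 1) * h n := by
      have h1 := Nat.div_add_mod (N - P) (h n)
      have h2 := Nat.mod_lt (N - P) hpos
      rw [← hF] at h1
      nlinarith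
    have key : ((Finset.range F).filter fun b => b % 2 = 0).card * h n ≤ 12 * nz g 0 N := by
      apply blocks_le (P := P) hpos
      · intro b hb i hi
        rw [Finset.mem_filter, Finset.mem_range] at hb
        have : (b + 1) * h n ≤ F * h n := Nat.mul_le_mul_right _ hb.1
        have h3 : (b + 1) * h n = b * h n + h n := by ring
        omega
      · intro b hb
        rw [Finset.mem_filter, Finset.mem_range] at hb
        have h4 : (b + 1) * h n ≤ F * h n := Nat.mul_le_mul_right _ hb.1
        have h3 : (b + 1) * h n = b * h n + h n := by ring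
        have h5 : b * h n < h (n + 1) := by omega
        have h6 := cpos_add (r := r) (n := n + 1) (p := P) (i := b * h n) (by rw [hP]; omega)
        rw [hP, zero_add] at h6
        obtain ⟨h7, h8⟩ := digit_of hr (n := n) (p := P + b * h n) (d := b) (i := 0) hpos
          (by rw [h6]; ring)
        have h9 := flow_add hg (n := n + 1) (p := P) (b * h n) (by rw [hP]; omega)
        have h10 : g (P + b * h n) n = g P n := by
          rw [hg.down (P + b * h n) n, h9, h7, cut_cut_of_f n b hb.2, ← hgam n]
        have h11 := hLB r g hr hg n (P + b * h n) h8 (by rw [h10]; exact hne n hn1)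
        have h12 : P + b * h n = b * h n + P := by ring
        rw [h12] at h11
        exact h11
    have hev := even_card F
    have h13 : F * h n ≤ 24 * nz g 0 N := by
      calc F * h n ≤ (2 * ((Finset.range F).filter fun b => b % 2 = 0).card) * h n :=
            Nat.mul_le_mul_right _ hev
        _ = 2 * (((Finset.range F).filter fun b => b % 2 = 0).card * h n) := by ring
        _ ≤ 2 * (12 * nz g 0 N) := Nat.mul_le_mul_left _ key
        _ = 24 * nz g 0 N := by ring
    have h14 : N - P < 48 * nz g 0 N := by
      have : (F + 1) * h n ≤ 2 * (F * h n) := by nlinarith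
      omega
    have h15 : (N : ℝ) - P < 48 * nz g 0 N := by
      have h16 : N < 48 * nz g 0 N + P := by omega
      have : (N : ℝ) < 48 * nz g 0 N + P := by exact_mod_cast h16
      linarith
    have h17 : (2 * (P : ℝ) + 1) ≤ N := by
      have : 2 * P + 1 ≤ N := by omega
      exact_mod_cast this
    have h18 : (0 : ℝ) ≤ P := by positivity
    linarith

open Classical in
theorem specNoDC (h1 : SpecSingle) (h2 : SpecMinus) (h3 : SpecHalf) : SpecNoDC := by
  intro r g hr hg hlow J
  by_cases hcar : ∀ p, ∃ m, cdig r m p + 1 < q m
  · by_cases hne : ∃ n₀, ∀ n, n₀ ≤ n → g 0 n ≠ 0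
    · obtain ⟨n1, hn1⟩ := h1 r g hr hg hlow hcar hne
      obtain ⟨n0, hn0⟩ := hne
      exact h3 r g hr hg hlow hcar
        ⟨max n0 n1, fun n hn => ⟨hn0 n (le_trans (le_max_left _ _) hn),
          hn1 n (le_trans (le_max_right _ _) hn)⟩⟩ J
    · push Not at hne
      have h0 : ∀ n, g 0 n = 0 := by
        intro n
        obtain ⟨m, hm, hm0⟩ := hne n
        exact down_zero hg hm0 n hm
      have hall : ∀ p n, g p n = 0 := by
        intro p
        induction p with
        | zero => exact h0
        | succ p ih =>
          obtain ⟨m, hm⟩ := hcar p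
          have hc : ∀ n, m + 1 ≤ n → cpos r n p + 1 < h n := by
            intro n hn
            induction n, hn using Nat.le_induction with
            | base =>
              rw [cpos_succ hr m p, h_succ]
              have e1 := cpos_lt r m p
              have e2 : (cdig r m p + 2) * h m ≤ q m * h m := Nat.mul_le_mul_right _ hm
              have e3 : (cdig r m p + 2) * h m = cdig r m p * h m + h m + h m := by ring
              have e4 : q m * h m = h m * q m := mul_comm _ _
              have e5 := h_pos m
              omega
            | succ n _ ihn =>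
              rw [cpos_succ hr n p, h_succ]
              have e0 := cdig_lt r n p
              have e2 : (cdig r n p + 1) * h n ≤ q n * h n := Nat.mul_le_mul_right _ e0
              have e3 : (cdig r n p + 1) * h n = cdig r n p * h n + h n := by ring
              have e4 : q n * h n = h n * q n := mul_comm _ _
              omega
          intro n
          have hM : g (p + 1) (max n (m + 1)) = 0 := by
            rw [hg.step p _ (hc _ (le_max_right _ _))]
            exact ih _
          exact down_zero hg hM n (le_max_left _ _)
      refine ⟨0, fun N => ?_⟩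
      have : nz g J N = 0 := by
        unfold nz
        rw [Finset.card_eq_zero, Finset.filter_eq_empty_iff]
        intro p _
        simp [hall p J]
      omega
  · push Not at hcar
    obtain ⟨p, hp⟩ := hcar
    have hp' : ∃ p, ∀ m, cdig r m p + 1 = q m :=
      ⟨p, fun m => le_antisymm (cdig_lt r m p) (hp m)⟩
    obtain ⟨P, hP⟩ := h2 r g hr hg hlow hp'
    refine ⟨2 * P, fun N => ?_⟩
    have : nz g J N ≤ P := by
      unfold nz
      calc _ ≤ (Finset.range P).card := by
            apply Finset.card_le_card
            intro x hx
            rw [Finset.mem_filter] at hx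
            rw [Finset.mem_range]
            by_contra hcon
            exact hx.2 (hP x (by omega) J)
        _ = P := Finset.card_range P
    omega

end MP195885
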