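import Pool.Agent.Lib.MP_195885_an.FlowBasic

/-!
# Assembly, part 1: no DC1½-scrambled pair; uniform DC2 for the chain pairs
-/

open MeasureTheory Filter Topology Set

namespace MP195885

theorem TX_iter (x : X) (p : ℕ) :
    (TX^[p] x).1.1 = x.1.1 + p • oneZ ∧ (TX^[p] x).1.2 = fun i => x.1.2 (p + i) := by
  induction p with
  | zero => simp
  | succ p ih =>
    rw [Function.iterate_succ_apply']
    obtain ⟨h1, h2⟩ := ih
    constructor
    · show (TX^[p] x).1.1 + oneZ = _
      rw [h1, succ_nsmul, add_assoc]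
    · show (fun i => (TX^[p] x).1.2 (i + 1)) = _
      rw [h2]
      funext i
      show x.1.2 (p + (i + 1)) = x.1.2 (p + 1 + i)
      rw [show p + (i + 1) = p + 1 + i by omega]

theorem TX_iter_fst (x : X) (p : ℕ) : (TX^[p] x).1.1 = x.1.1 + p • oneZ := (TX_iter x p).1

theorem TX_iter_snd (x : X) (p i n : ℕ) : (TX^[p] x).1.2 i n = x.1.2 (p + i) n := by
  rw [(TX_iter x p).2]

theorem pos_injective {z z' : Z} (hz : ∀ n, pos n z = pos n z') : z = z' := by
  apply Subtype.ext
  funext n
  exact ZMod.val_injective _ (hz n)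

theorem pos_add_ne {z z' : Z} {n : ℕ} (hz : pos n z ≠ pos n z') (w : Z) :
    pos n (z + w) ≠ pos n (z' + w) := by
  intro hh
  apply hz
  have h1 : (z + w).1 n = (z' + w).1 n := ZMod.val_injective _ hh
  have h2 : z.1 n + w.1 n = z'.1 n + w.1 n := h1
  exact congrArg ZMod.val (add_right_cancel h2)

/-- The difference of two flows over the same clock is a flow. -/
theorem IsFlow.add {r : ℕ → ℕ} {g g' : ℕ → ℕ → K} (hg : IsFlow r g) (hg' : IsFlow r g') :
    IsFlow r (fun p n => g p n + g' p n) where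
  down p n := by
    show g p n + g' p n = _
    rw [hg.down, hg'.down, f_add]
  step p n hp := by
    show g (p + 1) n + g' (p + 1) n = _
    rw [hg.step p n hp, hg'.step p n hp]

/-- If the current block of level `J` is zero and the time `n + p` is in a later block. -/
theorem far_mem {r : ℕ → ℕ} {g : ℕ → ℕ → K} (hg : IsFlow r g) {J n p : ℕ}
    (h0 : g n J = 0) (h1 : g (n + p) J ≠ 0) :
    ∃ i, i < p ∧ cpos r J (n + (i + 1)) = 0 := by
  by_contra hcon
  push Not at hcon
  apply h1
  have : ∀ i, i ≤ p → g (n + i) J = 0 := by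
    intro i
    induction i with
    | zero => intro _; exact h0
    | succ i ih =>
      intro hi
      have h2 := hcon i hi
      rw [← add_assoc, cpos_succ] at h2
      have h3 : cpos r J (n + i) + 1 < h J := by
        by_contra h4
        apply h2
        have := cpos_lt r J (n + i)
        have h5 : cpos r J (n + i) + 1 = h J := by omega
        rw [h5, Nat.mod_self]
      rw [← add_assoc, hg.step _ _ h3]
      exact ih (by omega)
  exact this p le_rfl

theorem card_mod_le (N c k : ℕ) :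
    ((Finset.range N).filter fun n => (n + c) % k = 0).card ≤ N / k + 1 := by
  have : ((Finset.range N).filter fun n => (n + c) % k = 0).card
      ≤ (Finset.range (N / k + 1)).card := by
    apply Finset.card_le_card_of_injOn (fun n => n / k)
    · intro n hn
      have hn' := Finset.mem_filter.mp (Finset.mem_coe.mp hn)
      have h1 := Finset.mem_range.mp hn'.1
      apply Finset.mem_coe.mpr
      apply Finset.mem_range.mpr
      exact Nat.lt_succ_of_le (Nat.div_le_div_right h1.le)
    · intro a ha b hb hab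
      have ha' := (Finset.mem_filter.mp (Finset.mem_coe.mp ha)).2
      have hb' := (Finset.mem_filter.mp (Finset.mem_coe.mp hb)).2
      have h1 : a + c ≡ b + c [MOD k] := by
        unfold Nat.ModEq; rw [ha', hb']
      have h2 : a ≡ b [MOD k] := Nat.ModEq.add_right_cancel' c h1
      have h3 := Nat.div_add_mod a k
      have h4 := Nat.div_add_mod b k
      unfold Nat.ModEq at h2
      simp only at hab
      rw [← h3, ← h4, hab, h2]
  rwa [Finset.card_range] at this

open Classical in
/-- Counting the times followed closely by a nonzero content. -/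
theorem far_count {r : ℕ → ℕ} {g : ℕ → ℕ → K} (hg : IsFlow r g) {J J' : ℕ}
    (hJ : J ≤ J') (N : ℕ) :
    ((Finset.range N).filter fun n => ∃ p, p ≤ J ∧ g (n + p) J ≠ 0).card
      ≤ nz g J' N + J * (N / h J' + 1) := by
  have hsub : ((Finset.range N).filter fun n => ∃ p, p ≤ J ∧ g (n + p) J ≠ 0)
      ⊆ ((Finset.range N).filter fun n => g n J' ≠ 0) ∪
        (Finset.range J).biUnion fun i =>
          (Finset.range N).filter fun n => (n + (r J' + i + 1)) % h J' = 0 := by
    intro n hn
    obtain ⟨h1, p, hp, h2⟩ := Finset.mem_filter.mp hn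
    by_cases h3 : g n J' = 0
    · apply Finset.mem_union_right
      have h4 : g (n + p) J' ≠ 0 := fun h5 => h2 (hg.zero_down hJ h5)
      obtain ⟨i, hi, h6⟩ := far_mem hg h3 h4
      refine Finset.mem_biUnion.mpr ⟨i, Finset.mem_range.mpr (by omega), ?_⟩
      refine Finset.mem_filter.mpr ⟨h1, ?_⟩
      unfold cpos at h6
      rw [← h6]; congr 1; omega
    · exact Finset.mem_union_left _ (Finset.mem_filter.mpr ⟨h1, h3⟩)
  refine (Finset.card_le_card hsub).trans ((Finset.card_union_le _ _).trans ?_)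
  refine Nat.add_le_add le_rfl ?_
  refine Finset.card_biUnion_le.trans ?_
  refine (Finset.sum_le_sum fun i _ => card_mod_le N (r J' + i + 1) (h J')).trans ?_
  rw [Finset.sum_const, Finset.card_range, smul_eq_mul]

theorem five_pow_le_h (n : ℕ) : 5 ^ n ≤ h n := by
  induction n with
  | zero => rw [h_zero]; norm_num
  | succ n ih => rw [h_succ, pow_succ]; exact Nat.mul_le_mul ih (five_le_q n)

theorem le_h (n : ℕ) : n ≤ h n :=
  ((Nat.lt_pow_self (by norm_num : 1 < 5)).le).trans (five_pow_le_h n)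

/-- For every `ε` there is a level `J' ≥ J` with `J / h J' ≤ ε`. -/
theorem exists_level (J : ℕ) {ε : ℝ} (hε : 0 < ε) : ∃ J', J ≤ J' ∧ (J : ℝ) / h J' ≤ ε := by
  obtain ⟨m, hm⟩ := exists_nat_ge ((J : ℝ) / ε)
  refine ⟨max J m, le_max_left _ _, ?_⟩
  have h1 : (m : ℝ) ≤ h (max J m) := by
    have := (le_max_right J m).trans (le_h (max J m))
    exact_mod_cast this
  have h2 : (0 : ℝ) < h (max J m) := by exact_mod_cast h_pos _
  rw [div_le_iff₀ h2]
  rw [div_le_iff₀ hε] at hm
  nlinarith

/-- The bound used for both assembly modules. -/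
theorem far_count_real {r : ℕ → ℕ} {g : ℕ → ℕ → K} (hg : IsFlow r g) {J J' : ℕ}
    (hJ : J ≤ J') {ε : ℝ} (hε : (J : ℝ) / h J' ≤ ε) (S : Finset ℕ) (N : ℕ)
    (hS : ∀ n ∈ S, n < N ∧ ∃ p, p ≤ J ∧ g (n + p) J ≠ 0) :
    (S.card : ℝ) ≤ nz g J' N + ε * N + J := by
  classical
  have h1 : S ⊆ (Finset.range N).filter fun n => ∃ p, p ≤ J ∧ g (n + p) J ≠ 0 := by
    intro n hn
    obtain ⟨h1, h2⟩ := hS n hn
    exact Finset.mem_filter.mpr ⟨Finset.mem_range.mpr h1, h2⟩
  have h2 := (Finset.card_le_card h1).trans (far_count hg hJ N)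
  have h3 : (S.card : ℝ) ≤ nz g J' N + J * (((N / h J' : ℕ) : ℝ) + 1) := by exact_mod_cast h2
  have h4 : ((N / h J' : ℕ) : ℝ) ≤ (N : ℝ) / h J' := Nat.cast_div_le
  have h5 : (J : ℝ) * (N / h J' : ℕ) ≤ ε * N := by
    calc (J : ℝ) * (N / h J' : ℕ) ≤ J * ((N : ℝ) / h J') :=
          mul_le_mul_of_nonneg_left h4 (Nat.cast_nonneg _)
      _ = (J / h J') * N := by ring
      _ ≤ ε * N := mul_le_mul_of_nonneg_right hε (Nat.cast_nonneg _)
  nlinarith

theorem specPairNo (hN : SpecNoDC) (hT : SpecTop) (hUA : SpecUA) (hUD : SpecUD) : SpecPairNo := by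
  classical
  intro x y hxy
  obtain ⟨hua, hfar⟩ := hxy
  obtain ⟨_, _, h3, h4⟩ := hT
  rw [hUA X TX x y] at hua
  by_cases hz : x.1.1 = y.1.1
  · -- same odometer point
    have hfx : IsFlow (fun n => pos n x.1.1) x.1.2 := x.2
    have hfy : IsFlow (fun n => pos n x.1.1) y.1.2 := by rw [hz]; exact y.2
    set g : ℕ → ℕ → K := fun p n => x.1.2 p n + y.1.2 p n with hgdef
    have hg : IsFlow (fun n => pos n x.1.1) g := hfx.add hfy
    have hne : ∀ p n, g p n ≠ 0 ↔ x.1.2 p n ≠ y.1.2 p n := by
      intro p n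
      rw [hgdef]; exact not_congr (K.add_eq_zero_iff _ _)
    -- low density
    have hlow : LowDens g := by
      intro ε hε
      obtain ⟨s, hs, hs'⟩ := h3 0
      refine (hua s hs ε hε).mono fun N hN' => le_trans ?_ hN'
      unfold nz
      norm_cast
      refine Finset.card_le_card fun n hn => ?_
      obtain ⟨h5, h6⟩ := Finset.mem_filter.mp hn
      refine Finset.mem_filter.mpr ⟨h5, hs' _ _ (Or.inr ?_)⟩
      rw [TX_iter_snd, TX_iter_snd, add_zero]
      exact (hne n 0).mp h6
    obtain ⟨s, hs, hs'⟩ := hfar (9 / 10) (by norm_num)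
    obtain ⟨J, hJ⟩ := h4 s hs
    obtain ⟨J', hJ', hJ''⟩ := exists_level J (ε := 1 / 10) (by norm_num)
    obtain ⟨C, hC⟩ := hN _ g (isClock_pos x.1.1) hg hlow J'
    have hub : upperDensity (farSet TX s x y) ≤ 6 / 10 := by
      refine hUD.2 _ (6 / 10) ((C : ℝ) / 2 + J) (Eventually.of_forall fun N => ?_)
      have hb := far_count_real hg hJ' hJ''
        ((Finset.range N).filter fun n => n ∈ farSet TX s x y) N (by
          intro n hn
          obtain ⟨h5, h6⟩ := Finset.mem_filter.mp hn
          refine ⟨Finset.mem_range.mp h5, ?_⟩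
          rcases hJ _ _ h6 with h7 | ⟨p, hp, h7⟩
          · exfalso; apply h7
            rw [TX_iter_fst, TX_iter_fst, hz]
          · rw [TX_iter_snd, TX_iter_snd] at h7
            exact ⟨p, hp, (hne _ _).mpr h7⟩)
      have h5 : (2 : ℝ) * nz g J' N ≤ N + C := by exact_mod_cast hC N
      linarith
    linarith
  · -- different odometer points
    have : ∃ n, pos n x.1.1 ≠ pos n y.1.1 := by
      by_contra hcon
      push Not at hcon
      exact hz (pos_injective hcon)
    obtain ⟨J, hJ⟩ := this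
    obtain ⟨s, hs, hs'⟩ := h3 J
    have h5 := hua s hs (1 / 2) (by norm_num)
    obtain ⟨N, hN1, hN2⟩ := (h5.and_eventually (eventually_ge_atTop 1)).exists
    have h6 : ((Finset.range N).filter fun n => s ≤ dist (TX^[n] x) (TX^[n] y))
        = Finset.range N := by
      apply Finset.filter_true_of_mem
      intro n _
      apply hs'
      left
      rw [TX_iter_fst, TX_iter_fst]
      exact pos_add_ne hJ _
    rw [h6, Finset.card_range] at hN1
    have : (1 : ℝ) ≤ N := by exact_mod_cast hN2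
    linarith

theorem hb_add (ℓ : ℕ → ℕ) (b b' : ℕ → ZMod 2) : hb ℓ (b + b') = hb ℓ b + hb ℓ b' := by
  classical
  refine Prod.ext (by simp [hb]) ?_
  funext k
  simp only [hb, Prod.snd_add, Pi.add_apply]
  by_cases hk : k ∈ Set.range ℓ
  · simp only [hk, if_true]; rfl
  · simp only [hk, if_false, add_zero]

theorem specPairDC2 (hC : SpecChain) (hHb : SpecHb) (hF : SpecFlow) (hT : SpecTop) (hUA : SpecUA)
    (hUD : SpecUD) : SpecPairDC2 := by
  classical
  obtain ⟨_, _, h3, h4⟩ := hT
  obtain ⟨s, hs, hs'⟩ := h3 0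
  refine ⟨s, hs, ?_⟩
  intro z ℓ hℓ hℓ0 hκ hsp k b b' hbb x y hx hy
  set g : ℕ → ℕ → K := flow (z, hb ℓ (b + b')) with hgdef
  have hg : IsFlow (fun n => pos n z) g := hF.1 (z, hb ℓ (b + b'))
  have hsum : ∀ p n, g p n = x.1.2 p n + y.1.2 p n := by
    intro p n
    rw [hx, hy]
    show flow (z, hb ℓ (b + b')) p n = flow (z, k + hb ℓ b) p n + flow (z, k + hb ℓ b') p n
    rw [hb_add, hF.2.1, hF.2.1 z k, hF.2.1 z k]
    have := K.add_self (flow (z, k) p n)
    calc flow (z, hb ℓ b) p n + flow (z, hb ℓ b') p n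
        = (flow (z, k) p n + flow (z, k) p n)
          + (flow (z, hb ℓ b) p n + flow (z, hb ℓ b') p n) := by rw [this, zero_add]
      _ = _ := by abel
  have hne : ∀ p n, g p n ≠ 0 ↔ x.1.2 p n ≠ y.1.2 p n := by
    intro p n
    rw [hsum]; exact not_congr (K.add_eq_zero_iff _ _)
  have hxz : x.1.1 = z := by rw [hx]
  have hyz : y.1.1 = z := by rw [hy]
  have hbne : b + b' ≠ 0 := by
    intro h0
    apply hbb
    funext i
    have := congrFun h0 i
    simp only [Pi.add_apply, Pi.zero_apply] at this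
    exact (CharTwo.add_eq_zero).mp this
  have hdig : ∀ m, cdig (fun n => pos n z) m 0 = dig m z := by
    intro m
    unfold cdig dig
    rw [cpos_zero_eq (isClock_pos z)]
  obtain ⟨c1, c2⟩ := hC (fun n => pos n z) (isClock_pos z) ℓ hℓ hκ
    (fun i => by rw [hdig]; exact hsp i) (b + b') hbne g hg (by
      intro i n h1 h2
      exact hHb z ℓ hℓ hℓ0 hκ hsp (b + b') i n h1 h2)
  constructor
  · rw [hUA X TX x y]
    intro s' hs'' ε hε
    obtain ⟨J, hJ⟩ := h4 s' hs''
    obtain ⟨J', hJ', hJ''⟩ := exists_level J (ε := ε / 3) (by positivity)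
    obtain ⟨N₀, hN₀⟩ := exists_nat_ge ((J : ℝ) * 3 / ε)
    refine ((c1 J' (ε / 3) (by positivity)).and_eventually (eventually_ge_atTop N₀)).mono ?_
    rintro N ⟨hN1, hN2⟩
    have hb := far_count_real hg hJ' hJ''
      ((Finset.range N).filter fun n => s' ≤ dist (TX^[n] x) (TX^[n] y)) N (by
        intro n hn
        obtain ⟨h5, h6⟩ := Finset.mem_filter.mp hn
        refine ⟨Finset.mem_range.mp h5, ?_⟩
        rcases hJ _ _ h6 with h7 | ⟨p, hp, h7⟩
        · exfalso; apply h7
          rw [TX_iter_fst, TX_iter_fst, hxz, hyz]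
        · rw [TX_iter_snd, TX_iter_snd] at h7
          exact ⟨p, hp, (hne _ _).mpr h7⟩)
    have h5 : (N₀ : ℝ) ≤ N := by exact_mod_cast hN2
    rw [div_le_iff₀ hε] at hN₀
    have h6 : (J : ℝ) ≤ ε / 3 * N := by nlinarith
    linarith
  · refine hUD.1 _ _ (c2.mono fun N hN => ?_)
    have h5 : nz g 0 N ≤ ((Finset.range N).filter fun n => n ∈ farSet TX s x y).card := by
      unfold nz
      refine Finset.card_le_card fun n hn => ?_
      obtain ⟨h5, h6⟩ := Finset.mem_filter.mp hn
      refine Finset.mem_filter.mpr ⟨h5, hs' _ _ (Or.inr ?_)⟩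
      rw [TX_iter_snd, TX_iter_snd, add_zero]
      exact (hne n 0).mp h6
    have h6 : (N : ℝ) ≤ 144 * nz g 0 N := by exact_mod_cast hN
    have h7 : (nz g 0 N : ℝ) ≤ (((Finset.range N).filter fun n =>
      n ∈ farSet TX s x y).card : ℝ) := by exact_mod_cast h5
    linarith

end MP195885
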