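import Pool.Agent.Lib.MP_195885_an.Spec
import Pool.Agent.Lib.MP_195885_an.MP

open MeasureTheory Filter Topology Set

namespace MP195885
namespace Pers

theorem clock_mod (r : ℕ → ℕ) (hr : IsClock r) (m : ℕ) : ∀ d, r (m + d) % h m = r m := by
  intro d
  induction d with
  | zero => exact Nat.mod_eq_of_lt (hr.lt m)
  | succ d ih =>
    have hdvd : h m ∣ h (m + d) := by
      clear ih
      induction d with
      | zero => exact dvd_refl _
      | succ d ih => exact ih.trans (h_dvd (m + d))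
    have := hr.mod (m + d)
    rw [← Nat.mod_mod_of_dvd _ hdvd]
    rw [show m + (d + 1) = m + d + 1 from rfl, this, ih]

theorem dig_eq (z : Z) (j n : ℕ) (hj : j < n) : dig j z = dg j (pos n z) := by
  unfold dig dg
  obtain ⟨d, rfl⟩ := Nat.exists_eq_add_of_le (show j + 1 ≤ n from hj)
  have : pos (j + 1 + d) z % h (j + 1) = pos (j + 1) z :=
    clock_mod (fun n => pos n z) (isClock_pos z) (j + 1) d
  rw [this]

theorem pos_set_meas (n i : ℕ) : MeasurableSet {z : Z | pos n z = i} :=
  (MPres.pos_meas n) (MeasurableSet.of_discrete (s := {i}))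

theorem pos_shift (n i : ℕ) (hi : i + 1 < h n) :
    mZ {z : Z | pos n z = i + 1} = mZ {z : Z | pos n z = i} := by
  have h1 : MeasurePreserving (fun z : Z => z + oneZ) mZ mZ := measurePreserving_add_right mZ oneZ
  rw [← h1.measure_preimage (pos_set_meas n (i + 1)).nullMeasurableSet]
  congr 1
  ext z
  simp only [mem_preimage, mem_ofPred_eq, pos_add_one]
  have hlt : pos n z < h n := ZMod.val_lt _
  constructor
  · intro hz
    by_cases hc : pos n z + 1 < h n
    · rw [Nat.mod_eq_of_lt hc] at hz; omega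
    · have : pos n z + 1 = h n := by omega
      rw [this, Nat.mod_self] at hz; omega
  · intro hz
    rw [hz, Nat.mod_eq_of_lt hi]

theorem pos_eq_zero (n : ℕ) : ∀ i, i < h n → mZ {z : Z | pos n z = i} = mZ {z : Z | pos n z = 0} := by
  intro i
  induction i with
  | zero => intro _; rfl
  | succ i ih => intro hi; rw [pos_shift n i hi, ih (by omega)]

theorem pos_measure (n : ℕ) : (h n : ENNReal) * mZ {z : Z | pos n z = 0} ≤ 1 := by
  have h1 : mZ (⋃ i ∈ Finset.range (h n), {z : Z | pos n z = i})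
      = ∑ i ∈ Finset.range (h n), mZ {z : Z | pos n z = i} := by
    refine measure_biUnion_finset ?_ fun i _ => pos_set_meas n i
    intro i _ j _ hij
    refine Set.disjoint_left.2 fun z hz hz' => hij ?_
    exact hz.symm.trans hz'
  have h2 : ∑ i ∈ Finset.range (h n), mZ {z : Z | pos n z = i}
      = (h n : ENNReal) * mZ {z : Z | pos n z = 0} := by
    rw [Finset.sum_congr rfl fun i hi => pos_eq_zero n i (Finset.mem_range.1 hi), Finset.sum_const,
      Finset.card_range, nsmul_eq_mul]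
  rw [← h2, ← h1]
  exact prob_le_one

theorem mem_filter_any {p : ℕ → Prop} (inst : DecidablePred p) (s : Finset ℕ) (x : ℕ) :
    x ∈ @Finset.filter ℕ p inst s ↔ x ∈ s ∧ p x := Finset.mem_filter

theorem null_k (hC : SpecCount) (k : ℕ) :
    mZ {z : Z | ∀ j, 1 ≤ j → κ j = k → ¬ Special j (dig j z)} = 0 := by
  refine le_antisymm (ENNReal.le_of_forall_pos_le_add ?_) bot_le
  intro ε hε _
  obtain ⟨n, Bad, hBad1, hBad2, hn⟩ : ∃ (n : ℕ) (Bad : Finset ℕ), (∀ x ∈ Bad, x < h n) ∧
      (∀ x < h n, (∀ j, 1 ≤ j → j < n → κ j = k → ¬ Special j (dg j x)) → x ∈ Bad) ∧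
      (Bad.card : ℝ) ≤ ε * (h n : ℝ) := by
    obtain ⟨n, hn⟩ := hC.2.2 k ε (by exact_mod_cast hε)
    refine ⟨n, _, fun x hx => ?_, fun x hx hx2 => ?_, hn⟩
    · exact Finset.mem_range.1 ((mem_filter_any _ _ _).1 hx).1
    · exact (mem_filter_any _ _ _).2 ⟨Finset.mem_range.2 hx, hx2⟩
  have hsub : {z : Z | ∀ j, 1 ≤ j → κ j = k → ¬ Special j (dig j z)} ⊆
      ⋃ x ∈ Bad, {z : Z | pos n z = x} := by
    intro z hz
    refine mem_iUnion₂.2 ⟨pos n z, ?_, rfl⟩
    refine hBad2 _ (ZMod.val_lt _) fun j hj1 hjn hjk => ?_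
    rw [← dig_eq z j n hjn]
    exact hz j hj1 hjk
  have h1 : mZ (⋃ x ∈ Bad, {z : Z | pos n z = x}) ≤ ∑ x ∈ Bad, mZ {z : Z | pos n z = x} :=
    measure_biUnion_finset_le _ _
  have h2 : ∑ x ∈ Bad, mZ {z : Z | pos n z = x} = (Bad.card : ENNReal) * mZ {z : Z | pos n z = 0} := by
    rw [Finset.sum_congr rfl fun x hx => pos_eq_zero n x (hBad1 x hx), Finset.sum_const,
      nsmul_eq_mul]
  have hn' : (Bad.card : ENNReal) ≤ (ε : ENNReal) * (h n : ENNReal) := by
    have : (Bad.card : NNReal) ≤ ε * (h n : NNReal) := by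
      rw [← NNReal.coe_le_coe]
      push_cast
      exact hn
    exact_mod_cast this
  calc mZ {z : Z | ∀ j, 1 ≤ j → κ j = k → ¬ Special j (dig j z)}
      ≤ (Bad.card : ENNReal) * mZ {z : Z | pos n z = 0} := (measure_mono hsub).trans (h1.trans h2.le)
    _ ≤ ((ε : ENNReal) * (h n : ENNReal)) * mZ {z : Z | pos n z = 0} := by gcongr
    _ = (ε : ENNReal) * ((h n : ENNReal) * mZ {z : Z | pos n z = 0}) := by rw [mul_assoc]
    _ ≤ (ε : ENNReal) * 1 := by gcongr; exact pos_measure n
    _ = 0 + ε := by simp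

/-- Haar probability measure on the Cantor group. -/
noncomputable def mB : Measure (ℕ → ZMod 2) := Measure.addHaarMeasure ⊤

instance : mB.IsAddHaarMeasure := by unfold mB; infer_instance
instance : IsProbabilityMeasure mB := ⟨by
  have := Measure.addHaarMeasure_self
    (K₀ := (⊤ : TopologicalSpace.PositiveCompacts (ℕ → ZMod 2)))
  simpa [mB] using this⟩

instance : (𝓝[≠] (0 : ℕ → ZMod 2)).NeBot := by
  have ht : Tendsto (fun n : ℕ => (Pi.single n 1 : ℕ → ZMod 2)) atTop (𝓝[≠] 0) := by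
    rw [tendsto_nhdsWithin_iff]
    constructor
    · rw [tendsto_pi_nhds]
      intro m
      refine tendsto_const_nhds.congr' ?_
      filter_upwards [eventually_gt_atTop m] with n hn
      rw [Pi.single_eq_of_ne (by omega : m ≠ n)]
      rfl
    · refine Eventually.of_forall fun n => ?_
      simp only [mem_compl_iff, mem_singleton_iff]
      intro hh
      have := congrFun hh n
      simp at this
  exact ht.neBot

theorem hb_meas (ℓ : ℕ → ℕ) : Measurable (hb ℓ) := by
  unfold hb
  refine measurable_const.prodMk (measurable_pi_lambda _ fun k => ?_)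
  split_ifs
  · exact measurable_pi_lambda _ fun j => measurable_pi_apply _
  · exact measurable_const

end Pers

open Pers in
theorem specPersist (hC : SpecCount) : SpecPersist := by
  classical
  intro B hB
  have hae1 : ∀ᵐ z ∂mZ, ∀ k : ℕ, ∃ j, 1 ≤ j ∧ κ j = k ∧ Special j (dig j z) := by
    rw [ae_all_iff]
    intro k
    rw [ae_iff]
    have := null_k hC k
    refine le_antisymm ((measure_mono ?_).trans this.le) bot_le
    intro z hz
    simp only [mem_ofPred_eq, not_exists, not_and] at hz ⊢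
    exact hz
  have hae2 : ∀ᵐ z ∂mZ, mK (Prod.mk z ⁻¹' B) = 0 :=
    Measure.measure_ae_null_of_prod_null (by exact hB)
  obtain ⟨z, hz1, hz2⟩ := (hae1.and hae2).exists
  choose J hJ1 hJ2 hJ3 using hz1
  let ℓ : ℕ → ℕ := fun i => Nat.rec 0 (fun _ x => J x) i
  have hℓ0 : ℓ 0 = 0 := rfl
  have hℓs : ∀ i, ℓ (i + 1) = J (ℓ i) := fun i => rfl
  have hmono : StrictMono ℓ := by
    refine strictMono_nat_of_lt_succ fun i => ?_
    rw [hℓs]
    have h1 := hJ2 (ℓ i)
    have h2 : κ (J (ℓ i)) < J (ℓ i) := Nat.unpair_lt (hJ1 (ℓ i))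
    omega
  -- the null set
  set N := toMeasurable mK (Prod.mk z ⁻¹' B) with hN
  have hNm : MeasurableSet N := measurableSet_toMeasurable _ _
  have hN0 : mK N = 0 := by rw [hN, measure_toMeasurable]; exact hz2
  let S : Set (K × (ℕ → ZMod 2)) := {x | x.1 + hb ℓ x.2 ∈ N}
  have hSm : MeasurableSet S :=
    (measurable_fst.add ((hb_meas ℓ).comp measurable_snd)) hNm
  have hS0 : (mK.prod mB) S = 0 := by
    have h1 : (mB.prod mK) (Prod.swap ⁻¹' S) = 0 := by
      rw [Measure.measure_prod_null (measurable_swap hSm)]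
      refine Eventually.of_forall fun b => ?_
      show mK ((fun k : K => k + hb ℓ b) ⁻¹' N) = 0
      rw [measure_preimage_add_right, hN0]
    have h2 : MeasurePreserving Prod.swap (mB.prod mK) (mK.prod mB) := Measure.measurePreserving_swap
    rw [← h2.measure_preimage hSm.nullMeasurableSet]
    exact h1
  have hae3 : ∀ᵐ k ∂mK, mB (Prod.mk k ⁻¹' S) = 0 := Measure.measure_ae_null_of_prod_null hS0
  obtain ⟨k, hk⟩ := hae3.exists
  refine ⟨z, ℓ, k, (Prod.mk k ⁻¹' S)ᶜ, hmono, hℓ0, fun i => ?_, fun i => ?_, ?_, ?_⟩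
  · rw [hℓs]; exact hJ2 _
  · rw [hℓs]; exact hJ3 _
  · intro hcount
    have h1 : mB ((Prod.mk k ⁻¹' S)ᶜ) = 0 := hcount.measure_zero mB
    have h2 : mB Set.univ ≤ 0 := by
      rw [← Set.union_compl_self (Prod.mk k ⁻¹' S)]
      refine (measure_union_le _ _).trans ?_
      rw [hk, h1, add_zero]
    rw [measure_univ] at h2
    exact absurd h2 (by simp)
  · intro b hb' hmem
    apply hb'
    show k + hb ℓ b ∈ N
    exact subset_toMeasurable _ _ hmem

end MP195885
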