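import Pool.Agent.Lib.MP_195885_an.FlowBasic

/-!
# MP_195885_an: module Single
-/

open Filter Topology Set

namespace MP195885

namespace SingleM

/-- a single component stays a single component -/
theorem onlyAt_f {n a : ℕ} {v : K} {i : Option ℕ} (hv : OnlyAt v i) :
    ∃ i', OnlyAt (f n a v) i' := by
  rcases i with _ | k
  · have h0 : v.2 n = 0 := hv.2 n (by simp)
    refine ⟨none, fun h => absurd rfl h, fun k _ => ?_⟩
    rw [f_of_top_zero a h0]
    have := hv.2 k (by simp)
    simp only [cut]
    split_ifs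
    · exact this
    · rfl
  · by_cases hk : k = n
    · subst hk
      have h0 : cut k v = 0 := by
        apply Prod.ext
        · exact hv.1 (by simp)
        · funext j
          simp only [cut]
          split_ifs with hj
          · rw [hv.2 j (by
              intro h
              have := Option.some.inj h
              omega)]
            rfl
          · rfl
      rw [f, h0, zero_add]
      exact onlyAt_con _ _ _
    · have h0 : v.2 n = 0 := hv.2 n (by
        intro h
        exact hk (Option.some.inj h))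
      refine ⟨some k, fun _ => ?_, fun j hj => ?_⟩
      · rw [f_of_top_zero a h0]
        exact hv.1 (by simp)
      · rw [f_of_top_zero a h0]
        have := hv.2 j hj
        simp only [cut]
        split_ifs
        · exact this
        · rfl

theorem onlyAt_down {r : ℕ → ℕ} {g : ℕ → ℕ → K} (hg : IsFlow r g) {p n m : ℕ} (hmn : m ≤ n)
    (hn : ∃ i, OnlyAt (g p n) i) : ∃ i, OnlyAt (g p m) i := by
  induction n, hmn using Nat.le_induction with
  | base => exact hn
  | succ n hmn ih =>
    apply ih
    obtain ⟨i, hi⟩ := hn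
    rw [hg.down p n]
    exact onlyAt_f hi

/-! ### growth of `h` and scales -/

theorem h_mono : Monotone h := monotone_nat_of_le_succ fun n => by
  rw [h_succ]
  exact Nat.le_mul_of_pos_right _ (q_pos n)

theorem lt_h (n : ℕ) : n < h n := by
  induction n with
  | zero => rw [h_zero]; norm_num
  | succ n ih =>
    rw [h_succ]
    have := five_le_q n
    calc n + 1 < (n + 1) * 2 := by omega
      _ ≤ h n * 5 := by omega
      _ ≤ h n * q n := Nat.mul_le_mul_left _ this

theorem scale {c B N : ℕ} (hc : 0 < c) (hB : c * h B ≤ N) :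
    ∃ n, B ≤ n ∧ c * h n ≤ N ∧ N < c * h (n + 1) := by
  have hex : ∃ m, N < c * h m := ⟨N, by
    have := lt_h N
    calc N < h N := this
      _ ≤ c * h N := Nat.le_mul_of_pos_left _ hc⟩
  classical
  have h1 := Nat.find_spec hex
  have h2 : B < Nat.find hex := by
    by_contra hlt
    rw [not_lt] at hlt
    have := Nat.mul_le_mul_left c (h_mono hlt)
    omega
  obtain ⟨n, hn⟩ : ∃ n, Nat.find hex = n + 1 := ⟨Nat.find hex - 1, by omega⟩
  refine ⟨n, by omega, ?_, by rw [← hn]; exact h1⟩
  have h3 := Nat.find_min hex (m := n) (by omega)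
  omega

theorem lowDens_nat {g : ℕ → ℕ → K} (hl : LowDens g) {c : ℕ} (hc : 0 < c) (B : ℕ) :
    ∃ N, B ≤ N ∧ c * nz g 0 N ≤ N := by
  have h1 := hl (1 / c) (by positivity)
  obtain ⟨N, hN, h2⟩ := (frequently_atTop.mp h1) B
  refine ⟨N, hN, ?_⟩
  have h3 : (c : ℝ) * nz g 0 N ≤ N := by
    have hc' : (0 : ℝ) < c := by exact_mod_cast hc
    calc (c : ℝ) * nz g 0 N ≤ c * (1 / c * N) := by gcongr
      _ = N := by field_simp
  exact_mod_cast h3

/-! ### counting -/

theorem pair_count (hLB : SpecLB) {r : ℕ → ℕ} {g : ℕ → ℕ → K} (hr : IsClock r)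
    (hg : IsFlow r g) {n s : ℕ} (hs : cpos r n s = 0) {F : ℕ}
    (hadj : ∀ b, b + 1 < F → ¬ (g (s + b * h n) n = 0 ∧ g (s + (b + 1) * h n) n = 0)) :
    ∀ i, 2 * i ≤ F → 12 * nz g 0 s + i * h n ≤ 12 * nz g 0 (s + 2 * i * h n) := by
  have hc : ∀ b, cpos r n (s + b * h n) = 0 := fun b => by
    rw [cpos_add, hs, zero_add, Nat.mul_mod_left]
  intro i
  induction i with
  | zero => intro _; simp
  | succ i ih =>
    intro hi
    have h1 := ih (by omega)
    have h2 := hadj (2 * i) (by omega)
    have e1 : s + 2 * i * h n + h n = s + (2 * i + 1) * h n := by ring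
    have e2 : s + (2 * i + 1) * h n + h n = s + 2 * (i + 1) * h n := by ring
    have m1 : nz g 0 (s + 2 * i * h n) ≤ nz g 0 (s + (2 * i + 1) * h n) := by
      apply nz_mono
      rw [← e1]
      omega
    have m2 : nz g 0 (s + (2 * i + 1) * h n) ≤ nz g 0 (s + 2 * (i + 1) * h n) := by
      apply nz_mono
      rw [← e2]
      omega
    have e3 : (i + 1) * h n = i * h n + h n := by ring
    by_cases h3 : g (s + 2 * i * h n) n = 0
    · have h4 : g (s + (2 * i + 1) * h n) n ≠ 0 := fun h => h2 ⟨h3, h⟩
      have h5 := nz_block hLB hr hg (hc (2 * i + 1)) h4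
      rw [e2] at h5
      omega
    · have h5 := nz_block hLB hr hg (hc (2 * i)) h3
      rw [e1] at h5
      omega

/-- two adjacent zero blocks inside an `(n+1)`-block of content `G` -/
theorem two_zero {n a : ℕ} {G : K} (h1 : f n a G = 0) (h2 : f n (a + 1) G = 0) :
    cut n G = 0 := by
  rcases Nat.mod_two_eq_zero_or_one a with h0 | h0
  · rw [← f_even h0]
    exact h1
  · rw [← f_even (a := a + 1) (by omega)]
    exact h2

theorem onlyAt_of_cut {n : ℕ} {G : K} (h1 : cut n G = 0) (h2 : ∀ k, n + 1 ≤ k → G.2 k = 0) :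
    OnlyAt G (some n) := by
  refine ⟨fun _ => ?_, fun k hk => ?_⟩
  · rw [← cut_fst n, h1]
    rfl
  · rcases Nat.lt_or_ge k n with h3 | h3
    · rw [← cut_snd_lt h3, h1]
      rfl
    · apply h2
      have : k ≠ n := fun h => hk (by rw [h])
      omega

/-- the property of low density scales -/
def PP (g : ℕ → ℕ → K) (n : ℕ) : Prop :=
  (g 0 (n + 1)).1 = 0 ∧ (g 0 n).1 = 1 ∧ ∃ k, ∀ j, j ≠ k → (g 0 n).2 j = 0

theorem low_scale (hLB : SpecLB) {r : ℕ → ℕ} {g : ℕ → ℕ → K} (hr : IsClock r)
    (hg : IsFlow r g) (hl : LowDens g) (hm : ∀ p, ∃ m, cdig r m p + 1 < q m) {n₁ : ℕ}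
    (hn₁ : ∀ n, n₁ ≤ n → ∀ i, ¬ OnlyAt (g 0 n) i) (B : ℕ) : ∃ n, B ≤ n ∧ PP g n := by
  obtain ⟨N, hN1, hN2⟩ := lowDens_nat hl (c := 2000) (by norm_num) (8 * h (max B (max n₁ 1)))
  obtain ⟨n, hn1, hn2, hn3⟩ := scale (by norm_num) hN1
  have hB : B ≤ n := (le_max_left _ _).trans hn1
  have hnn₁ : n₁ ≤ n := ((le_max_left _ _).trans (le_max_right _ _)).trans hn1
  have hn0 : 1 ≤ n := ((le_max_right _ _).trans (le_max_right _ _)).trans hn1
  refine ⟨n, hB, ?_⟩
  have hq := seventeen_le_q hn0
  have hh := h_pos n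
  have hh1 : 17 * h n ≤ h (n + 1) := by
    rw [h_succ, mul_comm]
    exact Nat.mul_le_mul_left _ hq
  -- the modified scale
  set N' := min N (h (n + 1) - 1) with hN'
  have a1 : 8 * h n ≤ N' := by
    rw [hN', le_min_iff]
    constructor
    · exact hn2
    · omega
  have a2 : N' < h (n + 1) := by
    have := min_le_right N (h (n + 1) - 1)
    omega
  have a3 : N ≤ 9 * N' := by
    rcases le_total N (h (n + 1) - 1) with h1 | h1
    · rw [hN', min_eq_left h1]
      omega
    · rw [hN', min_eq_right h1]
      omega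
  have a4 : 2000 * nz g 0 N' ≤ 9 * N' := by
    have : nz g 0 N' ≤ nz g 0 N := nz_mono g 0 (min_le_left _ _)
    omega
  have hfloor : ∀ F : ℕ, 3 ≤ F → F ≤ 3 * (F / 2) := fun F hF => by omega
  set R := Rr r (n + 1) with hR
  have hRpos : 0 < R := Rr_pos r (n + 1)
  rcases Nat.lt_or_ge (2 * R) N' with hcase | hcase
  · -- Case B
    set F := (N' - R) / h n with hF
    have f1 : F * h n ≤ N' - R := Nat.div_mul_le_self _ _
    have f2 : N' - R < F * h n + h n := by
      have := Nat.lt_div_mul_add (a := N' - R) hh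
      rw [hF]
      exact this
    have f3 : 4 ≤ F := by
      rw [hF, Nat.le_div_iff_mul_le hh]
      omega
    have f4 : F ≤ q n := by
      have h1 : F * h n < q n * h n := by
        have : h (n + 1) = q n * h n := by rw [h_succ, mul_comm]
        omega
      exact (Nat.lt_of_mul_lt_mul_right h1).le
    have hcR : cpos r (n + 1) R = 0 := cpos_Rr r (n + 1)
    have hcR' : cpos r n R = 0 := by rw [← cpos_mod hr, hcR, Nat.zero_mod]
    -- two adjacent zero blocks
    have hadj : ∃ b, b + 1 < F ∧ g (R + b * h n) n = 0 ∧ g (R + (b + 1) * h n) n = 0 := by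
      by_contra hcon
      have h1 := pair_count hLB hr hg hcR' (F := F) (fun b hb h => hcon ⟨b, hb, h⟩) (F / 2)
        (by omega)
      have h2 : nz g 0 (R + 2 * (F / 2) * h n) ≤ nz g 0 N' := by
        apply nz_mono
        have h3 : 2 * (F / 2) * h n ≤ F * h n := Nat.mul_le_mul_right _ (by omega)
        omega
      have h4 := hfloor F (by omega)
      have h5 : F * h n ≤ 3 * (F / 2) * h n := Nat.mul_le_mul_right _ h4
      have h6 : 3 * (F / 2) * h n = 3 * ((F / 2) * h n) := by ring
      have h7 : 4 * h n ≤ F * h n := Nat.mul_le_mul_right _ f3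
      omega
    obtain ⟨b, hb1, hb2, hb3⟩ := hadj
    have s1 := hg.sub_block_zero hr hcR (b := b) (by omega)
    have s2 := hg.sub_block_zero hr hcR (b := b + 1) (by omega)
    set c := g R (n + 1) with hc
    have c0 : cut n c = 0 := two_zero (by rw [← s1.2]; exact hb2) (by rw [← s2.2]; exact hb3)
    have cO : OnlyAt c (some n) := onlyAt_of_cut c0 fun k hk => hg.level _ _ hk
    -- neighbour lemma
    obtain ⟨i, hi⟩ := hg.neighbour hr (hm (R - 1)) (n + 1)
    have hR1 : R - 1 + 1 = R := by omega
    rw [hR1, hg.own (by omega : R - 1 < Rr r (n + 1)), ← hc] at hi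
    set δ := c + g 0 (n + 1) with hδ
    have hG : g 0 (n + 1) = c + δ := by
      rw [hδ, ← add_assoc, K.add_self, zero_add]
    -- the own digit
    set z := cdig r n 0 with hz
    have hzM : 2 * M n ≤ z := by
      have h1 := Rr_succ hr n
      rw [← hR, ← hz] at h1
      have h2 : 2 * ((q n - 1 - z) * h n) < q n * h n := by
        have : h (n + 1) = q n * h n := by rw [h_succ, mul_comm]
        omega
      have h3 : 2 * (q n - 1 - z) < q n := by
        have : 2 * (q n - 1 - z) * h n < q n * h n := by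
          calc 2 * (q n - 1 - z) * h n = 2 * ((q n - 1 - z) * h n) := by ring
            _ < _ := h2
        exact Nat.lt_of_mul_lt_mul_right this
      have h4 := q_eq n
      omega
    have hns : ¬ Special n z := by
      rintro ⟨_, _, h3⟩
      have := two_pow_le_M n
      omega
    have hdown := hg.down 0 n
    rw [← hz, hG, f, cut_add, c0, zero_add] at hdown
    -- the contribution
    obtain ⟨τ, hτ⟩ : ∃ τ : ZMod 2, con n z ((c + δ).2 n) = (τ, 0) := by
      by_cases h1 : Hit n z
      · exact ⟨_, con_hit h1 _⟩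
      · exact ⟨0, con_plain hns h1 _⟩
    rw [hτ] at hdown
    have hno := hn₁ n hnn₁
    rcases i with _ | k
    · exfalso
      refine hno none ⟨fun h => absurd rfl h, fun j _ => ?_⟩
      rw [hdown]
      have := hi.2 j (by simp)
      simp [cut, this]
    · have hδ1 : δ.1 = 0 := hi.1 (by simp)
      have hδ2 : ∀ j, j ≠ k → δ.2 j = 0 := fun j hj => hi.2 j (by
        intro h
        exact hj (Option.some.inj h).symm)
      have hτ0 : τ ≠ 0 := by
        intro h0
        apply hno (some k)
        rw [hdown, h0]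
        refine ⟨fun _ => ?_, fun j hj => ?_⟩
        · simp [cut, hδ1]
        · have := hδ2 j (fun h => hj (by rw [h]))
          simp [cut, this]
      have hτ1 : τ = 1 := zmod2_ne_zero hτ0
      refine ⟨?_, ?_, k, fun j hj => ?_⟩
      · rw [hG, Prod.fst_add, hδ1, cO.1 (by simp), add_zero]
      · rw [hdown, Prod.fst_add, cut_fst, hδ1, hτ1, zero_add]
      · rw [hdown]
        have := hδ2 j hj
        simp [cut, this]
  · -- Case A
    exfalso
    set P := min R N' with hP
    have p1 : N' ≤ 2 * P := by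
      rcases le_total R N' with h1 | h1
      · rw [hP, min_eq_left h1]; omega
      · rw [hP, min_eq_right h1]; omega
    have p2 : P ≤ N' := min_le_right _ _
    have p3 : P ≤ R := min_le_left _ _
    set s := Rr r n with hs
    have s1 : s ≤ h n := Rr_le r n
    set F := (P - s) / h n with hF
    have f1 : F * h n ≤ P - s := Nat.div_mul_le_self _ _
    have f2 : P - s < F * h n + h n := by
      have := Nat.lt_div_mul_add (a := P - s) hh
      rw [hF]
      exact this
    have f3 : 3 ≤ F := by
      rw [hF, Nat.le_div_iff_mul_le hh]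
      omega
    have f4 : F ≤ q n - 1 - cdig r n 0 := by
      have h1 := Rr_succ hr n
      rw [← hR, ← hs] at h1
      have h2 : F * h n ≤ (q n - 1 - cdig r n 0) * h n := by omega
      exact Nat.le_of_mul_le_mul_right h2 hh
    have hcs : cpos r n s = 0 := cpos_Rr r n
    have hadj : ∃ b, b + 1 < F ∧ g (s + b * h n) n = 0 ∧ g (s + (b + 1) * h n) n = 0 := by
      by_contra hcon
      have h1 := pair_count hLB hr hg hcs (F := F) (fun b hb h => hcon ⟨b, hb, h⟩) (F / 2)
        (by omega)
      have h2 : nz g 0 (s + 2 * (F / 2) * h n) ≤ nz g 0 N' := by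
        apply nz_mono
        have h3 : 2 * (F / 2) * h n ≤ F * h n := Nat.mul_le_mul_right _ (by omega)
        omega
      have h4 := hfloor F (by omega)
      have h5 : F * h n ≤ 3 * (F / 2) * h n := Nat.mul_le_mul_right _ h4
      have h6 : 3 * (F / 2) * h n = 3 * ((F / 2) * h n) := by ring
      omega
    obtain ⟨b, hb1, hb2, hb3⟩ := hadj
    have t1 := hg.own_sub_block hr (n := n) (b := b) (by omega)
    have t2 := hg.own_sub_block hr (n := n) (b := b + 1) (by omega)
    rw [← hs, hb2] at t1
    rw [← hs, hb3] at t2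
    have c0 : cut n (g 0 (n + 1)) = 0 := two_zero t1.symm t2.symm
    exact hn₁ (n + 1) (by omega) (some n) (onlyAt_of_cut c0 fun k hk => hg.level _ _ hk)

/-- the first component equals one and there is at most one more component -/
def QQ (v : K) : Prop := v.1 = 1 ∧ ∃ k, ∀ j, j ≠ k → v.2 j = 0

theorem descend {j z : ℕ} {G : K} (hG : QQ G) (hno : ∀ i, ¬ OnlyAt (f j z G) i) :
    QQ (f j z G) := by
  obtain ⟨h1, k, hk⟩ := hG
  by_cases hkj : k = j
  · subst hkj
    have h0 : ∀ i, (cut k G).2 i = 0 := by
      intro i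
      simp only [cut]
      split_ifs with hi
      · exact hk i (by omega)
      · rfl
    by_cases hs : Special k z
    · refine ⟨?_, κ k, fun i hi => ?_⟩
      · rw [f, Prod.fst_add, cut_fst, h1, con_special hs, single_fst, add_zero]
      · rw [f, Prod.snd_add, Pi.add_apply, h0, con_special hs, single_snd_ne hi, add_zero]
    · exfalso
      apply hno none
      refine ⟨fun h => absurd rfl h, fun i _ => ?_⟩
      rw [f, Prod.snd_add, Pi.add_apply, h0, zero_add]
      by_cases hh : Hit k z
      · rw [con_hit hh]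
        rfl
      · rw [con_plain hs hh]
        rfl
  · have h0 : G.2 j = 0 := hk j (fun h => hkj h.symm)
    rw [f_of_top_zero z h0]
    refine ⟨by rw [cut_fst, h1], k, fun i hi => ?_⟩
    simp only [cut]
    split_ifs
    · exact hk i hi
    · rfl

end SingleM

/-- MODULE Single -/
theorem specSingle (hLB : SpecLB) : SpecSingle := by
  intro r g hr hg hl hm _
  by_contra hcon
  -- a level from which on there are at least two components
  obtain ⟨n₁, hn₁⟩ : ∃ n₁, ∀ n, n₁ ≤ n → ∀ i, ¬ OnlyAt (g 0 n) i := by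
    push Not at hcon
    obtain ⟨n₁, _, h2⟩ := hcon 0
    refine ⟨n₁, fun n hn i hi => ?_⟩
    obtain ⟨i', hi'⟩ := SingleM.onlyAt_down hg hn ⟨i, hi⟩
    exact h2 i' hi'
  obtain ⟨n, hn, hP⟩ := SingleM.low_scale hLB hr hg hl hm hn₁ n₁
  obtain ⟨n', hn', hP'⟩ := SingleM.low_scale hLB hr hg hl hm hn₁ (n + 1)
  have key : ∀ j, n + 1 ≤ j → j ≤ n' → SingleM.QQ (g 0 j) := by
    intro j hj hjn
    induction hjn using Nat.decreasingInduction with
    | self => exact ⟨hP'.2.1, hP'.2.2⟩
    | of_succ j hj' ih =>
      have h1 := ih (by omega)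
      have h2 := hg.down 0 j
      rw [h2]
      apply SingleM.descend h1
      rw [← h2]
      exact hn₁ j (by omega)
  have h1 := (key (n + 1) le_rfl hn').1
  rw [hP.1] at h1
  exact absurd h1 (by decide)

end MP195885
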