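import Pool.Agent.Lib.MP_195885_an.Defs

/-!
# The odometer `Z`, the space `X`, the skew product on `Z × K` and the factor map
-/

open MeasureTheory Filter Topology Set

namespace MP195885

theorem q_pos (n : ℕ) : 0 < q n := by unfold q; omega

theorem h_pos (n : ℕ) : 0 < h n := by
  unfold h; exact Finset.prod_pos fun j _ => q_pos j

theorem h_zero : h 0 = 1 := by simp [h]

theorem h_succ (n : ℕ) : h (n + 1) = h n * q n := by simp [h, Finset.prod_range_succ]

theorem h_dvd (n : ℕ) : h n ∣ h (n + 1) := ⟨q n, h_succ n⟩

instance (n : ℕ) : NeZero (h n) := ⟨(h_pos n).ne'⟩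

/-- The odometer, as the inverse limit of the groups `ZMod (h n)`. -/
def Z : AddSubgroup ((n : ℕ) → ZMod (h n)) where
  carrier := {z | ∀ n, ZMod.castHom (h_dvd n) (ZMod (h n)) (z (n + 1)) = z n}
  add_mem' := by
    intro a b ha hb n
    simp only [Set.mem_ofPred_eq, Pi.add_apply, map_add] at *
    rw [ha n, hb n]
  zero_mem' := by intro n; simp
  neg_mem' := by
    intro a ha n
    simp only [Set.mem_ofPred_eq, Pi.neg_apply, map_neg] at *
    rw [ha n]

theorem isClosed_Z : IsClosed (Z : Set ((n : ℕ) → ZMod (h n))) := by
  have : (Z : Set ((n : ℕ) → ZMod (h n))) =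
      ⋂ n, {z | ZMod.castHom (h_dvd n) (ZMod (h n)) (z (n + 1)) = z n} := by
    ext z; simp [Z]
  rw [this]
  refine isClosed_iInter fun n => isClosed_eq ?_ ?_
  · exact continuous_of_discreteTopology.comp (continuous_apply _)
  · exact continuous_apply _

instance : CompactSpace Z := isCompact_iff_compactSpace.mp isClosed_Z.isCompact

/-- The generator of the odometer. -/
def oneZ : Z := ⟨fun _ => 1, by intro n; exact map_one _⟩

/-- Position in the `n`-block. -/
def pos (n : ℕ) (z : Z) : ℕ := (z.1 n).val

/-- Digit of level `n`. -/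
def dig (n : ℕ) (z : Z) : ℕ := pos (n + 1) z / h n

theorem isClock_pos (z : Z) : IsClock (fun n => pos n z) where
  lt n := ZMod.val_lt _
  mod n := by
    have hz := z.2 n
    show (z.1 (n + 1)).val % h n = (z.1 n).val
    rw [← hz, ZMod.castHom_apply, ZMod.cast_eq_val, ZMod.val_natCast]

theorem pos_add_one (n : ℕ) (z : Z) : pos n (z + oneZ) = (pos n z + 1) % h n := by
  show ((z.1 n + 1 : ZMod (h n))).val = _
  have : (z.1 n + 1 : ZMod (h n)) = (((z.1 n).val + 1 : ℕ) : ZMod (h n)) := by
    push_cast; rw [ZMod.natCast_zmod_val]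
  rw [this, ZMod.val_natCast]; rfl

theorem cpos_add_one (z : Z) (n p : ℕ) :
    cpos (fun n => pos n (z + oneZ)) n p = cpos (fun n => pos n z) n (p + 1) := by
  simp only [cpos, pos_add_one]
  rw [Nat.mod_add_mod]; congr 1; ring

theorem cdig_add_one (z : Z) (n p : ℕ) :
    cdig (fun n => pos n (z + oneZ)) n p = cdig (fun n => pos n z) n (p + 1) := by
  simp only [cdig, cpos_add_one]

/-- The phase space. -/
def X : Type := {x : Z × (ℕ → ℕ → K) // IsFlow (fun n => pos n x.1) x.2}

instance : TopologicalSpace X := inferInstanceAs
  (TopologicalSpace {x : Z × (ℕ → ℕ → K) // IsFlow (fun n => pos n x.1) x.2})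

/-- The transformation of the phase space. -/
def TX (x : X) : X := ⟨(x.1.1 + oneZ, fun p => x.1.2 (p + 1)), by
  constructor
  · intro p n
    have := x.2.down (p + 1) n
    rw [← cdig_add_one] at this
    exact this
  · intro p n hp
    refine x.2.step (p + 1) n ?_
    rw [← cpos_add_one]
    exact hp⟩

/-! ### The skew product on `Z × K` -/

/-- Content of the `n`-block at `(z, k)`, where `k` is the sequence of the current top
components. -/
def Vv (n : ℕ) (z : Z) (k : K) : K :=
  cut n k + ∑ m ∈ Finset.range n, con m (dig m z) (k.2 m)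

/-- The level at which adding one to `z` stops carrying (`0` for `z = -1`). -/
noncomputable def carry (z : Z) : ℕ := sInf {m | dig m z + 1 < q m}

/-- The fibre map. -/
noncomputable def A (z : Z) (k : K) : K :=
  k + con (carry z) (dig (carry z) z) (k.2 (carry z))
    + con (carry z) (dig (carry z) z + 1) (k.2 (carry z))

/-- The skew product. -/
noncomputable def Tt (ω : Z × K) : Z × K := (ω.1 + oneZ, A ω.1 ω.2)

/-- The flow of contents along the orbit of `ω`. -/
noncomputable def flow (ω : Z × K) (p n : ℕ) : K := Vv n (Tt^[p] ω).1 (Tt^[p] ω).2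

/-- Haar probability measure on the odometer. -/
noncomputable def mZ : Measure Z := Measure.addHaarMeasure ⊤

/-- Haar probability measure on the fibre group. -/
noncomputable def mK : Measure K := Measure.addHaarMeasure ⊤

/-- The product measure. -/
noncomputable def mΩ : Measure (Z × K) := mZ.prod mK

instance : SecondCountableTopology Z := TopologicalSpace.Subtype.secondCountableTopology _

instance : SecondCountableTopology X :=
  (TopologicalSpace.Subtype.secondCountableTopology _ :
    SecondCountableTopology {x : Z × (ℕ → ℕ → K) // IsFlow (fun n => pos n x.1) x.2})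

instance : T2Space X :=
  (inferInstance : T2Space {x : Z × (ℕ → ℕ → K) // IsFlow (fun n => pos n x.1) x.2})
instance : mZ.IsAddHaarMeasure := by unfold mZ; infer_instance
instance : mK.IsAddHaarMeasure := by unfold mK; infer_instance
instance : IsProbabilityMeasure mZ := ⟨by
  have := Measure.addHaarMeasure_self (K₀ := (⊤ : TopologicalSpace.PositiveCompacts Z))
  simpa [mZ] using this⟩
instance : IsProbabilityMeasure mK := ⟨by
  have := Measure.addHaarMeasure_self (K₀ := (⊤ : TopologicalSpace.PositiveCompacts K))
  simpa [mK] using this⟩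
instance : IsProbabilityMeasure mΩ := by unfold mΩ; infer_instance

/-- Compactness of the phase space (proved here so that a metric can be put on it). -/
theorem isFlow_iff (r : ℕ → ℕ) (g : ℕ → ℕ → K) : IsFlow r g ↔
    (∀ p n, g p n = f n (cdig r n p) (g p (n + 1))) ∧
      ∀ p n, cpos r n p + 1 < h n → g (p + 1) n = g p n :=
  ⟨fun hg => ⟨hg.down, hg.step⟩, fun hg => ⟨hg.1, hg.2⟩⟩

instance : TopologicalSpace.MetrizableSpace X := by
  have h3 : RegularSpace {x : Z × (ℕ → ℕ → K) // IsFlow (fun n => pos n x.1) x.2} :=
    inferInstance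
  have : RegularSpace X := h3
  exact TopologicalSpace.metrizableSpace_of_t3_secondCountable X

/-- A metric on the phase space compatible with the topology. -/
noncomputable instance instMetricX : MetricSpace X := TopologicalSpace.metrizableSpaceMetric X

instance : MeasurableSpace X := borel X
instance : BorelSpace X := ⟨rfl⟩

end MP195885
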