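import Pool.Agent.Lib.MP_195885_an.Space

/-!
# Exact module specifications
-/

open MeasureTheory Filter Topology Set

namespace MP195885

open Classical in
/-- Number of times `p < N` at which the `J`-block content is nonzero. -/
noncomputable def nz (g : ℕ → ℕ → K) (J N : ℕ) : ℕ :=
  ((Finset.range N).filter fun p => g p J ≠ 0).card

/-- The density of nonzero positions is arbitrarily small along arbitrarily long initial
segments. -/
def LowDens (g : ℕ → ℕ → K) : Prop :=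
  ∀ ε : ℝ, 0 < ε → ∃ᶠ N : ℕ in atTop, (nz g 0 N : ℝ) ≤ ε * N

/-- All components except possibly the `i`-th vanish; `none` is the `t`-component. -/
def OnlyAt (v : K) (i : Option ℕ) : Prop :=
  (i ≠ none → v.1 = 0) ∧ ∀ k : ℕ, i ≠ some k → v.2 k = 0

/-- MODULE Bal: the hit digits are balanced. -/
def SpecBal : Prop := ∀ (n : ℕ) (w : Fin n → ZMod 2), w ≠ 0 →
  2 * ((Finset.Ico (M n) (2 * M n)).filter fun β => dot n β w ≠ 0).card = M n

open Classical in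
/-- MODULE LB: a full block with nonzero content has many nonzero positions at level `0`. -/
def SpecLB : Prop := ∀ (r : ℕ → ℕ) (g : ℕ → ℕ → K), IsClock r → IsFlow r g →
  ∀ n p, cpos r n p = 0 → g p n ≠ 0 →
    h n ≤ 12 * ((Finset.range (h n)).filter fun i => g (p + i) 0 ≠ 0).card

/-- MODULE Single (no-DC1½, part 1). -/
def SpecSingle : Prop := ∀ (r : ℕ → ℕ) (g : ℕ → ℕ → K), IsClock r → IsFlow r g →
  LowDens g → (∀ p, ∃ m, cdig r m p + 1 < q m) → (∃ n₀, ∀ n, n₀ ≤ n → g 0 n ≠ 0) →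
    ∃ n₁, ∀ n, n₁ ≤ n → ∃ i, OnlyAt (g 0 n) i

/-- MODULE Minus (no-DC1½, part 2: the orbit of `-1`). -/
def SpecMinus : Prop := ∀ (r : ℕ → ℕ) (g : ℕ → ℕ → K), IsClock r → IsFlow r g →
  LowDens g → (∃ p, ∀ m, cdig r m p + 1 = q m) → ∃ P, ∀ p, P ≤ p → ∀ n, g p n = 0

/-- MODULE Half (no-DC1½, part 3). -/
def SpecHalf : Prop := ∀ (r : ℕ → ℕ) (g : ℕ → ℕ → K), IsClock r → IsFlow r g →
  LowDens g → (∀ p, ∃ m, cdig r m p + 1 < q m) →
  (∃ n₁, ∀ n, n₁ ≤ n → g 0 n ≠ 0 ∧ ∃ i, OnlyAt (g 0 n) i) →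
    ∀ J, ∃ C : ℕ, ∀ N, 2 * nz g J N ≤ N + C

/-- MODULE NoDC (assembly of Single, Minus, Half). -/
def SpecNoDC : Prop := ∀ (r : ℕ → ℕ) (g : ℕ → ℕ → K), IsClock r → IsFlow r g →
  LowDens g → ∀ J, ∃ C : ℕ, ∀ N, 2 * nz g J N ≤ N + C

/-- MODULE Chain (the density estimates for the pairs used for DC2). -/
def SpecChain : Prop := ∀ (r : ℕ → ℕ), IsClock r → ∀ ℓ : ℕ → ℕ, StrictMono ℓ →
  (∀ i, κ (ℓ (i + 1)) = ℓ i) → (∀ i, Special (ℓ (i + 1)) (cdig r (ℓ (i + 1)) 0)) →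
  ∀ b : ℕ → ZMod 2, b ≠ 0 → ∀ g : ℕ → ℕ → K, IsFlow r g →
  (∀ i n, ℓ i < n → n ≤ ℓ (i + 1) → g 0 n = single (ℓ i) (fun j => b j)) →
    (∀ J, ∀ ε : ℝ, 0 < ε → ∃ᶠ N : ℕ in atTop, (nz g J N : ℝ) ≤ ε * N) ∧
    (∃ᶠ N : ℕ in atTop, N ≤ 144 * nz g 0 N)

open Classical in
/-- MODULE UA: characterization of the first half of the DC-conditions. -/
def SpecUA : Prop := ∀ (Y : Type) [MetricSpace Y] (T : Y → Y) (x y : Y),
  UpperAsymptotic T x y ↔ ∀ s : ℝ, 0 < s → ∀ ε : ℝ, 0 < ε → ∃ᶠ N : ℕ in atTop,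
    (((Finset.range N).filter fun n => s ≤ dist (T^[n] x) (T^[n] y)).card : ℝ) ≤ ε * N

open Classical in
/-- MODULE UD: lower and upper bounds for the upper density. -/
def SpecUD : Prop :=
  (∀ (B : Set ℕ) (c : ℝ), (∃ᶠ N : ℕ in atTop,
    c * N ≤ (((Finset.range N).filter fun n => n ∈ B).card : ℝ)) → c ≤ upperDensity B) ∧
  (∀ (B : Set ℕ) (c : ℝ) (C : ℝ), (∀ᶠ N : ℕ in atTop,
    (((Finset.range N).filter fun n => n ∈ B).card : ℝ) ≤ c * N + C) → upperDensity B ≤ c)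

/-- MODULE Top: compactness of the phase space, continuity of the transformation, and the
comparison of the metric with the coordinates. -/
def SpecTop : Prop := CompactSpace X ∧ Continuous TX ∧
  (∀ J, ∃ s : ℝ, 0 < s ∧ ∀ x y : X,
    (pos J x.1.1 ≠ pos J y.1.1 ∨ x.1.2 0 J ≠ y.1.2 0 J) → s ≤ dist x y) ∧
  (∀ s : ℝ, 0 < s → ∃ J, ∀ x y : X, s ≤ dist x y →
    (pos J x.1.1 ≠ pos J y.1.1 ∨ ∃ p, p ≤ J ∧ x.1.2 p J ≠ y.1.2 p J))

/-- MODULE Flow: orbits of the skew product are flows; additivity; measurability. -/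
def SpecFlow : Prop :=
  (∀ ω : Z × K, IsFlow (fun n => pos n ω.1) (flow ω)) ∧
  (∀ (z : Z) (k k' : K) (p n : ℕ), flow (z, k + k') p n = flow (z, k) p n + flow (z, k') p n) ∧
  (∀ p n, Measurable fun ω => flow ω p n)

/-- MODULE MP: the skew product preserves the product measure. -/
def SpecMP : Prop := MeasurePreserving Tt mΩ mΩ

/-- Digit of level `j` of a position `i`. -/
def dg (j i : ℕ) : ℕ := i % h (j + 1) / h j

open Classical in
/-- MODULE Count: pairs of positions without a separating digit are rare (at target `k`, and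
at the target `t`), and positions without a special digit with target `k` are rare. -/
def SpecCount : Prop :=
  (∀ N k, k < N → ∀ ε : ℝ, 0 < ε → ∃ n, N ≤ n ∧
    ((((Finset.range (h n)) ×ˢ (Finset.range (h n))).filter fun x =>
      ∀ j, N ≤ j → j < n → κ j = k → ¬ (Special j (dg j x.1) ∧ dg j x.2 % 2 = 0)).card : ℝ)
      ≤ ε * (h n : ℝ) ^ 2) ∧
  (∀ N, ∀ ε : ℝ, 0 < ε → ∃ n, N ≤ n ∧
    ((((Finset.range (h n)) ×ˢ (Finset.range (h n))).filter fun x =>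
      ∀ j, N ≤ j → j < n →
        ¬ ((Hit j (dg j x.1) ∧ ∃ w, dot j (dg j x.1 / 2) w ≠ 0) ∧ dg j x.2 % 2 = 0)).card : ℝ)
      ≤ ε * (h n : ℝ) ^ 2) ∧
  (∀ k, ∀ ε : ℝ, 0 < ε → ∃ n,
    (((Finset.range (h n)).filter fun x =>
      ∀ j, 1 ≤ j → j < n → κ j = k → ¬ Special j (dg j x)).card : ℝ) ≤ ε * (h n : ℝ))

/-- The `±1`-valued character of `F_2`. -/
noncomputable def sgn (x : ZMod 2) : ℝ := if x = 0 then 1 else -1

/-- MODULE Corr (uses Flow, MP, Count): an invariant set is orthogonal to the nontrivial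
characters of the block contents. -/
def SpecCorr : Prop := ∀ s : Set (Z × K), MeasurableSet s → Tt ⁻¹' s = s →
  (∀ n c, c < h n → mΩ (s ∩ {ω | pos n ω.1 = c}) = mΩ s / (h n : ENNReal)) ∧
  ∀ (N c : ℕ) (lam : K →+ ZMod 2), Continuous lam → (∀ v, lam (cut N v) = lam v) → lam ≠ 0 →
    ∫ ω in s ∩ {ω | pos N ω.1 = c}, sgn (lam (Vv N ω.1 ω.2)) ∂mΩ = 0

/-- MODULE Erg (uses Corr): ergodicity. -/
def SpecErg : Prop := ∀ s : Set (Z × K), MeasurableSet s → Tt ⁻¹' s = s →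
  mΩ s = 0 ∨ mΩ sᶜ = 0

open Classical in
/-- The element of the fibre attached to a chain `ℓ` and a sequence `b`. -/
noncomputable def hb (ℓ : ℕ → ℕ) (b : ℕ → ZMod 2) : K :=
  (0, fun k => if k ∈ Set.range ℓ then fun j => b j else 0)

/-- MODULE Hb: the block contents of the chain elements. -/
def SpecHb : Prop := ∀ (z : Z) (ℓ : ℕ → ℕ), StrictMono ℓ → ℓ 0 = 0 →
  (∀ i, κ (ℓ (i + 1)) = ℓ i) → (∀ i, Special (ℓ (i + 1)) (dig (ℓ (i + 1)) z)) →
  ∀ (b : ℕ → ZMod 2) (i n : ℕ), ℓ i < n → n ≤ ℓ (i + 1) →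
    Vv n z (hb ℓ b) = single (ℓ i) (fun j => b j)

/-- MODULE Persist (uses Count): many chain elements outside every null set. -/
def SpecPersist : Prop := ∀ B : Set (Z × K), mΩ B = 0 →
  ∃ (z : Z) (ℓ : ℕ → ℕ) (k : K) (E : Set (ℕ → ZMod 2)),
    StrictMono ℓ ∧ ℓ 0 = 0 ∧ (∀ i, κ (ℓ (i + 1)) = ℓ i) ∧
    (∀ i, Special (ℓ (i + 1)) (dig (ℓ (i + 1)) z)) ∧ ¬ E.Countable ∧
    ∀ b ∈ E, (z, k + hb ℓ b) ∉ B

/-- MODULE PairNo (assembly: uses NoDC, Top, UA, UD). -/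
def SpecPairNo : Prop := ∀ x y : X, ¬ DC1halfPair TX x y

/-- MODULE PairDC2 (assembly: uses Chain, Hb, Flow, Top, UA, UD). -/
def SpecPairDC2 : Prop := ∃ s : ℝ, 0 < s ∧ ∀ (z : Z) (ℓ : ℕ → ℕ), StrictMono ℓ → ℓ 0 = 0 →
  (∀ i, κ (ℓ (i + 1)) = ℓ i) → (∀ i, Special (ℓ (i + 1)) (dig (ℓ (i + 1)) z)) →
  ∀ (k : K) (b b' : ℕ → ZMod 2), b ≠ b' → ∀ x y : X,
    x.1 = (z, flow (z, k + hb ℓ b)) → y.1 = (z, flow (z, k + hb ℓ b')) →
      UpperAsymptotic TX x y ∧ 1 / 144 ≤ upperDensity (farSet TX s x y)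

/-- MODULE Final: the final statement (assembly). -/
def SpecFinal : Prop :=
  ∃ (Y : Type) (_ : MetricSpace Y) (_ : CompactSpace Y) (_ : MeasurableSpace Y)
    (_ : BorelSpace Y) (T : Y → Y) (μ : Measure Y),
    Continuous T ∧ IsProbabilityMeasure μ ∧ Ergodic T μ ∧
    PersistentUniformDC2 T μ ∧ PersistentDC2 T μ ∧
    (∀ x y : Y, ¬ DC1halfPair T x y) ∧ ¬ DC1halfChaotic T

end MP195885
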