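import Pool.Agent.Lib.MP_195885_an.Spec

/-!
# MODULE Top: topology of the phase space
-/

open MeasureTheory Filter Topology Set

namespace MP195885

namespace TopM

/-- the ambient space -/
abbrev W : Type := Z × (ℕ → ℕ → K)

theorem cont_pos (n : ℕ) : Continuous (pos n) := by
  have h1 : Continuous fun z : Z => z.1 n := (continuous_apply n).comp continuous_subtype_val
  exact (continuous_of_discreteTopology (f := fun x : ZMod (h n) => x.val)).comp h1

theorem cont_cpos (n p : ℕ) : Continuous fun z : Z => cpos (fun n => pos n z) n p :=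
  (continuous_of_discreteTopology (f := fun x : ℕ => (x + p) % h n)).comp (cont_pos n)

theorem cont_cdig (n p : ℕ) : Continuous fun z : Z => cdig (fun n => pos n z) n p :=
  (continuous_of_discreteTopology (f := fun x : ℕ => x / h n)).comp (cont_cpos (n + 1) p)

theorem cont_cut (n : ℕ) : Continuous (cut n) := by
  unfold cut
  refine continuous_fst.prodMk (continuous_pi fun k => ?_)
  by_cases hk : k < n
  · simp only [hk, if_true]
    exact (continuous_apply k).comp continuous_snd
  · simp only [hk, if_false]
    exact continuous_const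

theorem cont_f (n a : ℕ) : Continuous (f n a) := by
  unfold f
  refine (cont_cut n).add ?_
  exact (continuous_of_discreteTopology (f := con n a)).comp
    ((continuous_apply n).comp continuous_snd)

theorem cont_f' (n p : ℕ) : Continuous fun x : W =>
    f n (cdig (fun n => pos n x.1) n p) (x.2 p (n + 1)) := by
  have h1 : Continuous fun y : ℕ × K => f n y.1 y.2 :=
    continuous_prod_of_discrete_left.2 fun a => cont_f n a
  exact h1.comp (((cont_cdig n p).comp continuous_fst).prodMk
    ((continuous_apply (n + 1)).comp ((continuous_apply p).comp continuous_snd)))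

theorem isClosed_flow : IsClosed {x : W | IsFlow (fun n => pos n x.1) x.2} := by
  have h1 : {x : W | IsFlow (fun n => pos n x.1) x.2} =
      (⋂ p, ⋂ n, {x : W | x.2 p n = f n (cdig (fun n => pos n x.1) n p) (x.2 p (n + 1))}) ∩
      (⋂ p, ⋂ n, ({x : W | ¬ (cpos (fun n => pos n x.1) n p + 1 < h n)} ∪
        {x : W | x.2 (p + 1) n = x.2 p n})) := by
    ext x
    simp only [mem_ofPred_eq, isFlow_iff, mem_inter_iff, mem_iInter, mem_union,
      ← imp_iff_not_or]
  rw [h1]
  have hV : ∀ p n, Continuous fun x : W => x.2 p n := fun p n =>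
    (continuous_apply n).comp ((continuous_apply p).comp continuous_snd)
  refine (isClosed_iInter fun p => isClosed_iInter fun n =>
    isClosed_eq (hV p n) (cont_f' n p)).inter
    (isClosed_iInter fun p => isClosed_iInter fun n => IsClosed.union ?_
      (isClosed_eq (hV (p + 1) n) (hV p n)))
  exact (isClosed_discrete {i : ℕ | ¬ (i + 1 < h n)}).preimage
    ((cont_cpos n p).comp continuous_fst)

theorem compact : CompactSpace X := by
  have h1 : CompactSpace {x : W // IsFlow (fun n => pos n x.1) x.2} :=
    isCompact_iff_compactSpace.1 isClosed_flow.isCompact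
  exact h1

theorem cont_Z : Continuous fun x : X => x.1.1 := continuous_fst.comp continuous_subtype_val

theorem cont_V (p n : ℕ) : Continuous fun x : X => x.1.2 p n :=
  (continuous_apply n).comp ((continuous_apply p).comp
    (continuous_snd.comp continuous_subtype_val))

theorem cont_T : Continuous TX := by
  refine Continuous.subtype_mk ?_ _
  exact (cont_Z.add continuous_const).prodMk (continuous_pi fun p => continuous_pi fun n =>
    cont_V (p + 1) n)

/-- the components `≥ n` of the content of an `n`-block vanish -/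
theorem f_high (n a : ℕ) (v : K) (k : ℕ) (hk : n ≤ k) : (f n a v).2 k = 0 := by
  have h1 : (cut n v).2 k = 0 := by
    unfold cut
    simp only
    rw [if_neg (by omega)]
  have h2 : (con n a (v.2 n)).2 k = 0 := by
    unfold con
    split_ifs with hs hh
    · have hn : 1 ≤ n := hs.1
      have h3 : κ n < n := Nat.unpair_lt hn
      unfold single
      simp only
      rw [Pi.single_eq_of_ne (by omega)]
    · rfl
    · rfl
  unfold f
  rw [Prod.snd_add, Pi.add_apply, h1, h2, add_zero]

theorem V_high (x : X) (p n k : ℕ) (hk : n ≤ k) : (x.1.2 p n).2 k = 0 := by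
  rw [x.2.down p n]
  exact f_high _ _ _ _ hk

/-- the closed set of pairs separated at level `J` -/
def sep (J : ℕ) : Set (X × X) :=
  {q | pos J q.1.1.1 ≠ pos J q.2.1.1 ∨ q.1.1.2 0 J ≠ q.2.1.2 0 J}

theorem sep_closed (J : ℕ) : IsClosed (sep J) := by
  have h1 : sep J = {q : X × X | pos J q.1.1.1 ≠ pos J q.2.1.1} ∪
      ({q : X × X | (q.1.1.2 0 J).1 ≠ (q.2.1.2 0 J).1} ∪
        ⋃ k ∈ Finset.range J, {q : X × X | (q.1.1.2 0 J).2 k ≠ (q.2.1.2 0 J).2 k}) := by
    ext q
    simp only [sep, mem_ofPred_eq, mem_union, mem_iUnion, Finset.mem_range, exists_prop]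
    refine or_congr Iff.rfl ?_
    constructor
    · intro hne
      by_contra hcon
      push Not at hcon
      apply hne
      refine Prod.ext hcon.1 (funext fun k => ?_)
      by_cases hk : k < J
      · exact hcon.2 k hk
      · rw [V_high q.1 0 J k (by omega), V_high q.2 0 J k (by omega)]
    · rintro (h2 | ⟨k, _, h2⟩) h3
      · exact h2 (by rw [h3])
      · exact h2 (by rw [h3])
  have hne : ∀ {α : Type} [TopologicalSpace α] [DiscreteTopology α] (u : X → α),
      Continuous u → IsClosed {q : X × X | u q.1 ≠ u q.2} := by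
    intro α _ _ u hu
    have h2 : Continuous fun q : X × X => (u q.1, u q.2) :=
      (hu.comp continuous_fst).prodMk (hu.comp continuous_snd)
    exact (isClosed_discrete {y : α × α | y.1 ≠ y.2}).preimage h2
  rw [h1]
  refine (hne (fun x => pos J x.1.1) ((cont_pos J).comp cont_Z)).union
    ((hne (fun x => (x.1.2 0 J).1) (continuous_fst.comp (cont_V 0 J))).union ?_)
  refine isClosed_biUnion_finset fun k _ => ?_
  exact hne (fun x => (x.1.2 0 J).2 k) ((continuous_apply k).comp
    (continuous_snd.comp (cont_V 0 J)))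

theorem third (J : ℕ) : ∃ s : ℝ, 0 < s ∧ ∀ x y : X,
    (pos J x.1.1 ≠ pos J y.1.1 ∨ x.1.2 0 J ≠ y.1.2 0 J) → s ≤ dist x y := by
  have := compact
  rcases (sep J).eq_empty_or_nonempty with he | hne
  · refine ⟨1, one_pos, fun x y hxy => ?_⟩
    have : (x, y) ∈ sep J := hxy
    rw [he] at this
    exact absurd this (notMem_empty _)
  · obtain ⟨q, hq, hmin⟩ := (sep_closed J).isCompact.exists_isMinOn hne
      (f := fun q : X × X => dist q.1 q.2) (continuous_dist.continuousOn)
    refine ⟨dist q.1 q.2, ?_, fun x y hxy => hmin (show (x, y) ∈ sep J from hxy)⟩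
    rw [dist_pos]
    intro h0
    rcases hq with h1 | h1
    · exact h1 (by rw [h0])
    · exact h1 (by rw [h0])

/-- the closed set of pairs which are far but not separated up to `J` -/
def bad (s : ℝ) (J : ℕ) : Set (X × X) :=
  {q | s ≤ dist q.1 q.2 ∧ pos J q.1.1.1 = pos J q.2.1.1 ∧
    ∀ p ≤ J, q.1.1.2 p J = q.2.1.2 p J}

theorem bad_closed (s : ℝ) (J : ℕ) : IsClosed (bad s J) := by
  have h1 : bad s J = {q : X × X | s ≤ dist q.1 q.2} ∩
      ({q : X × X | pos J q.1.1.1 = pos J q.2.1.1} ∩
        ⋂ p, ⋂ _ : p ≤ J, {q : X × X | q.1.1.2 p J = q.2.1.2 p J}) := by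
    ext q
    simp only [bad, mem_ofPred_eq, mem_inter_iff, mem_iInter]
  rw [h1]
  refine (isClosed_le continuous_const continuous_dist).inter
    ((isClosed_eq (((cont_pos J).comp cont_Z).comp continuous_fst)
      (((cont_pos J).comp cont_Z).comp continuous_snd)).inter
    (isClosed_iInter fun p => isClosed_iInter fun _ =>
      isClosed_eq ((cont_V p J).comp continuous_fst) ((cont_V p J).comp continuous_snd)))

theorem pos_mono {z z' : Z} {J : ℕ} (he : pos (J + 1) z = pos (J + 1) z') :
    pos J z = pos J z' := by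
  have h1 := (isClock_pos z).mod J
  have h2 := (isClock_pos z').mod J
  rw [← h1, ← h2, he]

theorem cdig_congr {r r' : ℕ → ℕ} {J p : ℕ} (he : r (J + 1) = r' (J + 1)) :
    cdig r J p = cdig r' J p := by
  unfold cdig cpos
  rw [he]

theorem V_mono {x y : X} {J p : ℕ} (he : pos (J + 1) x.1.1 = pos (J + 1) y.1.1)
    (hv : x.1.2 p (J + 1) = y.1.2 p (J + 1)) : x.1.2 p J = y.1.2 p J := by
  rw [x.2.down p J, y.2.down p J, hv]
  exact congrArg (fun a => f J a (y.1.2 p (J + 1))) (cdig_congr he)

theorem bad_anti (s : ℝ) : Antitone (bad s) := by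
  refine antitone_nat_of_succ_le fun J => ?_
  rintro q ⟨h1, h2, h3⟩
  exact ⟨h1, pos_mono h2, fun p hp => V_mono h2 (h3 p (by omega))⟩

theorem bad_empty (s : ℝ) (hs : 0 < s) : ⋂ J, bad s J = ∅ := by
  rw [eq_empty_iff_forall_notMem]
  intro q hq
  rw [mem_iInter] at hq
  have hZ : ∀ J, pos J q.1.1.1 = pos J q.2.1.1 := fun J => (hq J).2.1
  have h1 : q.1.1.1 = q.2.1.1 := by
    apply Subtype.ext
    funext n
    exact ZMod.val_injective _ (hZ n)
  have h2 : ∀ p n, q.1.1.2 p n = q.2.1.2 p n := by
    intro p n
    have key : ∀ d n, q.1.1.2 p (n + d) = q.2.1.2 p (n + d) → q.1.1.2 p n = q.2.1.2 p n := by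
      intro d
      induction d with
      | zero => intro n hn; exact hn
      | succ d ih =>
        intro n hn
        exact ih n (V_mono (hZ _) hn)
    exact key (max p n - n) n (by
      have e : n + (max p n - n) = max p n := by omega
      rw [e]
      exact (hq (max p n)).2.2 p (le_max_left _ _))
  have h3 : q.1 = q.2 := by
    apply Subtype.ext
    exact Prod.ext h1 (funext fun p => funext fun n => h2 p n)
  have h4 := (hq 0).1
  rw [h3, dist_self] at h4
  linarith

theorem fourth (s : ℝ) (hs : 0 < s) : ∃ J, ∀ x y : X, s ≤ dist x y →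
    (pos J x.1.1 ≠ pos J y.1.1 ∨ ∃ p, p ≤ J ∧ x.1.2 p J ≠ y.1.2 p J) := by
  have := compact
  by_contra hcon
  push Not at hcon
  have hne : ∀ J, (bad s J).Nonempty := by
    intro J
    obtain ⟨x, y, h1, h2, h3⟩ := hcon J
    exact ⟨(x, y), h1, h2, h3⟩
  have h1 := IsCompact.nonempty_iInter_of_directed_nonempty_isCompact_isClosed (bad s)
    (directed_of_isDirected_le fun i j hij => bad_anti s hij) hne
    (fun J => (bad_closed s J).isCompact) (bad_closed s)
  rw [bad_empty s hs] at h1
  exact not_nonempty_empty h1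

end TopM

/-- MODULE Top -/
theorem specTop : SpecTop :=
  ⟨TopM.compact, TopM.cont_T, TopM.third, TopM.fourth⟩

end MP195885
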