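import Pool.Agent.Lib.MP_195885_an.UD

/-!
# Module UA: characterization of the first half of the DC-conditions
-/

set_option autoImplicit false

open MeasureTheory Filter Topology Set

namespace MP195885

namespace UAM

open Classical in
/-- the abstract form, for a sequence of nonnegative numbers -/
theorem main (hUD : SpecUD) (d : ℕ → ℝ) (hd : ∀ n, 0 ≤ d n) :
    (∃ A : Set ℕ, upperDensity A = 1 ∧ Tendsto d (atTop ⊓ 𝓟 A) (𝓝 0)) ↔
      ∀ s : ℝ, 0 < s → ∀ ε : ℝ, 0 < ε → ∃ᶠ N : ℕ in atTop,
        (((Finset.range N).filter fun n => s ≤ d n).card : ℝ) ≤ ε * N := by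
  constructor
  · rintro ⟨A, hA, hlim⟩ s hs ε hε
    -- a threshold
    obtain ⟨n₀, hn₀⟩ : ∃ n₀ : ℕ, ∀ n, n₀ ≤ n → n ∈ A → d n < s := by
      have h1 : ∀ᶠ n in atTop ⊓ 𝓟 A, d n < s := hlim.eventually_lt_const hs
      rw [eventually_inf_principal, eventually_atTop] at h1
      obtain ⟨n₀, h⟩ := h1
      exact ⟨n₀, fun n hn hA => h n hn hA⟩
    have hfr : ∃ᶠ N : ℕ in atTop, 1 - ε / 2 < ((A ∩ Set.Icc 1 N).ncard : ℝ) / (N : ℝ) := by
      refine frequently_lt_of_lt_limsup (UDM.cobdd A) ?_
      show 1 - ε / 2 < upperDensity A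
      rw [hA]
      linarith
    obtain ⟨N₁, hN₁⟩ := exists_nat_gt (((n₀ : ℝ) + 1) / (ε / 2))
    refine (hfr.and_eventually (eventually_ge_atTop (N₁ + 1))).mono ?_
    rintro N ⟨h1, h2⟩
    have hN : (0 : ℝ) < N := by
      have : 0 < N := by omega
      exact_mod_cast this
    have h3 : (n₀ : ℝ) + 1 ≤ ε / 2 * N := by
      have h4 : (N₁ : ℝ) + 1 ≤ N := by exact_mod_cast h2
      have h5 : ((n₀ : ℝ) + 1) / (ε / 2) < N := by linarith
      rw [div_lt_iff₀ (by positivity)] at h5
      linarith
    rw [lt_div_iff₀ hN] at h1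
    have h4 : ((A ∩ Set.Icc 1 N).ncard : ℝ) ≤
        (((Finset.range N).filter fun n => n ∈ A).card : ℝ) + 1 := by
      exact_mod_cast UDM.ncard_le A N
    have h5 : ((Finset.range N).filter fun n => s ≤ d n).card ≤
        n₀ + ((Finset.range N).filter fun n => ¬ n ∈ A).card := by
      have h6 : ((Finset.range N).filter fun n => s ≤ d n) ⊆
          Finset.range n₀ ∪ ((Finset.range N).filter fun n => ¬ n ∈ A) := by
        intro n hn
        rw [Finset.mem_filter] at hn
        rw [Finset.mem_union, Finset.mem_filter, Finset.mem_range]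
        by_cases hlt : n < n₀
        · exact Or.inl hlt
        · refine Or.inr ⟨hn.1, fun hA => ?_⟩
          exact absurd hn.2 (not_le.2 (hn₀ n (by omega) hA))
      refine (Finset.card_le_card h6).trans ((Finset.card_union_le _ _).trans ?_)
      rw [Finset.card_range]
    have h6 := Finset.card_filter_add_card_filter_not (s := Finset.range N) (fun n => n ∈ A)
    rw [Finset.card_range] at h6
    have h7 : (((Finset.range N).filter fun n => s ≤ d n).card : ℝ) ≤
        n₀ + (((Finset.range N).filter fun n => ¬ n ∈ A).card : ℝ) := by exact_mod_cast h5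
    have h8 : (((Finset.range N).filter fun n => n ∈ A).card : ℝ) +
        (((Finset.range N).filter fun n => ¬ n ∈ A).card : ℝ) = N := by exact_mod_cast h6
    nlinarith
  · intro hyp
    -- the scales
    have hstep : ∀ (k m : ℕ), ∃ N : ℕ, m < N ∧ (k + 2) * m ≤ N ∧
        (((Finset.range N).filter fun n => 1 / ((k : ℝ) + 2) ≤ d n).card : ℝ) ≤
          1 / ((k : ℝ) + 2) * N := by
      intro k m
      have h1 := hyp (1 / ((k : ℝ) + 2)) (by positivity) (1 / ((k : ℝ) + 2)) (by positivity)
      obtain ⟨N, h2, h3⟩ := (h1.and_eventually (eventually_ge_atTop ((k + 2) * m + m + 1))).exists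
      exact ⟨N, by omega, by omega, h2⟩
    choose nx hnx1 hnx2 hnx3 using hstep
    obtain ⟨S, hS0, hS⟩ : ∃ S : ℕ → ℕ, S 0 = 1 ∧ ∀ k, S (k + 1) = nx k (S k) :=
      ⟨fun k => Nat.rec 1 (fun k m => nx k m) k, rfl, fun k => rfl⟩
    have hmono : StrictMono S := strictMono_nat_of_lt_succ fun k => by
      rw [hS]
      exact hnx1 k (S k)
    have hpos : ∀ k, 1 ≤ S k := fun k => by
      rw [← hS0]
      exact hmono.monotone (Nat.zero_le k)
    have hbig : ∀ k, (k + 2) * S k ≤ S (k + 1) := fun k => by
      rw [hS]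
      exact hnx2 k (S k)
    have hcard : ∀ k, (((Finset.range (S (k + 1))).filter
        fun n => 1 / ((k : ℝ) + 2) ≤ d n).card : ℝ) ≤ 1 / ((k : ℝ) + 2) * (S (k + 1) : ℕ) :=
      fun k => by
        rw [hS]
        exact hnx3 k (S k)
    obtain ⟨A, hA⟩ : ∃ A : Set ℕ, ∀ n, n ∈ A ↔
        ∃ k : ℕ, S k ≤ n ∧ n < S (k + 1) ∧ d n < 1 / ((k : ℝ) + 2) := ⟨{n | _}, fun n => Iff.rfl⟩
    refine ⟨A, ?_, ?_⟩
    · -- the upper density
      have hup : upperDensity A ≤ 1 := by
        refine hUD.2 A 1 0 (Eventually.of_forall fun N => ?_)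
        have := Finset.card_filter_le (Finset.range N) (fun n => n ∈ A)
        rw [Finset.card_range] at this
        have h2 : (((Finset.range N).filter fun n => n ∈ A).card : ℝ) ≤ N := by
          exact_mod_cast this
        linarith
      refine le_antisymm hup ?_
      refine le_of_forall_pos_sub_le fun δ hδ => ?_
      refine hUD.1 A (1 - δ) ?_
      rw [frequently_atTop]
      intro a
      obtain ⟨k₀, hk₀⟩ := exists_nat_gt (2 / δ)
      set k := max a k₀ with hk
      refine ⟨S (k + 1), ?_, ?_⟩
      · have := hmono.id_le (k + 1)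
        simp only [id] at this
        have h2 : a ≤ k := le_max_left _ _
        show a ≤ S (k + 1)
        omega
      · have h1 : Finset.range (S (k + 1)) ⊆ Finset.range (S k) ∪
            (((Finset.range (S (k + 1))).filter fun n => 1 / ((k : ℝ) + 2) ≤ d n) ∪
              ((Finset.range (S (k + 1))).filter fun n => n ∈ A)) := by
          intro n hn
          rw [Finset.mem_range] at hn
          rw [Finset.mem_union, Finset.mem_union, Finset.mem_filter, Finset.mem_filter,
            Finset.mem_range, Finset.mem_range]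
          by_cases hlt : n < S k
          · exact Or.inl hlt
          · right
            by_cases hdn : 1 / ((k : ℝ) + 2) ≤ d n
            · exact Or.inl ⟨hn, hdn⟩
            · exact Or.inr ⟨hn, (hA n).2 ⟨k, by omega, hn, not_le.1 hdn⟩⟩
        have h2 := (Finset.card_le_card h1).trans ((Finset.card_union_le _ _).trans
          (Nat.add_le_add_left (Finset.card_union_le _ _) _))
        rw [Finset.card_range, Finset.card_range] at h2
        have h3 : (S (k + 1) : ℝ) ≤ (S k : ℝ) +
            ((((Finset.range (S (k + 1))).filter fun n => 1 / ((k : ℝ) + 2) ≤ d n).card : ℝ) +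
              (((Finset.range (S (k + 1))).filter fun n => n ∈ A).card : ℝ)) := by
          exact_mod_cast h2
        have h4 := hcard k
        have h5 : ((k : ℝ) + 2) * S k ≤ S (k + 1) := by exact_mod_cast hbig k
        have hkpos : (0 : ℝ) < (k : ℝ) + 2 := by positivity
        have h6 : (S k : ℝ) ≤ 1 / ((k : ℝ) + 2) * S (k + 1) := by
          rw [one_div, ← div_eq_inv_mul, le_div_iff₀ hkpos]
          linarith
        have h7 : 2 * (1 / ((k : ℝ) + 2)) ≤ δ := by
          have h8 : 2 / δ < (k : ℝ) + 2 := by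
            have : (k₀ : ℝ) ≤ k := by exact_mod_cast le_max_right a k₀
            linarith
          rw [div_lt_iff₀ hδ] at h8
          rw [mul_one_div, div_le_iff₀ hkpos]
          linarith
        have h9 : (0 : ℝ) ≤ S (k + 1) := by positivity
        have h10 := mul_le_mul_of_nonneg_right h7 h9
        show (1 - δ) * (S (k + 1) : ℕ) ≤ _
        linarith
    · -- convergence
      rw [Metric.tendsto_nhds]
      intro ε hε
      rw [eventually_inf_principal, eventually_atTop]
      obtain ⟨k₀, hk₀⟩ := exists_nat_gt (1 / ε)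
      refine ⟨S k₀, ?_⟩
      intro n hn hnA
      obtain ⟨k, hk1, hk2, hk3⟩ := (hA n).1 hnA
      have hkk : k₀ ≤ k := by
        by_contra hlt
        have h1 : S (k + 1) ≤ S k₀ := hmono.monotone (by omega)
        omega
      rw [Real.dist_eq, sub_zero, abs_of_nonneg (hd n)]
      refine hk3.trans ?_
      have h1 : (k₀ : ℝ) ≤ k := by exact_mod_cast hkk
      have hkpos : (0 : ℝ) < (k : ℝ) + 2 := by positivity
      rw [div_lt_iff₀ hkpos]
      rw [div_lt_iff₀ hε] at hk₀
      nlinarith

end UAM

theorem specUA (hUD : SpecUD) : SpecUA := by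
  intro Y _ T x y
  exact UAM.main hUD (fun n => dist (T^[n] x) (T^[n] y)) (fun n => dist_nonneg)

end MP195885
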