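import Pool.Agent.Lib.MP_195885_an.Spec

/-!
# Modules UD and UA: upper densities
-/

set_option autoImplicit false

open MeasureTheory Filter Topology Set

namespace MP195885

namespace UDM

open Classical in
theorem ncard_eq (B : Set ℕ) (N : ℕ) :
    (B ∩ Set.Icc 1 N).ncard = ((Finset.Icc 1 N).filter fun n => n ∈ B).card := by
  rw [← Set.ncard_coe_finset]
  congr 1
  ext n
  simp only [Set.mem_inter_iff, Set.mem_Icc, Finset.coe_filter, Finset.mem_Icc,
    Set.mem_ofPred_eq]
  tauto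

open Classical in
theorem ncard_le (B : Set ℕ) (N : ℕ) :
    (B ∩ Set.Icc 1 N).ncard ≤ ((Finset.range N).filter fun n => n ∈ B).card + 1 := by
  rw [ncard_eq]
  refine le_trans (Finset.card_le_card ?_) (Finset.card_insert_le N _)
  intro n hn
  rw [Finset.mem_filter, Finset.mem_Icc] at hn
  rw [Finset.mem_insert, Finset.mem_filter, Finset.mem_range]
  rcases Nat.eq_or_lt_of_le hn.1.2 with h | h
  · exact Or.inl h
  · exact Or.inr ⟨h, hn.2⟩

open Classical in
theorem le_ncard (B : Set ℕ) (N : ℕ) :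
    ((Finset.range N).filter fun n => n ∈ B).card ≤ (B ∩ Set.Icc 1 N).ncard + 1 := by
  rw [ncard_eq]
  refine le_trans (Finset.card_le_card ?_) (Finset.card_insert_le 0 _)
  intro n hn
  rw [Finset.mem_filter, Finset.mem_range] at hn
  rw [Finset.mem_insert, Finset.mem_filter, Finset.mem_Icc]
  rcases Nat.eq_zero_or_pos n with h | h
  · exact Or.inl h
  · exact Or.inr ⟨⟨h, hn.1.le⟩, hn.2⟩

theorem ratio_nonneg (B : Set ℕ) (N : ℕ) : 0 ≤ ((B ∩ Set.Icc 1 N).ncard : ℝ) / (N : ℝ) := by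
  positivity

theorem ratio_le_one (B : Set ℕ) (N : ℕ) : ((B ∩ Set.Icc 1 N).ncard : ℝ) / (N : ℝ) ≤ 1 := by
  classical
  refine div_le_one_of_le₀ ?_ (by positivity)
  rw [ncard_eq]
  have := Finset.card_filter_le (Finset.Icc 1 N) (fun n => n ∈ B)
  rw [Nat.card_Icc] at this
  exact_mod_cast this

theorem bdd (B : Set ℕ) : IsBoundedUnder (· ≤ ·) atTop
    (fun N : ℕ => ((B ∩ Set.Icc 1 N).ncard : ℝ) / (N : ℝ)) :=
  isBoundedUnder_of ⟨1, fun N => ratio_le_one B N⟩

theorem cobdd (B : Set ℕ) : IsCoboundedUnder (· ≤ ·) atTop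
    (fun N : ℕ => ((B ∩ Set.Icc 1 N).ncard : ℝ) / (N : ℝ)) :=
  (isBoundedUnder_of (r := (· ≥ ·)) ⟨0, fun N => ratio_nonneg B N⟩).isCoboundedUnder_le

end UDM

theorem specUD : SpecUD := by
  classical
  refine ⟨?_, ?_⟩
  · intro B c hfr
    refine le_of_forall_pos_sub_le fun δ hδ => ?_
    refine le_limsup_of_frequently_le ?_ (UDM.bdd B)
    obtain ⟨N₀, hN₀⟩ := exists_nat_gt (1 / δ)
    refine (hfr.and_eventually (eventually_ge_atTop (N₀ + 1))).mono ?_
    rintro N ⟨h1, h2⟩
    have h3 : (((Finset.range N).filter fun n => n ∈ B).card : ℝ) ≤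
        ((B ∩ Set.Icc 1 N).ncard : ℝ) + 1 := by exact_mod_cast UDM.le_ncard B N
    have hN : (0 : ℝ) < N := by
      have : 0 < N := by omega
      exact_mod_cast this
    have h4 : 1 ≤ δ * N := by
      have : (N₀ : ℝ) + 1 ≤ N := by exact_mod_cast h2
      have h5 : 1 / δ < N := by linarith
      rw [div_lt_iff₀ hδ] at h5
      linarith
    rw [le_div_iff₀ hN]
    have h1' : c * N ≤ (((Finset.range N).filter fun n => n ∈ B).card : ℝ) := h1
    nlinarith
  · intro B c C hev
    refine le_of_forall_pos_le_add fun δ hδ => ?_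
    refine limsup_le_of_le (UDM.cobdd B) ?_
    obtain ⟨N₀, hN₀⟩ := exists_nat_gt ((|C| + 1) / δ)
    filter_upwards [hev, eventually_ge_atTop (N₀ + 1)] with N h1 h2
    have h3 : ((B ∩ Set.Icc 1 N).ncard : ℝ) ≤
        (((Finset.range N).filter fun n => n ∈ B).card : ℝ) + 1 := by
      exact_mod_cast UDM.ncard_le B N
    have hN : (0 : ℝ) < N := by
      have : 0 < N := by omega
      exact_mod_cast this
    have h4 : |C| + 1 ≤ δ * N := by
      have : (N₀ : ℝ) + 1 ≤ N := by exact_mod_cast h2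
      have h5 : (|C| + 1) / δ < N := by linarith
      rw [div_lt_iff₀ hδ] at h5
      linarith
    rw [div_le_iff₀ hN]
    have h1' : (((Finset.range N).filter fun n => n ∈ B).card : ℝ) ≤ c * N + C := h1
    have h5 := le_abs_self C
    nlinarith

end MP195885
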